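import Pool.Agent.Lib.MP_5b6025_nt.FE.Spec

/-!
# ARC: upper bound for the number of points in an arc of the circle
-/

set_option autoImplicit false

open Finset

namespace Pool.Agent.Lib.MP_5b6025_nt.FE

namespace ARC

lemma ee_pow (u : ℝ) (h : ℕ) : (ee u) ^ h = ee ((h : ℝ) * u) := by
  induction h with
  | zero => simp
  | succ h ih =>
    rw [pow_succ, ih, ← ee_add]
    congr 1
    push_cast
    ring

lemma sum_reflect (z : ℂ) (hz : ‖z‖ = 1) (M : ℕ) :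
    (starRingEnd ℂ) (∑ j ∈ range M, z ^ j) * z ^ M = ∑ h ∈ Ico 1 (M + 1), z ^ h := by
  have hzz : (starRingEnd ℂ) z * z = 1 := by
    rw [mul_comm, Complex.mul_conj, Complex.normSq_eq_norm_sq, hz]
    norm_num
  have h1 : ∑ h ∈ Ico 1 (M + 1), z ^ h = ∑ j ∈ range M, z ^ (M - j) := by
    rw [Finset.sum_Ico_eq_sum_range, Nat.add_sub_cancel,
      ← Finset.sum_range_reflect (fun i => z ^ (1 + i)) M]
    refine Finset.sum_congr rfl fun j hj => ?_
    have := Finset.mem_range.1 hj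
    congr 1
    omega
  rw [h1, map_sum, Finset.sum_mul]
  refine Finset.sum_congr rfl fun j hj => ?_
  have hj' := Finset.mem_range.1 hj
  have h2 : z ^ M = z ^ j * z ^ (M - j) := by
    rw [← pow_add]
    congr 1
    omega
  rw [h2, map_pow, ← mul_assoc, ← mul_pow, hzz, one_pow, one_mul]

lemma sq_norm (z : ℂ) (hz : ‖z‖ = 1) (M : ℕ) :
    ‖∑ j ∈ range M, z ^ j‖ ^ 2
      = (M : ℝ) + 2 * ∑ h ∈ Ico 1 M, ((M : ℝ) - (h : ℝ)) * (z ^ h).re := by
  induction M with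
  | zero => simp
  | succ M ih =>
    rcases Nat.eq_zero_or_pos M with rfl | hM
    · simp
    have h1 : ‖∑ j ∈ range (M + 1), z ^ j‖ ^ 2 = ‖∑ j ∈ range M, z ^ j‖ ^ 2
        + 2 * ((starRingEnd ℂ) (∑ j ∈ range M, z ^ j) * z ^ M).re + 1 := by
      rw [Finset.sum_range_succ]
      generalize (∑ j ∈ range M, z ^ j) = S
      have h2 : ‖z ^ M‖ ^ 2 = 1 := by rw [norm_pow, hz, one_pow, one_pow]
      rw [← h2, ← Complex.normSq_eq_norm_sq, ← Complex.normSq_eq_norm_sq,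
        ← Complex.normSq_eq_norm_sq, Complex.normSq_add]
      have h3 : (S * (starRingEnd ℂ) (z ^ M)).re = ((starRingEnd ℂ) S * z ^ M).re := by
        rw [← Complex.conj_re, map_mul, Complex.conj_conj]
      rw [h3]
      ring
    rw [h1, sum_reflect z hz M, ih, Finset.sum_Ico_succ_top hM, Finset.sum_Ico_succ_top hM,
      Complex.add_re, Complex.re_sum]
    have h4 : ∑ h ∈ Ico 1 M, (((M + 1 : ℕ) : ℝ) - (h : ℝ)) * (z ^ h).re
        = ∑ h ∈ Ico 1 M, ((M : ℝ) - (h : ℝ)) * (z ^ h).re + ∑ h ∈ Ico 1 M, (z ^ h).re := by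
      rw [← Finset.sum_add_distrib]
      refine Finset.sum_congr rfl fun h _ => ?_
      push_cast
      ring
    rw [h4]
    push_cast
    ring

lemma P_mul (u : ℝ) (M : ℕ) : ‖∑ j ∈ range M, (ee u) ^ j‖ * ‖ee u - 1‖ ≤ 2 := by
  rw [← norm_mul, geom_sum_mul]
  calc ‖ee u ^ M - 1‖ ≤ ‖ee u ^ M‖ + ‖(1 : ℂ)‖ := norm_sub_le _ _
    _ = 2 := by rw [norm_pow, norm_ee, one_pow, norm_one]; norm_num

lemma P_le (u : ℝ) (hu : |u| ≤ 1 / 2) (M : ℕ) :
    ‖∑ j ∈ range M, (ee u) ^ j‖ ^ 2 * (4 * u ^ 2) ≤ 1 := by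
  have h1 := P_mul u M
  have h2 := le_norm_ee_sub_one hu
  have h3 : ‖∑ j ∈ range M, (ee u) ^ j‖ * (4 * |u|) ≤ 2 :=
    (mul_le_mul_of_nonneg_left h2 (norm_nonneg _)).trans h1
  have h4 : 0 ≤ ‖∑ j ∈ range M, (ee u) ^ j‖ * (4 * |u|) := by positivity
  have h5 : (‖∑ j ∈ range M, (ee u) ^ j‖ * (4 * |u|)) ^ 2 ≤ 2 ^ 2 :=
    pow_le_pow_left₀ h4 h3 2
  have h6 : (‖∑ j ∈ range M, (ee u) ^ j‖ * (4 * |u|)) ^ 2
      = 4 * (‖∑ j ∈ range M, (ee u) ^ j‖ ^ 2 * (4 * u ^ 2)) := by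
    rw [mul_pow, mul_pow, sq_abs]
    ring
  rw [h6] at h5
  linarith

/-- the geometric sums over `K` consecutive integers from `a` on -/
noncomputable def G (M h K : ℕ) (a : ℤ) : ℂ :=
  ∑ i ∈ range K, ee (-((h : ℝ) * (((a : ℝ) + (i : ℝ)) / (M : ℝ))))

lemma G_eq (M h K : ℕ) (a : ℤ) :
    G M h K a = ee (-((h : ℝ) * ((a : ℝ) / (M : ℝ)))) *
      ∑ i ∈ range K, (ee (-((h : ℝ) / (M : ℝ)))) ^ i := by
  unfold G
  rw [Finset.mul_sum]
  refine Finset.sum_congr rfl fun i _ => ?_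
  rw [ee_pow, ← ee_add]
  congr 1
  ring

lemma G_norm (M h K : ℕ) (a : ℤ) (h1 : 1 ≤ h) (h2 : h < M) :
    2 * ((h : ℝ) * ((M : ℝ) - (h : ℝ))) * ‖G M h K a‖ ≤ (M : ℝ) ^ 2 := by
  have hM : (0 : ℝ) < M := by exact_mod_cast (show 0 < M by omega)
  have hh : (1 : ℝ) ≤ h := by exact_mod_cast h1
  have hhM : (h : ℝ) < M := by exact_mod_cast h2
  have hG : ‖G M h K a‖ = ‖∑ i ∈ range K, (ee (-((h : ℝ) / (M : ℝ)))) ^ i‖ := by
    rw [G_eq, norm_mul, norm_ee, one_mul]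
  have h3 := P_mul (-((h : ℝ) / (M : ℝ))) K
  rw [← hG] at h3
  have hG0 : 0 ≤ ‖G M h K a‖ := norm_nonneg _
  rcases le_total (2 * (h : ℝ)) M with hc | hc
  · have h4 : |(-((h : ℝ) / (M : ℝ)))| ≤ 1 / 2 := by
      rw [abs_neg, abs_of_nonneg (by positivity), div_le_iff₀ hM]
      linarith
    have h5 := le_norm_ee_sub_one h4
    rw [abs_neg, abs_of_nonneg (by positivity : (0 : ℝ) ≤ (h : ℝ) / M)] at h5
    have h6 : ‖G M h K a‖ * (4 * ((h : ℝ) / M)) ≤ 2 :=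
      (mul_le_mul_of_nonneg_left h5 hG0).trans h3
    have h7 : ‖G M h K a‖ * (2 * h) ≤ M := by
      have h8 : ‖G M h K a‖ * (4 * ((h : ℝ) / M)) = ‖G M h K a‖ * (2 * h) * (2 / M) := by
        field_simp
        ring
      rw [h8, mul_div_assoc', div_le_iff₀ hM] at h6
      linarith
    nlinarith
  · have h4 : |(((M : ℝ) - h) / (M : ℝ))| ≤ 1 / 2 := by
      rw [abs_of_nonneg (div_nonneg (by linarith) hM.le), div_le_iff₀ hM]
      linarith
    have h5 := le_norm_ee_sub_one h4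
    have h9 : ee (-((h : ℝ) / (M : ℝ))) = ee (((M : ℝ) - h) / (M : ℝ)) := by
      have h10 : ((M : ℝ) - h) / (M : ℝ) = -((h : ℝ) / (M : ℝ)) + ((1 : ℤ) : ℝ) := by
        push_cast
        field_simp
        ring
      rw [h10, ee_add_int]
    rw [h9] at h3
    rw [abs_of_nonneg (div_nonneg (by linarith) hM.le)] at h5
    have h6 : ‖G M h K a‖ * (4 * (((M : ℝ) - h) / M)) ≤ 2 :=
      (mul_le_mul_of_nonneg_left h5 hG0).trans h3
    have h7 : ‖G M h K a‖ * (2 * ((M : ℝ) - h)) ≤ M := by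
      have h8 : ‖G M h K a‖ * (4 * (((M : ℝ) - h) / M))
          = ‖G M h K a‖ * (2 * ((M : ℝ) - h)) * (2 / M) := by
        field_simp
        ring
      rw [h8, mul_div_assoc', div_le_iff₀ hM] at h6
      linarith
    nlinarith

lemma G_zero (M h : ℕ) (a : ℤ) (h1 : 1 ≤ h) (h2 : h < M) : G M h M a = 0 := by
  have hM : (0 : ℝ) < M := by exact_mod_cast (show 0 < M by omega)
  have hh : (1 : ℝ) ≤ h := by exact_mod_cast h1
  have hhM : (h : ℝ) < M := by exact_mod_cast h2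
  rw [G_eq]
  have h3 : (∑ i ∈ range M, (ee (-((h : ℝ) / (M : ℝ)))) ^ i) * (ee (-((h : ℝ) / (M : ℝ))) - 1)
      = 0 := by
    rw [geom_sum_mul, ee_pow]
    have h4 : (M : ℝ) * (-((h : ℝ) / (M : ℝ))) = ((-(h : ℤ) : ℤ) : ℝ) := by
      push_cast
      field_simp
    rw [h4, ee_intCast, sub_self]
  have h5 : ee (-((h : ℝ) / (M : ℝ))) - 1 ≠ 0 := by
    intro h6
    rcases le_total (2 * (h : ℝ)) M with hc | hc
    · have h4 : |(-((h : ℝ) / (M : ℝ)))| ≤ 1 / 2 := by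
        rw [abs_neg, abs_of_nonneg (by positivity), div_le_iff₀ hM]
        linarith
      have h5 := le_norm_ee_sub_one h4
      rw [h6, norm_zero, abs_neg, abs_of_nonneg (by positivity : (0 : ℝ) ≤ (h : ℝ) / M)] at h5
      have : 0 < (h : ℝ) / M := by positivity
      linarith
    · have h4 : |(((M : ℝ) - h) / (M : ℝ))| ≤ 1 / 2 := by
        rw [abs_of_nonneg (div_nonneg (by linarith) hM.le), div_le_iff₀ hM]
        linarith
      have h5 := le_norm_ee_sub_one h4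
      have h9 : ee (-((h : ℝ) / (M : ℝ))) = ee (((M : ℝ) - h) / (M : ℝ)) := by
        have h10 : ((M : ℝ) - h) / (M : ℝ) = -((h : ℝ) / (M : ℝ)) + ((1 : ℤ) : ℝ) := by
          push_cast
          field_simp
          ring
        rw [h10, ee_add_int]
      rw [h9] at h6
      rw [h6, norm_zero, abs_of_nonneg (div_nonneg (by linarith) hM.le)] at h5
      have : 0 < ((M : ℝ) - h) / M := div_pos (by linarith) hM
      linarith
  rw [(mul_eq_zero.1 h3).resolve_right h5, mul_zero]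

/-- the kernel `M F(t - l / M)` -/
noncomputable def g (M : ℕ) (t : ℝ) (l : ℤ) : ℝ :=
  ‖∑ j ∈ range M, (ee (t - (l : ℝ) / (M : ℝ))) ^ j‖ ^ 2

lemma g_nonneg (M : ℕ) (t : ℝ) (l : ℤ) : 0 ≤ g M t l := by unfold g; positivity

lemma sum_g (M K : ℕ) (t : ℝ) (a : ℤ) :
    ∑ i ∈ range K, g M t (a + (i : ℤ)) = (K : ℝ) * (M : ℝ)
      + 2 * ∑ h ∈ Ico 1 M, ((M : ℝ) - (h : ℝ)) * (ee ((h : ℝ) * t) * G M h K a).re := by
  have h1 : ∀ i ∈ range K, g M t (a + (i : ℤ)) = (M : ℝ) + 2 * ∑ h ∈ Ico 1 M,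
      ((M : ℝ) - (h : ℝ)) * (ee ((h : ℝ) * t) *
        ee (-((h : ℝ) * (((a : ℝ) + (i : ℝ)) / (M : ℝ))))).re := by
    intro i _
    unfold g
    rw [sq_norm _ (norm_ee _)]
    congr 2
    refine Finset.sum_congr rfl fun h _ => ?_
    rw [ee_pow, ← ee_add]
    congr 3
    push_cast
    ring
  rw [Finset.sum_congr rfl h1, Finset.sum_add_distrib, Finset.sum_const, card_range, nsmul_eq_mul,
    ← Finset.mul_sum, Finset.sum_comm]
  congr 2
  refine Finset.sum_congr rfl fun h _ => ?_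
  rw [← Finset.mul_sum]
  congr 1
  unfold G
  rw [Finset.mul_sum, Complex.re_sum]

lemma sum_g_full (M : ℕ) (t : ℝ) (a : ℤ) :
    ∑ i ∈ range M, g M t (a + (i : ℤ)) = (M : ℝ) ^ 2 := by
  rw [sum_g]
  have h1 : ∑ h ∈ Ico 1 M, ((M : ℝ) - (h : ℝ)) * (ee ((h : ℝ) * t) * G M h M a).re = 0 := by
    refine Finset.sum_eq_zero fun h hh => ?_
    rw [Finset.mem_Ico] at hh
    rw [G_zero M h a hh.1 hh.2, mul_zero, Complex.zero_re, mul_zero]
  rw [h1]
  ring

lemma tele (y : ℝ) (hy : 1 / 2 < y) (K : ℕ) :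
    ∑ i ∈ range K, 1 / (y + (i : ℝ)) ^ 2 ≤ 1 / (y - 1 / 2) - 1 / (y + (K : ℝ) - 1 / 2) := by
  induction K with
  | zero => simp
  | succ K ih =>
    rw [Finset.sum_range_succ]
    have hK : (0 : ℝ) ≤ K := Nat.cast_nonneg K
    have h1 : 1 / (y + (K : ℝ)) ^ 2
        ≤ 1 / (y + (K : ℝ) - 1 / 2) - 1 / (y + ((K + 1 : ℕ) : ℝ) - 1 / 2) := by
      push_cast
      have h2 : 1 / (y + (K : ℝ) - 1 / 2) - 1 / (y + ((K : ℝ) + 1) - 1 / 2)
          = 1 / ((y + (K : ℝ)) ^ 2 - 1 / 4) := by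
        have h3 : y + (K : ℝ) - 1 / 2 ≠ 0 := by linarith
        have h4 : y + ((K : ℝ) + 1) - 1 / 2 ≠ 0 := by linarith
        have h5 : (y + (K : ℝ)) ^ 2 - 1 / 4 ≠ 0 := by nlinarith
        rw [div_sub_div _ _ h3 h4, div_eq_div_iff (mul_ne_zero h3 h4) h5]
        ring
      rw [h2]
      refine one_div_le_one_div_of_le (by nlinarith) (by linarith)
    linarith

lemma tele' (y R : ℝ) (hR : 1 ≤ R) (hy : R ≤ y) (K : ℕ) :
    ∑ i ∈ range K, 1 / (y + (i : ℝ)) ^ 2 ≤ 2 / R := by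
  have h1 := tele y (by linarith) K
  have hK : (0 : ℝ) ≤ K := Nat.cast_nonneg K
  have h2 : 0 ≤ 1 / (y + (K : ℝ) - 1 / 2) := by
    apply one_div_nonneg.2
    linarith
  have h3 : 1 / (y - 1 / 2) ≤ 2 / R := by
    rw [div_le_div_iff₀ (by linarith) (by linarith)]
    linarith
  linarith

/-- `K` consecutive integers -/
def blk (a : ℤ) (K : ℕ) : Finset ℤ := (range K).image fun i : ℕ => a + (i : ℤ)

lemma mem_blk {a l : ℤ} {K : ℕ} : l ∈ blk a K ↔ a ≤ l ∧ l < a + K := by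
  unfold blk
  rw [Finset.mem_image]
  constructor
  · rintro ⟨i, hi, rfl⟩
    have := Finset.mem_range.1 hi
    omega
  · rintro ⟨h1, h2⟩
    exact ⟨(l - a).toNat, Finset.mem_range.2 (by omega), by omega⟩

lemma sum_blk (a : ℤ) (K : ℕ) (φ : ℤ → ℝ) :
    ∑ l ∈ blk a K, φ l = ∑ i ∈ range K, φ (a + (i : ℤ)) := by
  unfold blk
  rw [Finset.sum_image]
  intro i _ j _ hij
  have : a + (i : ℤ) = a + (j : ℤ) := hij
  omega

/-- `K` consecutive integers, downwards -/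
def blk' (a : ℤ) (K : ℕ) : Finset ℤ := (range K).image fun i : ℕ => a - (i : ℤ)

lemma mem_blk' {a l : ℤ} {K : ℕ} (h1 : l ≤ a) (h2 : a < l + K) : l ∈ blk' a K := by
  unfold blk'
  rw [Finset.mem_image]
  exact ⟨(a - l).toNat, Finset.mem_range.2 (by omega), by omega⟩

lemma sum_blk' (a : ℤ) (K : ℕ) (φ : ℤ → ℝ) :
    ∑ l ∈ blk' a K, φ l = ∑ i ∈ range K, φ (a - (i : ℤ)) := by
  unfold blk'
  rw [Finset.sum_image]
  intro i _ j _ hij
  have : a - (i : ℤ) = a - (j : ℤ) := hij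
  omega

/-- the terms far from `M t` -/
lemma far (M : ℕ) (hM : 1 ≤ M) (t R : ℝ) (hR : 1 ≤ R) (S : Finset ℤ)
    (hS : ∀ l ∈ S, |(M : ℝ) * t - l| ≤ M / 2)
    (hS2 : ∀ l ∈ S, (l : ℝ) < M * t - R ∨ (M : ℝ) * t + R < l) :
    ∑ l ∈ S, g M t l ≤ (M : ℝ) ^ 2 / R := by
  have hM0 : (0 : ℝ) < M := by exact_mod_cast hM
  set φ : ℤ → ℝ := fun l => (M : ℝ) ^ 2 / 4 * (1 / ((M : ℝ) * t - l) ^ 2) with hφ
  have hφ0 : ∀ l, 0 ≤ φ l := fun l => by rw [hφ]; positivity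
  have h1 : ∀ l ∈ S, g M t l ≤ φ l := by
    intro l hl
    have h2 : (M : ℝ) * t - l ≠ 0 := by
      rcases hS2 l hl with h | h
      · linarith
      · linarith
    have h3 : |t - (l : ℝ) / (M : ℝ)| ≤ 1 / 2 := by
      have h4 : t - (l : ℝ) / (M : ℝ) = ((M : ℝ) * t - l) / M := by
        field_simp
      rw [h4, abs_div, abs_of_pos hM0, div_le_iff₀ hM0]
      have := hS l hl
      linarith
    have h5 := P_le _ h3 M
    have h6 : (0 : ℝ) < ((M : ℝ) * t - l) ^ 2 := by positivity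
    have h7 : 4 * (t - (l : ℝ) / (M : ℝ)) ^ 2 = 4 * ((M : ℝ) * t - l) ^ 2 / M ^ 2 := by
      field_simp
    rw [h7, mul_div_assoc', div_le_one (by positivity)] at h5
    rw [hφ]
    simp only
    unfold g
    rw [← mul_div_assoc, mul_one, le_div_iff₀ h6]
    linarith
  refine (Finset.sum_le_sum h1).trans ?_
  set a : ℤ := ⌈(M : ℝ) * t - R⌉ - 1 with ha
  set c : ℤ := ⌊(M : ℝ) * t + R⌋ + 1 with hc
  have ha1 : (a : ℝ) < (M : ℝ) * t - R := by
    have := Int.ceil_lt_add_one ((M : ℝ) * t - R)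
    rw [ha]
    push_cast
    linarith
  have hc1 : (M : ℝ) * t + R < (c : ℝ) := by
    have := Int.lt_floor_add_one ((M : ℝ) * t + R)
    rw [hc]
    push_cast
    linarith
  have hsub : S ⊆ blk' a M ∪ blk c M := by
    intro l hl
    rw [Finset.mem_union]
    have h9 := abs_le.1 (hS l hl)
    rcases hS2 l hl with h | h
    · left
      apply mem_blk'
      · have h8 : l < ⌈(M : ℝ) * t - R⌉ := Int.lt_ceil.2 h
        omega
      · have h10 : (a : ℝ) < ((l + M : ℤ) : ℝ) := by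
          push_cast
          linarith [h9.2]
        exact_mod_cast h10
    · right
      rw [mem_blk]
      constructor
      · have h8 : ⌊(M : ℝ) * t + R⌋ < l := Int.floor_lt.2 h
        omega
      · have h10 : (l : ℝ) < ((c + M : ℤ) : ℝ) := by
          push_cast
          linarith [h9.1]
        exact_mod_cast h10
  have h2 : ∑ l ∈ S, φ l ≤ ∑ l ∈ blk' a M, φ l + ∑ l ∈ blk c M, φ l := by
    rw [← Finset.sum_union_inter]
    have h3 : ∑ l ∈ S, φ l ≤ ∑ l ∈ blk' a M ∪ blk c M, φ l :=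
      Finset.sum_le_sum_of_subset_of_nonneg hsub fun l _ _ => hφ0 l
    have h4 : 0 ≤ ∑ l ∈ blk' a M ∩ blk c M, φ l := Finset.sum_nonneg fun l _ => hφ0 l
    linarith
  refine h2.trans ?_
  rw [sum_blk', sum_blk]
  have h3 : ∑ i ∈ range M, φ (a - (i : ℤ)) ≤ (M : ℝ) ^ 2 / 4 * (2 / R) := by
    rw [hφ]
    simp only
    rw [← Finset.mul_sum]
    refine mul_le_mul_of_nonneg_left ?_ (by positivity)
    have h4 := tele' ((M : ℝ) * t - a) R hR (by linarith) M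
    refine le_trans (le_of_eq ?_) h4
    refine Finset.sum_congr rfl fun i _ => ?_
    push_cast
    congr 2
    ring
  have h4 : ∑ i ∈ range M, φ (c + (i : ℤ)) ≤ (M : ℝ) ^ 2 / 4 * (2 / R) := by
    rw [hφ]
    simp only
    rw [← Finset.mul_sum]
    refine mul_le_mul_of_nonneg_left ?_ (by positivity)
    have h4 := tele' ((c : ℝ) - (M : ℝ) * t) R hR (by linarith) M
    refine le_trans (le_of_eq ?_) h4
    refine Finset.sum_congr rfl fun i _ => ?_
    push_cast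
    congr 1
    ring
  have h5 : (M : ℝ) ^ 2 / 4 * (2 / R) + (M : ℝ) ^ 2 / 4 * (2 / R) = (M : ℝ) ^ 2 / R := by
    field_simp
    ring
  linarith

/-- the lower bound on the arc -/
lemma lower (M : ℕ) (hM : 1 ≤ M) (t α ℓ R : ℝ) (hR : 1 ≤ R) (h1 : α ≤ t) (h2 : t < α + ℓ)
    (a : ℤ) (K : ℕ) (ha : (a : ℝ) < (M : ℝ) * α - R + 1)
    (hK : (M : ℝ) * (α + ℓ) + R < (a : ℝ) + K) :
    (M : ℝ) ^ 2 - (M : ℝ) ^ 2 / R ≤ ∑ i ∈ range K, g M t (a + (i : ℤ)) := by
  classical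
  have hM0 : (0 : ℝ) < M := by exact_mod_cast hM
  set w : ℤ := ⌈(M : ℝ) * t - M / 2⌉ with hw
  have hw1 : (M : ℝ) * t - M / 2 ≤ w := Int.le_ceil _
  have hw2 : (w : ℝ) < (M : ℝ) * t - M / 2 + 1 := Int.ceil_lt_add_one _
  have h3 := sum_g_full M t w
  rw [← sum_blk w M (g M t)] at h3
  rw [← sum_blk a K (g M t)]
  have h4 := Finset.sum_inter_add_sum_sdiff (blk w M) (blk a K) (g M t)
  have h5 : ∑ l ∈ blk w M ∩ blk a K, g M t l ≤ ∑ l ∈ blk a K, g M t l :=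
    Finset.sum_le_sum_of_subset_of_nonneg Finset.inter_subset_right fun l _ _ => g_nonneg M t l
  have h6 : ∑ l ∈ blk w M \ blk a K, g M t l ≤ (M : ℝ) ^ 2 / R := by
    apply far M hM t R hR
    · intro l hl
      rw [Finset.mem_sdiff, mem_blk] at hl
      have h7 : (w : ℝ) ≤ l := by exact_mod_cast hl.1.1
      have h8 : (l : ℝ) + 1 ≤ w + M := by exact_mod_cast hl.1.2
      rw [abs_le]
      constructor <;> linarith
    · intro l hl
      rw [Finset.mem_sdiff, mem_blk, mem_blk] at hl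
      by_cases hla : a ≤ l
      · right
        have h8 : a + (K : ℤ) ≤ l := by
          by_contra hcon
          exact hl.2 ⟨hla, by omega⟩
        have h9 : (a : ℝ) + K ≤ l := by exact_mod_cast h8
        nlinarith
      · left
        have h8 : (l : ℝ) + 1 ≤ a := by exact_mod_cast (show l + 1 ≤ a by omega)
        nlinarith
  linarith

end ARC

open ARC in
theorem specARC : SpecARC := by
  intro t N M α ℓ hN hM hℓ0 hℓ1
  classical
  have hM0 : (0 : ℝ) < M := by exact_mod_cast hM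
  have hM1 : (1 : ℝ) ≤ M := by exact_mod_cast hM
  have hN0 : (0 : ℝ) < N := by exact_mod_cast hN
  set R : ℝ := √(M : ℝ) with hRdef
  have hR1 : 1 ≤ R := by
    rw [hRdef]
    exact Real.one_le_sqrt.2 hM1
  have hRR : R * R = M := Real.mul_self_sqrt hM0.le
  have hR0 : 0 < R := by linarith
  set a : ℤ := ⌈(M : ℝ) * α - R⌉ with ha
  set j1 : ℤ := ⌊(M : ℝ) * (α + ℓ) + R⌋ + 1 with hj1
  have ha1 : (a : ℝ) < (M : ℝ) * α - R + 1 := Int.ceil_lt_add_one _
  have ha2 : (M : ℝ) * α - R ≤ a := Int.le_ceil _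
  have hj2 : (M : ℝ) * (α + ℓ) + R < j1 := by
    rw [hj1]
    push_cast
    exact Int.lt_floor_add_one _
  have hj3 : (j1 : ℝ) ≤ (M : ℝ) * (α + ℓ) + R + 1 := by
    rw [hj1]
    push_cast
    linarith [Int.floor_le ((M : ℝ) * (α + ℓ) + R)]
  have haj : a ≤ j1 := by
    have h1 : (a : ℝ) < (j1 : ℝ) + 1 := by nlinarith
    have h2 : (a : ℝ) < ((j1 + 1 : ℤ) : ℝ) := by push_cast; exact h1
    have h3 : a < j1 + 1 := by exact_mod_cast h2
    omega
  set K : ℕ := (j1 - a).toNat with hK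
  have hKc : ((K : ℕ) : ℝ) = j1 - a := by
    have h1 : ((K : ℕ) : ℤ) = j1 - a := by
      rw [hK]
      exact Int.toNat_of_nonneg (by omega)
    exact_mod_cast h1
  set A : Finset ℕ := (range N).filter fun n => Int.fract (t n - α) < ℓ with hA
  set E : ℕ → ℝ := fun h => ‖∑ n ∈ range N, ee ((h : ℝ) * t n)‖ with hE
  have hlow : ∀ n ∈ A, (M : ℝ) ^ 2 - (M : ℝ) ^ 2 / R ≤ ∑ i ∈ range K, g M (t n) (a + (i : ℤ)) := by
    intro n hn
    have h1 : Int.fract (t n - α) < ℓ := (Finset.mem_filter.1 hn).2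
    have h2 : 0 ≤ Int.fract (t n - α) := Int.fract_nonneg _
    have h3 := lower M hM (α + Int.fract (t n - α)) α ℓ R hR1 (by linarith) (by linarith) a K ha1
      (by rw [hKc]; linarith)
    refine h3.trans (le_of_eq ?_)
    refine Finset.sum_congr rfl fun i _ => ?_
    unfold g
    congr 2
    refine Finset.sum_congr rfl fun j _ => ?_
    congr 1
    have h4 : t n - (((a + (i : ℤ) : ℤ) : ℝ)) / (M : ℝ)
        = (α + Int.fract (t n - α) - (((a + (i : ℤ) : ℤ) : ℝ)) / (M : ℝ))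
          + ((⌊t n - α⌋ : ℤ) : ℝ) := by
      rw [Int.fract]
      ring
    rw [h4, ee_add_int]
  have hsum1 : ((M : ℝ) ^ 2 - (M : ℝ) ^ 2 / R) * (A.card : ℝ)
      ≤ ∑ n ∈ range N, ∑ i ∈ range K, g M (t n) (a + (i : ℤ)) := by
    have h1 : ∑ n ∈ A, ((M : ℝ) ^ 2 - (M : ℝ) ^ 2 / R)
        ≤ ∑ n ∈ A, ∑ i ∈ range K, g M (t n) (a + (i : ℤ)) := Finset.sum_le_sum hlow
    rw [Finset.sum_const, nsmul_eq_mul, mul_comm] at h1
    refine h1.trans ?_
    refine Finset.sum_le_sum_of_subset_of_nonneg (Finset.filter_subset _ _) fun n _ _ => ?_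
    exact Finset.sum_nonneg fun i _ => g_nonneg M _ _
  have hsum2 : ∑ n ∈ range N, ∑ i ∈ range K, g M (t n) (a + (i : ℤ))
      ≤ (N : ℝ) * ((K : ℝ) * (M : ℝ)) + (M : ℝ) ^ 2 * ∑ h ∈ Ico 1 M, E h / (h : ℝ) := by
    have h1 : ∑ n ∈ range N, ∑ i ∈ range K, g M (t n) (a + (i : ℤ))
        = (N : ℝ) * ((K : ℝ) * (M : ℝ)) + 2 * ∑ h ∈ Ico 1 M, ((M : ℝ) - (h : ℝ)) *
          ((∑ n ∈ range N, ee ((h : ℝ) * t n)) * G M h K a).re := by
      rw [Finset.sum_congr rfl fun n _ => sum_g M K (t n) a, Finset.sum_add_distrib,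
        Finset.sum_const, card_range, nsmul_eq_mul, ← Finset.mul_sum, Finset.sum_comm]
      congr 2
      refine Finset.sum_congr rfl fun h _ => ?_
      rw [← Finset.mul_sum, Finset.sum_mul, Complex.re_sum]
    rw [h1, Finset.mul_sum, Finset.mul_sum]
    refine add_le_add le_rfl (Finset.sum_le_sum fun h hh => ?_)
    rw [Finset.mem_Ico] at hh
    have hh0 : (0 : ℝ) < h := by exact_mod_cast (show 0 < h by omega)
    have hhM : (h : ℝ) < M := by exact_mod_cast hh.2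
    have h2 : ((∑ n ∈ range N, ee ((h : ℝ) * t n)) * G M h K a).re ≤ E h * ‖G M h K a‖ := by
      refine (Complex.re_le_norm _).trans ?_
      rw [norm_mul]
    have h3 := G_norm M h K a hh.1 hh.2
    have hE0 : 0 ≤ E h := norm_nonneg _
    have h4 : ((M : ℝ) - h) * ((∑ n ∈ range N, ee ((h : ℝ) * t n)) * G M h K a).re
        ≤ ((M : ℝ) - h) * (E h * ‖G M h K a‖) :=
      mul_le_mul_of_nonneg_left h2 (by linarith)
    have h5 : (M : ℝ) ^ 2 * (E h / (h : ℝ)) = (M : ℝ) ^ 2 * E h / h := by ring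
    rw [h5, le_div_iff₀ hh0]
    calc 2 * (((M : ℝ) - h) * ((∑ n ∈ range N, ee ((h : ℝ) * t n)) * G M h K a).re) * h
        ≤ 2 * (((M : ℝ) - h) * (E h * ‖G M h K a‖)) * h :=
          mul_le_mul_of_nonneg_right (by linarith) hh0.le
      _ = (2 * ((h : ℝ) * ((M : ℝ) - (h : ℝ))) * ‖G M h K a‖) * E h := by ring
      _ ≤ (M : ℝ) ^ 2 * E h := mul_le_mul_of_nonneg_right h3 hE0
  set c : ℝ := (A.card : ℝ) / (N : ℝ) with hc
  set V : ℝ := ∑ h ∈ Ico 1 M, E h / ((h : ℝ) * (N : ℝ)) with hV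
  have hc1 : c ≤ 1 := by
    rw [hc, div_le_one hN0]
    have h1 : A.card ≤ N := by
      have := Finset.card_filter_le (range N) fun n => Int.fract (t n - α) < ℓ
      rwa [card_range] at this
    exact_mod_cast h1
  have hc0 : 0 ≤ c := by positivity
  have hV0 : 0 ≤ V := Finset.sum_nonneg fun h _ => by
    rw [hE]
    positivity
  have hcard : (A.card : ℝ) = c * N := by
    rw [hc]
    field_simp
  have hV1 : ∑ h ∈ Ico 1 M, E h / (h : ℝ) = V * N := by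
    rw [hV, Finset.sum_mul]
    refine Finset.sum_congr rfl fun h hh => ?_
    rw [Finset.mem_Ico] at hh
    have hh0 : (0 : ℝ) < h := by exact_mod_cast (show 0 < h by omega)
    field_simp
  have h1 := hsum1.trans hsum2
  rw [hcard, hV1] at h1
  -- divide by M ^ 2 N
  have h2 : (1 - 1 / R) * c ≤ (K : ℝ) / M + V := by
    have h3 : ((M : ℝ) ^ 2 - (M : ℝ) ^ 2 / R) * (c * N)
        = ((M : ℝ) ^ 2 * N) * ((1 - 1 / R) * c) := by
      field_simp
    have h4 : (N : ℝ) * ((K : ℝ) * (M : ℝ)) + (M : ℝ) ^ 2 * (V * N)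
        = ((M : ℝ) ^ 2 * N) * ((K : ℝ) / M + V) := by
      field_simp
    rw [h3, h4] at h1
    exact le_of_mul_le_mul_left h1 (by positivity)
  have h3 : (K : ℝ) / M ≤ ℓ + 2 / R + 2 / M := by
    rw [div_le_iff₀ hM0, hKc]
    have h4 : (ℓ + 2 / R + 2 / (M : ℝ)) * M = ℓ * M + 2 / R * (R * R) + 2 := by
      rw [hRR]
      field_simp
    have h5 : 2 / R * (R * R) = 2 * R := by field_simp
    rw [h4, h5]
    nlinarith
  have h4 : 2 / (M : ℝ) ≤ 2 / R := by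
    rw [← hRR]
    refine div_le_div_of_nonneg_left (by norm_num) hR0 ?_
    nlinarith
  have h5 : (1 - 1 / R) * c = c - c * (1 / R) := by ring
  have h6 : c * (1 / R) ≤ 1 / R := by
    have : 0 < 1 / R := by positivity
    nlinarith
  have h7 : 12 / R = 4 * (2 / R) + 4 * (1 / R) := by ring
  have h8 : 0 < 1 / R := by positivity
  have h9 : (2 : ℝ) / R = 2 * (1 / R) := by ring
  have h10 : 2 * ∑ h ∈ Ico 1 M, ‖∑ n ∈ range N, ee ((h : ℝ) * t n)‖ / ((h : ℝ) * (N : ℝ))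
      = 2 * V := rfl
  rw [h10]
  rw [h5] at h2
  linarith

end Pool.Agent.Lib.MP_5b6025_nt.FE
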