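import Pool.Agent.Lib.MP_5b6025_nt.FE.Spec

/-!
# BAD: proportion of bad translates at one level
-/

set_option autoImplicit false

open Finset

namespace Pool.Agent.Lib.MP_5b6025_nt.FE

namespace BAD

lemma one_add_log_sq {M : ℝ} (hM : 1 ≤ M) : (1 + Real.log M) ^ 2 ≤ 16 * √M := by
  have h0 : 0 < M := by linarith
  set s := √(√M) with hs
  have hs1 : 1 ≤ s := by
    rw [hs, Real.one_le_sqrt, Real.one_le_sqrt]
    exact hM
  have hs2 : s ^ 2 = √M := Real.sq_sqrt (Real.sqrt_nonneg _)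
  have hs4 : s ^ 4 = M := by
    have : s ^ 4 = (s ^ 2) ^ 2 := by ring
    rw [this, hs2]
    exact Real.sq_sqrt h0.le
  have h1 : Real.log M = 4 * Real.log s := by
    rw [← hs4, Real.log_pow]
    norm_num
  have h2 := Real.log_le_sub_one_of_pos (show 0 < s by linarith)
  have h3 := Real.log_nonneg hs1
  have h4 : 1 + Real.log M ≤ 4 * s := by
    rw [h1]
    linarith
  have h5 : 0 ≤ 1 + Real.log M := by
    rw [h1]
    linarith
  calc (1 + Real.log M) ^ 2 ≤ (4 * s) ^ 2 := pow_le_pow_left₀ h5 h4 2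
    _ = 16 * √M := by rw [← hs2]; ring

end BAD

open BAD in
open scoped Classical in
/-- **BAD**. -/
theorem specBAD (hWRD : SpecWRD) (hDEF : SpecDEF) : SpecBAD := by
  intro p b N x τ hp hpb hb hN hτ hτ1 hpτ
  set M : ℕ := ⌈576 / τ ^ 2⌉₊ with hM
  have hτ2 : 0 < τ ^ 2 := by positivity
  have hle : 576 / τ ^ 2 ≤ (M : ℝ) := Nat.le_ceil _
  have hone : 1 ≤ 1 / τ ^ 2 := by
    rw [le_div_iff₀ hτ2, one_mul]
    nlinarith
  have hlt : (M : ℝ) ≤ 577 / τ ^ 2 := by
    have h1 : (M : ℝ) < 576 / τ ^ 2 + 1 := Nat.ceil_lt_add_one (by positivity)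
    have h2 : 577 / τ ^ 2 = 576 / τ ^ 2 + 1 / τ ^ 2 := by ring
    linarith
  have hM576 : (576 : ℝ) ≤ M := by
    have h2 : 576 / τ ^ 2 = 576 * (1 / τ ^ 2) := by ring
    nlinarith
  have hM1 : 1 ≤ M := by
    have : (1 : ℝ) ≤ M := by linarith
    exact_mod_cast this
  have hMp : M ≤ p := by exact_mod_cast hlt.trans hpτ
  have hMR : (1 : ℝ) ≤ M := by linarith
  -- `12 / √M ≤ τ / 2`
  have hsq : 24 / τ ≤ √(M : ℝ) := by
    apply Real.le_sqrt_of_sq_le
    rw [div_pow]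
    norm_num
    exact hle
  have hsq0 : 0 < √(M : ℝ) := Real.sqrt_pos.2 (by linarith)
  have h12 : 12 / √(M : ℝ) ≤ τ / 2 := by
    rw [div_le_iff₀ hsq0]
    have h1 : τ / 2 * (24 / τ) ≤ τ / 2 * √(M : ℝ) := mul_le_mul_of_nonneg_left hsq (by linarith)
    have h2 : τ / 2 * (24 / τ) = 12 := by
      field_simp
      norm_num
    linarith
  have hsqu : √(M : ℝ) ≤ 25 / τ := by
    rw [Real.sqrt_le_left (by positivity)]
    calc (M : ℝ) ≤ 577 / τ ^ 2 := hlt
      _ ≤ 625 / τ ^ 2 := by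
          apply div_le_div_of_nonneg_right (by norm_num) hτ2.le
      _ = (25 / τ) ^ 2 := by rw [div_pow]; norm_num
  -- bad translates have large defect
  have hdef : ∀ y : ℝ, ¬ Balanced b τ N y → τ / 4 < defect b M N y := by
    intro y hy
    by_contra hcon
    push Not at hcon
    apply hy
    intro k w hw
    refine (hWRD b M N y hb hM1 hN k w hw).trans ?_
    linarith
  set B := (range p).filter fun r : ℕ => ¬ Balanced b τ N (x + (r : ℝ) / (p : ℝ)) with hB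
  have h1 : (B.card : ℝ) * (τ / 4) ^ 2 ≤
      ∑ r ∈ range p, defect b M N (x + (r : ℝ) / (p : ℝ)) ^ 2 := by
    calc (B.card : ℝ) * (τ / 4) ^ 2 = ∑ _r ∈ B, (τ / 4) ^ 2 := by
          rw [sum_const, nsmul_eq_mul]
      _ ≤ ∑ r ∈ B, defect b M N (x + (r : ℝ) / (p : ℝ)) ^ 2 := by
          refine sum_le_sum fun r hr => ?_
          exact pow_le_pow_left₀ (by positivity) (hdef _ (mem_filter.1 hr).2).le 2
      _ ≤ _ := sum_le_sum_of_subset_of_nonneg (filter_subset _ _) fun r _ _ => sq_nonneg _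
  have h2 := h1.trans (hDEF p b M N x hp hpb hMp hN)
  set R : ℝ := 1 / (orderOf (b : ZMod p) : ℝ) + 1 / (N : ℝ) with hR
  have hR0 : 0 ≤ R := by positivity
  have h3 : (p : ℝ) * (1 + Real.log M) ^ 2 * R ≤ (p : ℝ) * (400 / τ) * R := by
    refine mul_le_mul_of_nonneg_right (mul_le_mul_of_nonneg_left ?_ (Nat.cast_nonneg _)) hR0
    calc (1 + Real.log M) ^ 2 ≤ 16 * √(M : ℝ) := one_add_log_sq hMR
      _ ≤ 16 * (25 / τ) := by linarith
      _ = 400 / τ := by ring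
  have h4 := h2.trans h3
  have h5 : (B.card : ℝ) = (B.card : ℝ) * (τ / 4) ^ 2 * (16 / τ ^ 2) := by
    field_simp
    norm_num
  calc (B.card : ℝ) = (B.card : ℝ) * (τ / 4) ^ 2 * (16 / τ ^ 2) := h5
    _ ≤ (p : ℝ) * (400 / τ) * R * (16 / τ ^ 2) := mul_le_mul_of_nonneg_right h4 (by positivity)
    _ = 6400 * (p : ℝ) / τ ^ 3 * R := by
        field_simp
        ring

end Pool.Agent.Lib.MP_5b6025_nt.FE
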