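import Pool.Agent.Lib.MP_5b6025_nt.FE.Spec

/-!
Covering `-H ≤ a ≤ H` by blocks of `s` consecutive integers (module BLK).
-/

set_option autoImplicit false

open Finset

namespace Pool.Agent.Lib.MP_5b6025_nt.FE

open scoped Classical in
theorem specBLK : SpecBLK := by
  intro P ε s H hε hs hsH hP y
  have hs0 : (0 : ℝ) < (s : ℝ) := by exact_mod_cast hs
  set K : ℕ := (2 * H + 1) / s + 1 with hK
  set B : ℕ → Finset ℕ := fun i => (range s).filter fun r : ℕ =>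
    ¬ P ((y + (-(H : ℝ) + (i : ℝ) * (s : ℝ))) / (s : ℝ) + (r : ℝ) / (s : ℝ)) with hB
  have hsub : ((Icc (-(H : ℤ)) (H : ℤ)).filter fun a : ℤ => ¬ P ((y + (a : ℝ)) / (s : ℝ)))
      ⊆ (range K).biUnion fun i => (B i).image fun r : ℕ => (-(H : ℤ) + (i : ℤ) * (s : ℤ) + (r : ℤ)) := by
    intro a ha
    rw [mem_filter, mem_Icc] at ha
    obtain ⟨⟨ha1, ha2⟩, ha3⟩ := ha
    obtain ⟨m, hm⟩ : ∃ m : ℕ, a + H = (m : ℤ) := ⟨(a + H).toNat, by omega⟩
    have hm2 : m ≤ 2 * H := by omega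
    have hdm : s * (m / s) + m % s = m := Nat.div_add_mod m s
    have haeq : a = -(H : ℤ) + ((m / s : ℕ) : ℤ) * (s : ℤ) + ((m % s : ℕ) : ℤ) := by
      have h1 : ((s * (m / s) + m % s : ℕ) : ℤ) = (m : ℤ) := by rw [hdm]
      push_cast at h1 ⊢
      linarith
    rw [mem_biUnion]
    refine ⟨m / s, ?_, ?_⟩
    · rw [mem_range, hK]
      have : m / s ≤ (2 * H + 1) / s := Nat.div_le_div_right (by omega)
      omega
    · rw [mem_image]
      refine ⟨m % s, ?_, haeq.symm⟩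
      rw [hB, mem_filter, mem_range]
      refine ⟨Nat.mod_lt _ hs, ?_⟩
      have h2 : (y + (-(H : ℝ) + ((m / s : ℕ) : ℝ) * (s : ℝ))) / (s : ℝ) + ((m % s : ℕ) : ℝ) / (s : ℝ)
          = (y + (a : ℝ)) / (s : ℝ) := by
        have h3 : (a : ℝ) = -(H : ℝ) + ((m / s : ℕ) : ℝ) * (s : ℝ) + ((m % s : ℕ) : ℝ) := by
          have := congrArg (fun z : ℤ => (z : ℝ)) haeq
          push_cast at this
          exact this
        rw [← add_div, h3]
        congr 1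
        ring
      rw [h2]
      exact ha3
  have hcard : (((Icc (-(H : ℤ)) (H : ℤ)).filter fun a : ℤ => ¬ P ((y + (a : ℝ)) / (s : ℝ))).card)
      ≤ ∑ i ∈ range K, (B i).card := by
    calc _ ≤ ((range K).biUnion fun i => (B i).image fun r : ℕ =>
          (-(H : ℤ) + (i : ℤ) * (s : ℤ) + (r : ℤ))).card := card_le_card hsub
      _ ≤ ∑ i ∈ range K, ((B i).image fun r : ℕ => (-(H : ℤ) + (i : ℤ) * (s : ℤ) + (r : ℤ))).card :=
          card_biUnion_le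
      _ ≤ _ := sum_le_sum fun i _ => card_image_le
  have h1 : ((∑ i ∈ range K, (B i).card : ℕ) : ℝ) ≤ (K : ℝ) * (ε * (s : ℝ)) := by
    rw [Nat.cast_sum]
    calc ∑ i ∈ range K, ((B i).card : ℝ) ≤ ∑ i ∈ range K, ε * (s : ℝ) :=
          sum_le_sum fun i _ => hP _
      _ = _ := by rw [sum_const, card_range, nsmul_eq_mul]
  have h2 : (K : ℝ) * (s : ℝ) ≤ 2 * (2 * (H : ℝ) + 1) := by
    have h3 : ((2 * H + 1) / s) * s ≤ 2 * H + 1 := Nat.div_mul_le_self _ _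
    have h4 : K * s ≤ 2 * (2 * H + 1) := by
      rw [hK, add_mul, one_mul]
      omega
    exact_mod_cast h4
  calc (((Icc (-(H : ℤ)) (H : ℤ)).filter fun a : ℤ => ¬ P ((y + (a : ℝ)) / (s : ℝ))).card : ℝ)
      ≤ ((∑ i ∈ range K, (B i).card : ℕ) : ℝ) := by exact_mod_cast hcard
    _ ≤ (K : ℝ) * (ε * (s : ℝ)) := h1
    _ = ε * ((K : ℝ) * (s : ℝ)) := by ring
    _ ≤ ε * (2 * (2 * (H : ℝ) + 1)) := mul_le_mul_of_nonneg_left h2 hε
    _ = 2 * ε * (2 * (H : ℝ) + 1) := by ring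

end Pool.Agent.Lib.MP_5b6025_nt.FE
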