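import Pool.Agent.Lib.MP_5b6025_nt.FE.Spec

/-!
# COP: at least half of the pairs are coprime
-/

set_option autoImplicit false

open Finset

namespace Pool.Agent.Lib.MP_5b6025_nt.FE

namespace COP

/-- pairs with both entries divisible by `d` -/
lemma card_dvd (H d : ℕ) :
    (((Icc 1 H ×ˢ Icc 1 H).filter fun q : ℕ × ℕ => d ∣ q.1 ∧ d ∣ q.2).card : ℝ) ≤
      (H : ℝ) ^ 2 * (1 / (d : ℝ) ^ 2) := by
  have h1 : (Icc 1 H ×ˢ Icc 1 H).filter (fun q : ℕ × ℕ => d ∣ q.1 ∧ d ∣ q.2) =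
      ((Icc 1 H).filter fun a => d ∣ a) ×ˢ ((Icc 1 H).filter fun a => d ∣ a) := by
    ext q
    simp only [mem_filter, mem_product]
    tauto
  have h2 : ((Icc 1 H).filter fun a => d ∣ a).card = H / d := by
    have h3 : Icc 1 H = Ioc 0 H := by
      ext a
      simp only [mem_Icc, mem_Ioc]
      omega
    rw [h3]
    exact Nat.Ioc_filter_dvd_card_eq_div H d
  rw [h1, card_product, h2]
  push_cast
  have h4 : ((H / d : ℕ) : ℝ) ≤ (H : ℝ) / d := Nat.cast_div_le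
  have h5 : (0 : ℝ) ≤ ((H / d : ℕ) : ℝ) := Nat.cast_nonneg _
  calc ((H / d : ℕ) : ℝ) * ((H / d : ℕ) : ℝ) ≤ ((H : ℝ) / d) * ((H : ℝ) / d) :=
        mul_le_mul h4 h4 h5 (h5.trans h4)
    _ = (H : ℝ) ^ 2 * (1 / (d : ℝ) ^ 2) := by ring

lemma sum_le (n : ℕ) : ∑ k ∈ range n, 1 / ((2 * k + 3 : ℕ) : ℝ) ^ 2 ≤
    1 / 4 - 1 / (2 * (2 * (n : ℝ) + 2)) := by
  induction n with
  | zero => norm_num
  | succ n ih =>
    rw [sum_range_succ]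
    refine (add_le_add_left ih _).trans ?_
    push_cast
    have h : (0 : ℝ) ≤ n := Nat.cast_nonneg n
    have h1 : 1 / (2 * (n : ℝ) + 3) ^ 2 ≤
        1 / (2 * (2 * (n : ℝ) + 2)) - 1 / (2 * (2 * ((n : ℝ) + 1) + 2)) := by
      have h2 : 1 / (2 * (2 * (n : ℝ) + 2)) - 1 / (2 * (2 * ((n : ℝ) + 1) + 2)) =
          1 / ((2 * n + 2) * (2 * n + 4)) := by
        field_simp
        ring
      rw [h2]
      apply one_div_le_one_div_of_le (by positivity)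
      nlinarith
    linarith

end COP

open COP in
/-- **COP**. -/
theorem specCOP : SpecCOP := by
  intro H
  have h0 : ((Icc 1 H ×ˢ Icc 1 H).filter fun q : ℕ × ℕ => Nat.Coprime q.1 q.2).card +
      ((Icc 1 H ×ˢ Icc 1 H).filter fun q : ℕ × ℕ => ¬ Nat.Coprime q.1 q.2).card = H ^ 2 := by
    rw [card_filter_add_card_filter_not, card_product, Nat.card_Icc, Nat.add_sub_cancel, sq]
  have h1 : ((Icc 1 H ×ˢ Icc 1 H).filter fun q : ℕ × ℕ => ¬ Nat.Coprime q.1 q.2) ⊆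
      ((Icc 1 H ×ˢ Icc 1 H).filter fun q : ℕ × ℕ => 2 ∣ q.1 ∧ 2 ∣ q.2) ∪
        (range H).biUnion (fun k => (Icc 1 H ×ˢ Icc 1 H).filter
          fun q : ℕ × ℕ => (2 * k + 3) ∣ q.1 ∧ (2 * k + 3) ∣ q.2) := by
    intro q hq
    rw [mem_filter, mem_product, mem_Icc, mem_Icc] at hq
    obtain ⟨⟨⟨hq1, hq2⟩, hq3, hq4⟩, hq5⟩ := hq
    obtain ⟨p, hp, hp1, hp2⟩ := Nat.Prime.not_coprime_iff_dvd.1 hq5
    rw [mem_union]
    rcases hp.eq_two_or_odd with rfl | hodd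
    · left
      rw [mem_filter, mem_product, mem_Icc, mem_Icc]
      exact ⟨⟨⟨hq1, hq2⟩, hq3, hq4⟩, hp1, hp2⟩
    · right
      have hp3 : 2 ≤ p := hp.two_le
      have hpH : p ≤ H := (Nat.le_of_dvd (by omega) hp1).trans hq2
      have hpe : 2 * ((p - 3) / 2) + 3 = p := by omega
      rw [mem_biUnion]
      refine ⟨(p - 3) / 2, mem_range.2 (by omega), ?_⟩
      rw [mem_filter, mem_product, mem_Icc, mem_Icc, hpe]
      exact ⟨⟨⟨hq1, hq2⟩, hq3, hq4⟩, hp1, hp2⟩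
  have h2 : (((Icc 1 H ×ˢ Icc 1 H).filter fun q : ℕ × ℕ => ¬ Nat.Coprime q.1 q.2).card : ℝ) ≤
      (H : ℝ) ^ 2 * (1 / ((2 : ℕ) : ℝ) ^ 2) +
        ∑ k ∈ range H, (H : ℝ) ^ 2 * (1 / ((2 * k + 3 : ℕ) : ℝ) ^ 2) := by
    have h3 : ((Icc 1 H ×ˢ Icc 1 H).filter fun q : ℕ × ℕ => ¬ Nat.Coprime q.1 q.2).card ≤
        ((Icc 1 H ×ˢ Icc 1 H).filter fun q : ℕ × ℕ => 2 ∣ q.1 ∧ 2 ∣ q.2).card +
          ∑ k ∈ range H, ((Icc 1 H ×ˢ Icc 1 H).filter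
            fun q : ℕ × ℕ => (2 * k + 3) ∣ q.1 ∧ (2 * k + 3) ∣ q.2).card :=
      (card_le_card h1).trans ((card_union_le _ _).trans (Nat.add_le_add_left card_biUnion_le _))
    have h4 : (((Icc 1 H ×ˢ Icc 1 H).filter fun q : ℕ × ℕ => ¬ Nat.Coprime q.1 q.2).card : ℝ) ≤
        (((Icc 1 H ×ˢ Icc 1 H).filter fun q : ℕ × ℕ => 2 ∣ q.1 ∧ 2 ∣ q.2).card : ℝ) +
          ∑ k ∈ range H, (((Icc 1 H ×ˢ Icc 1 H).filter
            fun q : ℕ × ℕ => (2 * k + 3) ∣ q.1 ∧ (2 * k + 3) ∣ q.2).card : ℝ) := by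
      exact_mod_cast h3
    exact h4.trans (add_le_add (card_dvd H 2) (sum_le_sum fun k _ => card_dvd H (2 * k + 3)))
  rw [← mul_sum] at h2
  have h3 := sum_le H
  have h4 : (0 : ℝ) ≤ 1 / (2 * (2 * (H : ℝ) + 2)) := by positivity
  have h5 : (H : ℝ) ^ 2 * ∑ k ∈ range H, 1 / ((2 * k + 3 : ℕ) : ℝ) ^ 2 ≤ (H : ℝ) ^ 2 * (1 / 4) :=
    mul_le_mul_of_nonneg_left (by linarith) (by positivity)
  have h6 : (((Icc 1 H ×ˢ Icc 1 H).filter fun q : ℕ × ℕ => Nat.Coprime q.1 q.2).card : ℝ) +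
      (((Icc 1 H ×ˢ Icc 1 H).filter fun q : ℕ × ℕ => ¬ Nat.Coprime q.1 q.2).card : ℝ) =
      (H : ℝ) ^ 2 := by exact_mod_cast h0
  have e2 : 1 / ((2 : ℕ) : ℝ) ^ 2 = 1 / 4 := by norm_num
  rw [e2] at h2
  linarith

end Pool.Agent.Lib.MP_5b6025_nt.FE
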