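import Pool.Agent.Lib.MP_5b6025_nt.FE.Spec

/-!
# DEF: second moment of the defect
-/

set_option autoImplicit false

open Finset

namespace Pool.Agent.Lib.MP_5b6025_nt.FE

namespace DEF

/-- the harmonic sum -/
theorem harm (M : ℕ) : ∑ h ∈ Ico 1 M, (1 : ℝ) / (h : ℝ) ≤ 1 + Real.log M := by
  rcases Nat.lt_or_ge M 2 with hM | hM
  · have h1 : Ico 1 M = ∅ := Finset.Ico_eq_empty (by omega)
    rw [h1, sum_empty]
    have h2 : 0 ≤ Real.log M := Real.log_natCast_nonneg M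
    linarith
  · have h1 : ((harmonic (M - 1) : ℚ) : ℝ) = ∑ h ∈ Ico 1 M, (1 : ℝ) / (h : ℝ) := by
      unfold harmonic
      rw [Finset.sum_Ico_eq_sum_range]
      push_cast
      refine sum_congr rfl fun i _ => ?_
      rw [one_div, add_comm]
    rw [← h1]
    refine (harmonic_le_one_add_log (M - 1)).trans ?_
    have h2 : Real.log ((M - 1 : ℕ) : ℝ) ≤ Real.log (M : ℝ) := by
      refine Real.log_le_log ?_ ?_
      · exact_mod_cast (show 0 < M - 1 by omega)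
      · exact_mod_cast (show M - 1 ≤ M by omega)
    linarith

end DEF

open DEF in
theorem specDEF (hMOM : SpecMOM) : SpecDEF := by
  intro p b M N x hp hb hM hN
  set T := orderOf (b : ZMod p) with hT
  have hN0 : (0 : ℝ) < (N : ℝ) := by exact_mod_cast hN
  set S : ℕ → ℕ → ℝ := fun r h =>
    ‖∑ n ∈ range N, ee ((h : ℝ) * ((x + (r : ℝ) / (p : ℝ)) * (b : ℝ) ^ n))‖ with hS
  set L : ℝ := ∑ h ∈ Ico 1 M, (1 : ℝ) / (h : ℝ) with hL
  have hL0 : 0 ≤ L := sum_nonneg fun h _ => by positivity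
  -- Cauchy-Schwarz
  have hcs : ∀ r : ℕ, defect b M N (x + (r : ℝ) / (p : ℝ)) ^ 2 ≤
      L * ∑ h ∈ Ico 1 M, S r h ^ 2 / ((h : ℝ) * (N : ℝ) ^ 2) := by
    intro r
    have h1 := sum_mul_sq_le_sq_mul_sq (Ico 1 M) (fun h : ℕ => 1 / √(h : ℝ))
      (fun h : ℕ => S r h / (√(h : ℝ) * (N : ℝ)))
    have h2 : ∑ h ∈ Ico 1 M, 1 / √(h : ℝ) * (S r h / (√(h : ℝ) * (N : ℝ))) =
        defect b M N (x + (r : ℝ) / (p : ℝ)) := by
      unfold defect
      refine sum_congr rfl fun h hh => ?_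
      have h3 : (0 : ℝ) < (h : ℝ) := by exact_mod_cast (mem_Ico.1 hh).1
      have h4 : √(h : ℝ) * √(h : ℝ) = (h : ℝ) := Real.mul_self_sqrt h3.le
      have h5 : √(h : ℝ) ≠ 0 := (Real.sqrt_pos.2 h3).ne'
      rw [div_mul_div_comm, one_mul, ← mul_assoc, h4]
    have h3 : ∑ h ∈ Ico 1 M, (1 / √(h : ℝ)) ^ 2 = L := by
      refine sum_congr rfl fun h hh => ?_
      have h3 : (0 : ℝ) < (h : ℝ) := by exact_mod_cast (mem_Ico.1 hh).1
      rw [div_pow, one_pow, Real.sq_sqrt h3.le]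
    have h4 : ∑ h ∈ Ico 1 M, (S r h / (√(h : ℝ) * (N : ℝ))) ^ 2 =
        ∑ h ∈ Ico 1 M, S r h ^ 2 / ((h : ℝ) * (N : ℝ) ^ 2) := by
      refine sum_congr rfl fun h hh => ?_
      have h3 : (0 : ℝ) < (h : ℝ) := by exact_mod_cast (mem_Ico.1 hh).1
      rw [div_pow, mul_pow, Real.sq_sqrt h3.le]
    rw [h2, h3, h4] at h1
    exact h1
  have hmom : ∀ h ∈ Ico 1 M, ∑ r ∈ range p, S r h ^ 2 ≤
      (p : ℝ) * (N : ℝ) * ((N : ℝ) / (T : ℝ) + 1) := by
    intro h hh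
    rw [mem_Ico] at hh
    exact hMOM p b h N x hp hb fun hd => absurd (Nat.le_of_dvd (by omega) hd) (by omega)
  have hK : 0 ≤ (p : ℝ) * (1 / (T : ℝ) + 1 / (N : ℝ)) := by positivity
  calc ∑ r ∈ range p, defect b M N (x + (r : ℝ) / (p : ℝ)) ^ 2
      ≤ ∑ r ∈ range p, L * ∑ h ∈ Ico 1 M, S r h ^ 2 / ((h : ℝ) * (N : ℝ) ^ 2) :=
        sum_le_sum fun r _ => hcs r
    _ = L * ∑ h ∈ Ico 1 M, (∑ r ∈ range p, S r h ^ 2) / ((h : ℝ) * (N : ℝ) ^ 2) := by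
        rw [← mul_sum, sum_comm]
        congr 1
        refine sum_congr rfl fun h _ => ?_
        rw [sum_div]
    _ ≤ L * ∑ h ∈ Ico 1 M, (1 / (h : ℝ)) * ((p : ℝ) * (1 / (T : ℝ) + 1 / (N : ℝ))) := by
        refine mul_le_mul_of_nonneg_left (sum_le_sum fun h hh => ?_) hL0
        have h3 : (0 : ℝ) < (h : ℝ) := by exact_mod_cast (mem_Ico.1 hh).1
        rw [div_le_iff₀ (by positivity)]
        refine (hmom h hh).trans (le_of_eq ?_)
        field_simp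
    _ = L * L * ((p : ℝ) * (1 / (T : ℝ) + 1 / (N : ℝ))) := by
        rw [← sum_mul, ← hL]
        ring
    _ ≤ (1 + Real.log M) * (1 + Real.log M) * ((p : ℝ) * (1 / (T : ℝ) + 1 / (N : ℝ))) := by
        refine mul_le_mul_of_nonneg_right ?_ hK
        exact mul_self_le_mul_self hL0 (harm M)
    _ = (p : ℝ) * (1 + Real.log M) ^ 2 * (1 / (T : ℝ) + 1 / (N : ℝ)) := by ring

end Pool.Agent.Lib.MP_5b6025_nt.FE
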