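import Pool.Agent.Lib.MP_5b6025_nt.FE.Spec

/-!
Almost all denominators are good (module DEN).
-/

set_option autoImplicit false

open Finset

namespace Pool.Agent.Lib.MP_5b6025_nt.FE

open scoped Classical in
theorem specDEN (hSMO : SpecSMO) (hSML : SpecSML) : SpecDEN := by
  intro ε hε
  obtain ⟨C, hC, hsmo⟩ := hSMO
  set e : ℝ := min ε 1 with he
  have he0 : 0 < e := lt_min hε one_pos
  have he1 : e ≤ 1 := min_le_right _ _
  have heε : e ≤ ε := min_le_left _ _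
  have hγ : 0 < e / 32 := by positivity
  refine ⟨e / 32, hγ, ?_⟩
  -- eventually large
  have hT : ∀ᶠ H : ℕ in Filter.atTop, 2 / e ≤ (H : ℝ) ^ (e / 32) :=
    ((tendsto_rpow_atTop hγ).comp tendsto_natCast_atTop_atTop).eventually_ge_atTop _
  have hL : ∀ᶠ H : ℕ in Filter.atTop, 4 * C / e ≤ Real.log (H : ℝ) :=
    (Real.tendsto_log_atTop.comp tendsto_natCast_atTop_atTop).eventually_ge_atTop _
  obtain ⟨H₀, hH₀⟩ := Filter.eventually_atTop.mp ((hT.and hL).and (Filter.eventually_ge_atTop 1))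
  refine ⟨H₀, fun H hH => ?_⟩
  obtain ⟨⟨hT', hL'⟩, hH1⟩ := hH₀ H hH
  set T : ℝ := (H : ℝ) ^ (e / 32) with hTdef
  set G : ℝ := (H : ℝ) ^ (e / 32 / 8) with hGdef
  have hHr : (1 : ℝ) ≤ (H : ℝ) := by exact_mod_cast hH1
  have hH0 : (0 : ℝ) < (H : ℝ) := by linarith
  have hT2 : 2 ≤ T := by
    have h1 : 2 ≤ 2 / e := by
      rw [le_div_iff₀ he0]
      nlinarith
    linarith
  have hT0 : 0 < T := by linarith
  have hG0 : 0 ≤ G := Real.rpow_nonneg hH0.le _
  have hGT : G ≤ T := Real.rpow_le_rpow_of_exponent_le hHr (by linarith)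
  have hTy : T ≤ T ^ 8 := by
    calc T = T ^ 1 := (pow_one T).symm
      _ ≤ T ^ 8 := pow_le_pow_right₀ (by linarith) (by norm_num)
  have hlogy : Real.log (T ^ 8) = e / 4 * Real.log H := by
    rw [Real.log_pow, hTdef, Real.log_rpow hH0]
    push_cast
    ring
  have hlog0 : 0 < Real.log H := lt_of_lt_of_le (by positivity) hL'
  -- the smooth numbers
  have hA := hsmo H (T ^ 8) hH1 (by linarith)
  set A := (Icc 1 H).filter fun s : ℕ => ∀ p : ℕ, p.Prime → p ∣ s → (p : ℝ) ≤ T ^ 8 with hAdef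
  have hA' : (A.card : ℝ) ≤ e / 2 * H := by
    have h1 : C ≤ e / 4 * Real.log H := by
      rw [div_le_iff₀ he0] at hL'
      linarith
    have h2 : (A.card : ℝ) * Real.log H ≤ (e / 2 * H) * Real.log H := by
      calc (A.card : ℝ) * Real.log H ≤ (H : ℝ) * (Real.log (T ^ 8) + C) := hA
        _ ≤ (H : ℝ) * (e / 4 * Real.log H + e / 4 * Real.log H) := by
            rw [hlogy]
            exact mul_le_mul_of_nonneg_left (by linarith) hH0.le
        _ = _ := by ring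
    exact le_of_mul_le_mul_right h2 hlog0
  -- small orders
  have hB := hSML H (T ^ 8) G T (by linarith) hG0 (by linarith) hT0.le
  set B := (Icc 1 H).filter fun s : ℕ => ∃ p : ℕ, p.Prime ∧ p ∣ s ∧ T ^ 8 < (p : ℝ) ∧
      ∃ b : ℕ, 2 ≤ b ∧ (b : ℝ) ≤ G ∧ (orderOf (b : ZMod p) : ℝ) < T with hBdef
  have hB' : (B.card : ℝ) ≤ e / 2 * H := by
    have h1 : G ^ 2 * T ^ 2 * (H : ℝ) / T ^ 8 ≤ e / 2 * H := by
      rw [div_le_iff₀ (by positivity)]
      have h2 : G ^ 2 ≤ T ^ 2 := pow_le_pow_left₀ hG0 hGT 2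
      have h3 : 1 ≤ e / 2 * T := by
        rw [div_le_iff₀ he0] at hT'
        linarith
      have h4 : T ^ 4 ≤ e / 2 * T ^ 8 := by
        calc T ^ 4 = T ^ 4 * 1 := by ring
          _ ≤ T ^ 4 * (e / 2 * T) := mul_le_mul_of_nonneg_left h3 (by positivity)
          _ = e / 2 * T ^ 5 := by ring
          _ ≤ e / 2 * T ^ 8 := mul_le_mul_of_nonneg_left
              (pow_le_pow_right₀ (by linarith) (by norm_num)) (by positivity)
      calc G ^ 2 * T ^ 2 * (H : ℝ) ≤ T ^ 2 * T ^ 2 * (H : ℝ) := by gcongr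
        _ = T ^ 4 * H := by ring
        _ ≤ (e / 2 * T ^ 8) * H := mul_le_mul_of_nonneg_right h4 hH0.le
        _ = _ := by ring
    linarith
  have hsub : ((Icc 1 H).filter fun s : ℕ => ¬ ∃ p : ℕ, p ∣ s ∧ PrimeOK G T p) ⊆ A ∪ B := by
    intro s hs
    rw [mem_filter] at hs
    obtain ⟨hs1, hs2⟩ := hs
    rw [mem_union]
    by_contra hcon
    push Not at hcon
    obtain ⟨hnA, hnB⟩ := hcon
    rw [hAdef, mem_filter] at hnA
    rw [hBdef, mem_filter] at hnB
    push Not at hnA hnB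
    obtain ⟨p, hp, hps, hpy⟩ := hnA hs1
    refine hs2 ⟨p, hps, hp, by linarith, fun b hb2 hbG => ⟨fun hpb => ?_, hnB hs1 p hp hps hpy b hb2 hbG⟩⟩
    have h1 : p ≤ b := Nat.le_of_dvd (by omega) hpb
    have h2 : (p : ℝ) ≤ (b : ℝ) := by exact_mod_cast h1
    linarith
  calc (((Icc 1 H).filter fun s : ℕ => ¬ ∃ p : ℕ, p ∣ s ∧ PrimeOK G T p).card : ℝ)
      ≤ ((A ∪ B).card : ℝ) := by exact_mod_cast card_le_card hsub
    _ ≤ (A.card : ℝ) + (B.card : ℝ) := by exact_mod_cast card_union_le A B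
    _ ≤ e * H := by linarith
    _ ≤ ε * H := mul_le_mul_of_nonneg_right heε hH0.le

end Pool.Agent.Lib.MP_5b6025_nt.FE
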