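import Pool.Agent.Lib.MP_5b6025_nt.FE.TUP

/-!
# Module DIS: the set `Elements θ H` is finite and large
-/

set_option autoImplicit false

open Finset

namespace Pool.Agent.Lib.MP_5b6025_nt.FE

namespace DIS

/-- equal elements have proportional coordinates -/
theorem eqs {m : ℕ} {θ : Fin m → ℝ}
    (h : LinearIndependent ℚ (Fin.cons (1 : ℝ) θ : Fin (m + 1) → ℝ)) {a₀ b₀ : ℤ}
    {a b : Fin m → ℤ} {s t : ℕ} (hs : 1 ≤ s) (ht : 1 ≤ t)
    (heq : ((a₀ : ℝ) + ∑ i, (a i : ℝ) * θ i) / (s : ℝ)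
      = ((b₀ : ℝ) + ∑ i, (b i : ℝ) * θ i) / (t : ℝ)) :
    a₀ * t = b₀ * s ∧ ∀ i, a i * t = b i * s := by
  have hs0 : (s : ℝ) ≠ 0 := by positivity
  have ht0 : (t : ℝ) ≠ 0 := by positivity
  rw [div_eq_div_iff hs0 ht0] at heq
  rw [Fintype.linearIndependent_iff] at h
  have h1 := h (Fin.cons (((a₀ * t - b₀ * s : ℤ) : ℚ)) fun i => ((a i * t - b i * s : ℤ) : ℚ)) (by
    rw [Fin.sum_univ_succ]
    simp only [Fin.cons_zero, Fin.cons_succ, Rat.smul_def]
    push_cast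
    have e1 : ∑ i, ((a i : ℝ) * t - b i * s) * θ i
        = (t : ℝ) * ∑ i, (a i : ℝ) * θ i - s * ∑ i, (b i : ℝ) * θ i := by
      rw [Finset.mul_sum, Finset.mul_sum, ← Finset.sum_sub_distrib]
      refine Finset.sum_congr rfl fun i _ => ?_
      ring
    rw [e1]
    linarith)
  constructor
  · have := h1 0
    rw [Fin.cons_zero] at this
    have e2 : a₀ * t - b₀ * s = 0 := by exact_mod_cast this
    linarith
  · intro i
    have := h1 i.succ
    rw [Fin.cons_succ] at this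
    have e2 : a i * t - b i * s = 0 := by exact_mod_cast this
    linarith

/-- finiteness -/
theorem fin {m : ℕ} (θ : Fin m → ℝ) (H : ℕ) : (Elements θ H).Finite := by
  classical
  set F : Finset ℝ := ((Icc (-(H : ℤ)) (H : ℤ)) ×ˢ
    ((Fintype.piFinset fun _ : Fin m => Icc (-(H : ℤ)) (H : ℤ)) ×ˢ Icc 1 H)).image
    (fun q : ℤ × ((Fin m → ℤ) × ℕ) => ((q.1 : ℝ) + ∑ i, (q.2.1 i : ℝ) * θ i) / (q.2.2 : ℝ)) with hF
  refine F.finite_toSet.subset ?_
  rintro x ⟨a₀, a, s, h1, h2, h3, h4, rfl⟩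
  rw [Finset.mem_coe, hF, Finset.mem_image]
  refine ⟨(a₀, (a, s)), ?_, rfl⟩
  rw [Finset.mem_product, Finset.mem_product, Fintype.mem_piFinset, Finset.mem_Icc,
    Finset.mem_Icc]
  exact ⟨abs_le.1 h1, fun i => Finset.mem_Icc.2 (abs_le.1 (h2 i)), h3, h4⟩

/-- the sign of a Boolean -/
def sg (e : Bool) : ℤ := if e then 1 else -1

theorem sg_abs (e : Bool) : |sg e| = 1 := by
  cases e <;> simp [sg]

/-- the tuple of coefficients -/
def co {m : ℕ} (u : ℕ) (e : Bool) (c : Fin m → ℤ) : Fin (m + 1) → ℤ := Fin.cons (sg e * u) c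

theorem lower {m : ℕ} (θ : Fin (m + 1) → ℝ)
    (h : LinearIndependent ℚ (Fin.cons (1 : ℝ) θ : Fin (m + 1 + 1) → ℝ)) (H : ℕ) :
    (2 * (H : ℝ) + 1) * ((2 * (H : ℝ) + 1) ^ m *
      (((((Icc 1 H) ×ˢ (Icc 1 H)).filter fun q : ℕ × ℕ => Nat.Coprime q.1 q.2).card : ℝ) * 2))
      ≤ ((Elements θ H).ncard : ℝ) := by
  classical
  set I : Finset ℤ := Icc (-(H : ℤ)) (H : ℤ) with hI
  set C : Finset (ℕ × ℕ) := ((Icc 1 H) ×ˢ (Icc 1 H)).filter fun q : ℕ × ℕ => Nat.Coprime q.1 q.2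
    with hC
  set W : Finset (ℤ × ((Fin m → ℤ) × ((ℕ × ℕ) × Bool))) :=
    I ×ˢ ((Fintype.piFinset fun _ : Fin m => I) ×ˢ (C ×ˢ (univ : Finset Bool))) with hW
  set f : ℤ × ((Fin m → ℤ) × ((ℕ × ℕ) × Bool)) → ℝ := fun q =>
    ((q.1 : ℝ) + ∑ i, ((co q.2.2.1.1 q.2.2.2 q.2.1 i : ℤ) : ℝ) * θ i) / (q.2.2.1.2 : ℝ) with hf
  have hcard : (W.card : ℝ) = (2 * (H : ℝ) + 1) * ((2 * (H : ℝ) + 1) ^ m * ((C.card : ℝ) * 2)) := by
    rw [hW, Finset.card_product, Finset.card_product, Finset.card_product, Finset.card_univ,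
      Fintype.card_bool]
    push_cast
    rw [TUP.card_Icc_int, TUP.card_box]
  have hmem : ∀ q ∈ W, f q ∈ Elements θ H := by
    rintro ⟨a₀, c, ⟨u, s⟩, e⟩ hq
    rw [hW, Finset.mem_product, Finset.mem_product, Finset.mem_product, hC, Finset.mem_filter,
      Finset.mem_product, Fintype.mem_piFinset] at hq
    simp only [hI, Finset.mem_Icc] at hq
    obtain ⟨h1, h2, ⟨⟨⟨h3, h4⟩, h5, h6⟩, h7⟩, -⟩ := hq
    refine ⟨a₀, co u e c, s, abs_le.2 h1, ?_, h5, h6, rfl⟩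
    intro i
    refine Fin.cases ?_ (fun j => ?_) i
    · simp only [co, Fin.cons_zero]
      rw [abs_mul, sg_abs, one_mul, Nat.abs_cast]
      exact_mod_cast h4
    · simp only [co, Fin.cons_succ]
      exact abs_le.2 (h2 j)
  have hinj : Set.InjOn f (W : Set (ℤ × ((Fin m → ℤ) × ((ℕ × ℕ) × Bool)))) := by
    rintro ⟨a₀, c, ⟨u, s⟩, e⟩ hq ⟨b₀, d, ⟨v, t⟩, e'⟩ hq' heq
    rw [Finset.mem_coe, hW, Finset.mem_product, Finset.mem_product, Finset.mem_product, hC,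
      Finset.mem_filter, Finset.mem_product, Fintype.mem_piFinset] at hq hq'
    simp only [hI, Finset.mem_Icc] at hq hq'
    obtain ⟨h1, h2, ⟨⟨⟨h3, h4⟩, h5, h6⟩, h7⟩, -⟩ := hq
    obtain ⟨g1, g2, ⟨⟨⟨g3, g4⟩, g5, g6⟩, g7⟩, -⟩ := hq'
    obtain ⟨k0, ki⟩ := eqs h h5 g5 heq
    have k1 := ki 0
    simp only [co, Fin.cons_zero] at k1
    have k2 : u * t = v * s := by
      have e1 := congrArg Int.natAbs k1
      have e2 : ∀ (e : Bool) (x : ℕ), (sg e * (x : ℤ)).natAbs = x := by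
        intro e x
        cases e <;> simp [sg]
      rw [Int.natAbs_mul (sg e * (u : ℤ)), Int.natAbs_mul (sg e' * (v : ℤ)), e2, e2,
        Int.natAbs_natCast, Int.natAbs_natCast] at e1
      exact e1
    have hst : s = t := by
      have e1 : s ∣ t := by
        refine Nat.Coprime.dvd_of_dvd_mul_left h7.symm ?_
        rw [k2]
        exact Dvd.intro_left v rfl
      have e2 : t ∣ s := by
        refine Nat.Coprime.dvd_of_dvd_mul_left g7.symm ?_
        rw [← k2]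
        exact Dvd.intro_left u rfl
      exact Nat.dvd_antisymm e1 e2
    subst hst
    have huv : u = v := Nat.eq_of_mul_eq_mul_right h5 k2
    subst huv
    have hs0 : (s : ℤ) ≠ 0 := by
      have : s ≠ 0 := by omega
      exact_mod_cast this
    have hu0 : (u : ℤ) ≠ 0 := by
      have : u ≠ 0 := by omega
      exact_mod_cast this
    have ha : a₀ = b₀ := mul_right_cancel₀ hs0 k0
    have hc : c = d := by
      funext i
      have := ki i.succ
      simp only [co, Fin.cons_succ] at this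
      exact mul_right_cancel₀ hs0 this
    have he : e = e' := by
      have e1 := mul_right_cancel₀ hu0 (mul_right_cancel₀ hs0 k1)
      cases e <;> cases e' <;> simp [sg] at e1 ⊢
    rw [ha, hc, he]
  have h1 : W.card ≤ (Elements θ H).ncard := by
    have e1 : (W.image f).card = W.card := Finset.card_image_of_injOn hinj
    rw [← e1, ← Set.ncard_coe_finset]
    refine Set.ncard_le_ncard ?_ (fin θ H)
    intro x hx
    obtain ⟨q, hq, rfl⟩ := Finset.mem_image.1 (Finset.mem_coe.1 hx)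
    exact hmem q hq
  rw [← hcard]
  exact_mod_cast h1

end DIS

theorem specDIS (hCOP : SpecCOP) : SpecDIS := by
  intro m θ hm h H hH
  refine ⟨DIS.fin θ H, ?_⟩
  obtain ⟨n, rfl⟩ : ∃ n, m = n + 1 := ⟨m - 1, by omega⟩
  have h1 := DIS.lower θ h H
  have h2 := hCOP H
  have hH' : (1 : ℝ) ≤ (H : ℝ) := by exact_mod_cast hH
  set X : ℝ := 2 * (H : ℝ) + 1 with hX
  set c : ℝ := ((((Icc 1 H) ×ˢ (Icc 1 H)).filter fun q : ℕ × ℕ => Nat.Coprime q.1 q.2).card : ℝ)
    with hc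
  have hX0 : 0 < X := by positivity
  have h3 : X * (X ^ n * (H : ℝ) ^ 2) ≤ X * (X ^ n * (c * 2)) := by
    refine mul_le_mul_of_nonneg_left ?_ hX0.le
    refine mul_le_mul_of_nonneg_left ?_ (by positivity)
    linarith
  have h4 : X ^ (n + 1 + 1) * (H : ℝ) ≤ 3 * (X * (X ^ n * (H : ℝ) ^ 2)) := by
    have e1 : 3 * (X * (X ^ n * (H : ℝ) ^ 2)) = X ^ (n + 1) * (H : ℝ) * (3 * (H : ℝ)) := by ring
    have e2 : X ^ (n + 1 + 1) * (H : ℝ) = X ^ (n + 1) * (H : ℝ) * X := by ring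
    rw [e1, e2]
    refine mul_le_mul_of_nonneg_left ?_ (by positivity)
    linarith
  linarith

end Pool.Agent.Lib.MP_5b6025_nt.FE
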