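import Pool.Agent.Lib.MP_5b6025_nt.FE.Spec

/-!
# Assembly of the theorem on the elements of real number fields
-/

set_option autoImplicit false

open Finset Filter Topology

namespace Pool.Agent.Lib.MP_5b6025_nt.FE

namespace FIN

lemma primeOK_mono {G G' T : ℝ} {p : ℕ} (h : PrimeOK G T p) (hG : G' ≤ G) : PrimeOK G' T p :=
  ⟨h.1, h.2.1, fun b hb hbG => h.2.2 b hb (hbG.trans hG)⟩

open scoped Classical in
lemma or_card (p : ℕ) (P Q : ℕ → Prop) :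
    (((range p).filter fun r => ¬ (P r ∧ Q r)).card : ℝ)
      ≤ (((range p).filter fun r => ¬ P r).card : ℝ) + (((range p).filter fun r => ¬ Q r).card : ℝ) := by
  have h : ((range p).filter fun r => ¬ (P r ∧ Q r))
      ⊆ ((range p).filter fun r => ¬ P r) ∪ ((range p).filter fun r => ¬ Q r) := by
    intro r hr
    rw [mem_filter] at hr
    rw [mem_union, mem_filter, mem_filter]
    by_cases hP : P r
    · right
      exact ⟨hr.1, fun hQ => hr.2 ⟨hP, hQ⟩⟩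
    · left
      exact ⟨hr.1, hP⟩
  exact_mod_cast (card_le_card h).trans (card_union_le _ _)

/-- Parameters: for large `H` the error terms are small. -/
lemma params {C₁ C₂ ε₁ γ : ℝ} (hC₁ : 0 < C₁) (hC₂ : 0 < C₂) (hε₁ : 0 < ε₁) (hγ : 0 < γ) :
    ∃ δ : ℝ, 0 < δ ∧ δ ≤ 1 ∧ δ ≤ γ / 8 ∧ ∃ H₁ : ℕ, 1 ≤ H₁ ∧ ∀ H : ℕ, H₁ ≤ H →
      2 ≤ (H : ℝ) ^ δ ∧ 2500 * ((H : ℝ) ^ δ) ^ 2 ≤ (H : ℝ) ^ γ ∧
      C₁ * (δ ^ 2 + ((H : ℝ) ^ δ) ^ 6 / (H : ℝ) ^ γ) + C₂ * (((H : ℝ) ^ δ) ^ 6 / (H : ℝ) ^ γ) ≤ ε₁ := by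
  set δ : ℝ := min (min 1 (γ / 8)) (ε₁ / (3 * C₁)) with hδ
  have hδ0 : 0 < δ := by
    rw [hδ]; positivity
  have hδ1 : δ ≤ 1 := (min_le_left _ _).trans (min_le_left _ _)
  have hδγ : δ ≤ γ / 8 := (min_le_left _ _).trans (min_le_right _ _)
  have hδε : δ ≤ ε₁ / (3 * C₁) := min_le_right _ _
  have hδ2 : C₁ * δ ^ 2 ≤ ε₁ / 3 := by
    have h1 : δ ^ 2 ≤ δ := by nlinarith
    have h2 : C₁ * δ ^ 2 ≤ C₁ * (ε₁ / (3 * C₁)) := mul_le_mul_of_nonneg_left (h1.trans hδε) hC₁.le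
    have h3 : C₁ * (ε₁ / (3 * C₁)) = ε₁ / 3 := by field_simp
    linarith
  refine ⟨δ, hδ0, hδ1, hδγ, ?_⟩
  -- `H ^ δ → ∞`
  have ht : Tendsto (fun H : ℕ => (H : ℝ) ^ δ) atTop atTop :=
    (tendsto_rpow_atTop hδ0).comp tendsto_natCast_atTop_atTop
  have ht2 : Tendsto (fun H : ℕ => (H : ℝ) ^ (γ / 4)) atTop atTop :=
    (tendsto_rpow_atTop (by positivity)).comp tendsto_natCast_atTop_atTop
  have e1 := ht.eventually_ge_atTop 2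
  have e2 := ht2.eventually_ge_atTop (max 2500 (3 * (C₁ + C₂) / ε₁))
  have e3 := Filter.eventually_ge_atTop (1 : ℕ)
  obtain ⟨H₁, hH₁⟩ := Filter.eventually_atTop.mp (e1.and (e2.and e3))
  refine ⟨max H₁ 1, le_max_right _ _, fun H hH => ?_⟩
  obtain ⟨h1, h2, h3⟩ := hH₁ H ((le_max_left _ _).trans hH)
  have hH0 : (0 : ℝ) < H := by exact_mod_cast h3
  have hH1 : (1 : ℝ) ≤ H := by exact_mod_cast h3
  have k1 : (2500 : ℝ) ≤ (H : ℝ) ^ (γ / 4) := (le_max_left _ _).trans h2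
  have k2 : 3 * (C₁ + C₂) / ε₁ ≤ (H : ℝ) ^ (γ / 4) := (le_max_right _ _).trans h2
  have hpow2 : ((H : ℝ) ^ δ) ^ 2 = (H : ℝ) ^ (δ * 2) := by
    rw [← Real.rpow_natCast, ← Real.rpow_mul hH0.le]; norm_num
  have hpow6 : ((H : ℝ) ^ δ) ^ 6 = (H : ℝ) ^ (δ * 6) := by
    rw [← Real.rpow_natCast, ← Real.rpow_mul hH0.le]; norm_num
  refine ⟨h1, ?_, ?_⟩
  · rw [hpow2]
    have h4 : (H : ℝ) ^ (δ * 2) ≤ (H : ℝ) ^ (γ / 4) :=
      Real.rpow_le_rpow_of_exponent_le hH1 (by linarith)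
    have h5 : (H : ℝ) ^ γ = (H : ℝ) ^ (γ / 4) * (H : ℝ) ^ (3 * γ / 4) := by
      rw [← Real.rpow_add hH0]; congr 1; ring
    have h6 : (H : ℝ) ^ (δ * 2) ≤ (H : ℝ) ^ (3 * γ / 4) :=
      Real.rpow_le_rpow_of_exponent_le hH1 (by linarith)
    rw [h5]
    have h7 : 0 ≤ (H : ℝ) ^ (δ * 2) := by positivity
    exact mul_le_mul k1 h6 h7 (by positivity)
  · have hq : ((H : ℝ) ^ δ) ^ 6 / (H : ℝ) ^ γ ≤ ε₁ / (3 * (C₁ + C₂)) := by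
      rw [hpow6, ← Real.rpow_sub hH0]
      have h4 : (H : ℝ) ^ (δ * 6 - γ) ≤ (H : ℝ) ^ (-(γ / 4)) :=
        Real.rpow_le_rpow_of_exponent_le hH1 (by linarith)
      refine h4.trans ?_
      rw [Real.rpow_neg hH0.le]
      have h5 : ε₁ / (3 * (C₁ + C₂)) = (3 * (C₁ + C₂) / ε₁)⁻¹ := by
        rw [inv_div]
      rw [h5]
      exact inv_anti₀ (by positivity) k2
    set q := ((H : ℝ) ^ δ) ^ 6 / (H : ℝ) ^ γ with hqd
    have h8 : (C₁ + C₂) * q ≤ ε₁ / 3 := by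
      have := mul_le_mul_of_nonneg_left hq (by positivity : (0 : ℝ) ≤ C₁ + C₂)
      have h9 : (C₁ + C₂) * (ε₁ / (3 * (C₁ + C₂))) = ε₁ / 3 := by field_simp
      linarith
    nlinarith

end FIN

theorem specFIN (hGD1 : SpecGD1) (hGD2 : SpecGD2) (hRES : SpecRES) (hBLK : SpecBLK) (hDEN : SpecDEN)
    (hDIS : SpecDIS) (hTUP : SpecTUP) : SpecFIN := by
  classical
  intro ε hε
  obtain ⟨C₁, hC₁, h1⟩ := hGD1
  obtain ⟨C₂, hC₂, h2⟩ := hGD2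
  have hε₁ : 0 < ε / 9 := by positivity
  obtain ⟨γ, hγ, H₀, hH₀⟩ := hDEN (ε / 9) hε₁
  obtain ⟨δ, hδ0, hδ1, hδγ, H₁, hH₁, hpar⟩ := FIN.params hC₁ hC₂ hε₁ hγ
  refine ⟨δ, hδ0, max H₀ H₁, fun m θ hm hθ H hH => ?_⟩
  have hHa : H₀ ≤ H := (le_max_left _ _).trans hH
  have hHb : H₁ ≤ H := (le_max_right _ _).trans hH
  have hH1 : 1 ≤ H := hH₁.trans hHb
  obtain ⟨g1, g2, g3⟩ := hpar H hHb
  obtain ⟨hfin, hcard⟩ := hDIS m θ hm hθ H hH1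
  have hHr : (1 : ℝ) ≤ H := by exact_mod_cast hH1
  have hpos : 0 < (Elements θ H).ncard := by
    have h3 : (0 : ℝ) < (2 * (H : ℝ) + 1) ^ (m + 1) * (H : ℝ) := by positivity
    have h4 : (0 : ℝ) < 3 * ((Elements θ H).ncard : ℝ) := lt_of_lt_of_le h3 hcard
    have h5 : (0 : ℝ) < ((Elements θ H).ncard : ℝ) := by linarith
    exact_mod_cast h5
  refine ⟨hfin, hpos, ?_⟩
  set G : ℝ := (H : ℝ) ^ δ with hG
  set T : ℝ := (H : ℝ) ^ γ with hT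
  have hT0 : 0 < T := by rw [hT]; positivity
  set P : ℝ → Prop := fun x => Good1 G δ x ∧ Good2 G x with hP
  set Q : ℕ → Prop := fun s => ∃ p : ℕ, p ∣ s ∧ PrimeOK ((H : ℝ) ^ (γ / 8)) T p with hQ
  have hGle : G ≤ (H : ℝ) ^ (γ / 8) := Real.rpow_le_rpow_of_exponent_le hHr hδγ
  -- primes
  have hprime : ∀ p : ℕ, PrimeOK ((H : ℝ) ^ (γ / 8)) T p → ∀ x : ℝ,
      (((range p).filter fun r : ℕ => ¬ P (x + (r : ℝ) / (p : ℝ))).card : ℝ) ≤ (ε / 9) * (p : ℝ) := by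
    intro p hp x
    have hp' : PrimeOK G T p := FIN.primeOK_mono hp hGle
    have hpT : 2500 * G ^ 2 ≤ (p : ℝ) := g2.trans hp.2.1
    have a1 := h1 p G T δ x g1 hδ0 hδ1 hT0 hp' hpT
    have a2 := h2 p G T x g1 hT0 hp' hpT
    have a3 := FIN.or_card p (fun r => Good1 G δ (x + (r : ℝ) / (p : ℝ)))
      (fun r => Good2 G (x + (r : ℝ) / (p : ℝ)))
    have hp0 : (0 : ℝ) ≤ p := Nat.cast_nonneg p
    have a4 : C₁ * (p : ℝ) * (δ ^ 2 + G ^ 6 / T) + C₂ * (p : ℝ) * (G ^ 6 / T) ≤ (ε / 9) * (p : ℝ) := by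
      have := mul_le_mul_of_nonneg_left g3 hp0
      nlinarith
    calc (((range p).filter fun r : ℕ => ¬ P (x + (r : ℝ) / (p : ℝ))).card : ℝ) ≤ _ := a3
      _ ≤ C₁ * (p : ℝ) * (δ ^ 2 + G ^ 6 / T) + C₂ * (p : ℝ) * (G ^ 6 / T) := add_le_add a1 a2
      _ ≤ _ := a4
  have hs : ∀ s : ℕ, 1 ≤ s → s ≤ H → Q s → ∀ y : ℝ,
      (((Icc (-(H : ℤ)) (H : ℤ)).filter fun a : ℤ => ¬ P ((y + (a : ℝ)) / (s : ℝ))).card : ℝ)
        ≤ 2 * (ε / 9) * (2 * (H : ℝ) + 1) := by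
    intro s hs1 hsH hQs y
    obtain ⟨p, hps, hp⟩ := hQs
    convert hBLK P (ε / 9) s H hε₁.le hs1 hsH
      (hRES P (ε / 9) p s hp.1.one_lt.le hs1 hps (fun x => by convert hprime p hp x)) y
  have hfinal := hTUP m θ P Q (ε / 9) H hε₁.le (hH₀ H hHa)
    (fun s a b c y => by convert hs s a b c y)
  have h6 : 3 * (ε / 9) * ((2 * (H : ℝ) + 1) ^ (m + 1) * (H : ℝ))
      ≤ 3 * (ε / 9) * (3 * ((Elements θ H).ncard : ℝ)) :=
    mul_le_mul_of_nonneg_left hcard (by positivity)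
  refine hfinal.trans (h6.trans (le_of_eq ?_))
  ring

end Pool.Agent.Lib.MP_5b6025_nt.FE
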