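import Pool.Agent.Lib.MP_5b6025_nt.FE.Spec

/-!
# GD1: property (1) for most translates by multiples of `1 / p`
-/

set_option autoImplicit false

open Finset

namespace Pool.Agent.Lib.MP_5b6025_nt.FE

namespace GD1

lemma bal_mono {b N : ℕ} {τ τ' x : ℝ} (h : Balanced b τ N x) (hτ : τ ≤ τ') :
    Balanced b τ' N x := fun k w hw => (h k w hw).trans hτ

/-- the eighth root of two -/
noncomputable def sg : ℝ := (2 : ℝ) ^ ((1 : ℝ) / 8)

lemma sg_pow : sg ^ 8 = 2 := by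
  unfold sg
  rw [← Real.rpow_natCast, ← Real.rpow_mul (by norm_num)]
  norm_num

lemma sg_gt : 1 < sg := by
  unfold sg
  exact Real.one_lt_rpow (by norm_num) (by norm_num)

lemma rpow_le {N i : ℕ} (h : N < 2 ^ (i + 1)) : (N : ℝ) ^ ((1 : ℝ) / 8) ≤ sg ^ (i + 1) := by
  have h1 : (N : ℝ) ≤ (sg ^ (i + 1)) ^ 8 := by
    rw [← pow_mul, mul_comm, pow_mul, sg_pow]
    exact_mod_cast h.le
  have h2 : (0 : ℝ) ≤ sg ^ (i + 1) := by
    have := sg_gt
    positivity
  calc (N : ℝ) ^ ((1 : ℝ) / 8) ≤ ((sg ^ (i + 1)) ^ 8) ^ ((1 : ℝ) / 8) :=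
        Real.rpow_le_rpow (Nat.cast_nonneg N) h1 (by norm_num)
    _ = sg ^ (i + 1) := by
        rw [← Real.rpow_natCast (sg ^ (i + 1)) 8, ← Real.rpow_mul h2]
        norm_num

/-- the tolerance at level `2 ^ i` -/
noncomputable def ta (G : ℝ) (i : ℕ) : ℝ := 1 / sg ^ (i + 1) + 1 / G

/-- the step of the progression at level `2 ^ i` -/
noncomputable def tt (G : ℝ) (i : ℕ) : ℕ := max 1 ⌊(2 : ℝ) ^ i * ta G i / 4⌋₊

lemma ta_pos {G : ℝ} (hG : 2 ≤ G) (i : ℕ) : 0 < ta G i := by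
  have := sg_gt
  unfold ta
  positivity

lemma ta_le {G : ℝ} (hG : 2 ≤ G) (i : ℕ) : ta G i ≤ 3 / 2 := by
  have h1 := sg_gt
  have h2 : 1 / sg ^ (i + 1) ≤ 1 := by
    rw [div_le_one (by positivity)]
    exact one_le_pow₀ h1.le
  have h3 : 1 / G ≤ 1 / 2 := one_div_le_one_div_of_le (by norm_num) hG
  unfold ta
  linarith

lemma ta_ge_G {G : ℝ} (i : ℕ) : 1 / G ≤ ta G i := by
  have h1 := sg_gt
  have h2 : 0 < 1 / sg ^ (i + 1) := by positivity
  unfold ta
  linarith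

lemma ta_ge_s {G : ℝ} (hG : 2 ≤ G) (i : ℕ) : 1 / sg ^ (i + 1) ≤ ta G i := by
  have h2 : 0 < 1 / G := by positivity
  unfold ta
  linarith

lemma tt_pos (G : ℝ) (i : ℕ) : 1 ≤ tt G i := le_max_left _ _

lemma tt_cases {G : ℝ} (hG : 2 ≤ G) (i : ℕ) :
    tt G i = 1 ∨ (tt G i : ℝ) ≤ (2 : ℝ) ^ i * ta G i / 4 := by
  have h0 := ta_pos hG i
  unfold tt
  rcases le_total 1 ⌊(2 : ℝ) ^ i * ta G i / 4⌋₊ with h | h
  · right
    rw [max_eq_right h]
    exact Nat.floor_le (by positivity)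
  · left
    exact max_eq_left h

lemma tt_ge {G : ℝ} (hG : 2 ≤ G) (i : ℕ) : (2 : ℝ) ^ (i + 1) * ta G i ≤ 16 * (tt G i : ℝ) := by
  have h0 := ta_pos hG i
  have h1 : (1 : ℝ) ≤ tt G i := by exact_mod_cast tt_pos G i
  have h2 : ((⌊(2 : ℝ) ^ i * ta G i / 4⌋₊ : ℕ) : ℝ) ≤ tt G i :=
    Nat.cast_le.2 (le_max_right _ _)
  have h3 := Nat.lt_floor_add_one ((2 : ℝ) ^ i * ta G i / 4)
  have h4 : (2 : ℝ) ^ (i + 1) * ta G i = 8 * ((2 : ℝ) ^ i * ta G i / 4) := by
    rw [pow_succ]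
    ring
  rw [h4]
  linarith

/-- the level below -/
lemma step {G : ℝ} (hG : 2 ≤ G) {i N : ℕ} (h1 : 2 ^ i ≤ N) :
    1 ≤ tt G i * (N / tt G i) ∧ tt G i * (N / tt G i) ≤ N ∧
      2 ^ i ≤ 2 * (tt G i * (N / tt G i)) ∧
      ((N : ℝ) - ((tt G i * (N / tt G i) : ℕ) : ℝ)) / (N : ℝ) ≤ ta G i / 4 := by
  have hτ := ta_pos hG i
  have hτ2 := ta_le hG i
  have hN : 1 ≤ N := le_trans Nat.one_le_two_pow h1
  have hN0 : (0 : ℝ) < N := by exact_mod_cast hN
  have ht := tt_pos G i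
  have hle : tt G i * (N / tt G i) ≤ N := Nat.mul_div_le N _
  rcases tt_cases hG i with h | h
  · rw [h, Nat.div_one, one_mul]
    refine ⟨hN, le_rfl, by omega, ?_⟩
    rw [sub_self, zero_div]
    positivity
  · have h3 : N < tt G i * (N / tt G i) + tt G i := by
      have h4 := Nat.div_add_mod N (tt G i)
      have h5 := Nat.mod_lt N (show 0 < tt G i by omega)
      omega
    have h4 : (N : ℝ) < ((tt G i * (N / tt G i) : ℕ) : ℝ) + tt G i := by exact_mod_cast h3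
    have h5 : (2 : ℝ) ^ i ≤ N := by exact_mod_cast h1
    have h6 : (2 : ℝ) ^ i * ta G i / 4 ≤ (N : ℝ) * (ta G i / 4) := by
      rw [mul_div_assoc]
      exact mul_le_mul_of_nonneg_right h5 (by positivity)
    have h7 : (2 : ℝ) ^ i * ta G i / 4 ≤ (2 : ℝ) ^ i * (3 / 8) := by
      have : (0 : ℝ) < 2 ^ i := by positivity
      nlinarith
    have h8 : (2 : ℝ) ^ i ≤ 2 * ((tt G i * (N / tt G i) : ℕ) : ℝ) := by
      have : (0 : ℝ) < 2 ^ i := by positivity
      linarith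
    have h9 : 2 ^ i ≤ 2 * (tt G i * (N / tt G i)) := by exact_mod_cast h8
    have h10 : 1 ≤ 2 ^ i := Nat.one_le_two_pow
    refine ⟨by omega, hle, h9, ?_⟩
    rw [div_le_iff₀ hN0]
    linarith

lemma tel (ρ : ℝ) (h1 : 1 < ρ) (h2 : ρ ^ 2 = 2) (i0 k : ℕ) :
    ∑ i ∈ Ico i0 (i0 + k), 1 / ρ ^ i ≤ (2 + ρ) * (1 / ρ ^ i0 - 1 / ρ ^ (i0 + k)) := by
  induction k with
  | zero => simp
  | succ k ih =>
    rw [← add_assoc, Finset.sum_Ico_succ_top (by omega)]
    have h3 : 1 / ρ ^ (i0 + k) = (2 + ρ) * (1 / ρ ^ (i0 + k) - 1 / ρ ^ (i0 + k + 1)) := by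
      have h4 : ρ ≠ 0 := by linarith
      rw [pow_succ]
      field_simp
      nlinarith
    linarith

lemma geo (ρ : ℝ) (h1 : 1 < ρ) (h2 : ρ ^ 2 = 2) (n : ℕ) (y z : ℝ) (hz : 0 < z)
    (hy : y = z ^ 2) :
    ∑ i ∈ (range n).filter (fun i : ℕ => y < (2 : ℝ) ^ (i + 1)), 1 / ρ ^ i ≤ 5 / z := by
  have hρ3 : ρ < 3 / 2 := by nlinarith
  rcases ((range n).filter (fun i : ℕ => y < (2 : ℝ) ^ (i + 1))).eq_empty_or_nonempty with h | h
  · rw [h, Finset.sum_empty]
    positivity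
  · set S := (range n).filter (fun i : ℕ => y < (2 : ℝ) ^ (i + 1)) with hS
    set i0 := S.min' h with hi0
    have hm : i0 ∈ S := S.min'_mem h
    have hm' := Finset.mem_filter.1 hm
    have hn : i0 < n := Finset.mem_range.1 hm'.1
    have hsub : S ⊆ Ico i0 (i0 + (n - i0)) := by
      intro i hi
      have h3 : i0 ≤ i := S.min'_le i hi
      have h4 := Finset.mem_range.1 (Finset.mem_filter.1 hi).1
      rw [Finset.mem_Ico]
      omega
    have h3 : ∑ i ∈ S, 1 / ρ ^ i ≤ ∑ i ∈ Ico i0 (i0 + (n - i0)), 1 / ρ ^ i :=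
      Finset.sum_le_sum_of_subset_of_nonneg hsub fun i _ _ => by positivity
    have h4 := tel ρ h1 h2 i0 (n - i0)
    have h5 : 0 < 1 / ρ ^ (i0 + (n - i0)) := by positivity
    have h6 : z < ρ ^ (i0 + 1) := by
      refine lt_of_pow_lt_pow_left₀ 2 (by positivity) ?_
      rw [← hy, ← pow_mul, mul_comm, pow_mul, h2]
      exact hm'.2
    have h7 : 1 / ρ ^ i0 = ρ / ρ ^ (i0 + 1) := by
      rw [pow_succ]
      field_simp
    have h8 : (2 + ρ) * (1 / ρ ^ i0) ≤ 5 / z := by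
      rw [h7, ← mul_div_assoc, div_le_div_iff₀ (by positivity) hz]
      have h9 : (2 + ρ) * ρ ≤ 5 := by nlinarith
      have h10 : 0 < (2 + ρ) * ρ := by positivity
      nlinarith
    nlinarith

lemma sum_sq (n : ℕ) : ∑ b ∈ Icc 2 n, 1 / (b : ℝ) ^ 2 ≤ 1 := by
  have h : ∀ m : ℕ, ∑ b ∈ Icc 2 (m + 1), 1 / (b : ℝ) ^ 2 ≤ 1 - 1 / ((m : ℝ) + 1) := by
    intro m
    induction m with
    | zero => simp
    | succ m ih =>
      rw [Finset.sum_Icc_succ_top (by omega)]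
      have h1 : 1 / (((m + 1 + 1 : ℕ) : ℝ)) ^ 2 ≤ 1 / ((m : ℝ) + 1) - 1 / (((m + 1 : ℕ) : ℝ) + 1) := by
        push_cast
        have h0 : (0 : ℝ) ≤ m := Nat.cast_nonneg m
        rw [div_sub_div _ _ (by positivity) (by positivity),
          div_le_div_iff₀ (by positivity) (by positivity)]
        nlinarith
      linarith
  rcases n with _ | n
  · simp
  · have h1 := h n
    have h2 : 0 < 1 / ((n : ℝ) + 1) := by positivity
    linarith

/-- the sum over one progression -/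
lemma inner {p G T : ℝ} (hp : 0 < p) (hG : 2 ≤ G) (hT : 0 < T) (i : ℕ) :
    ((2 ^ (i + 1) / tt G i : ℕ) : ℝ) *
        (6400 * p / (ta G i / 2) ^ 3 * (1 / T + 2 / (2 : ℝ) ^ i))
      ≤ 819200 * p * (G ^ 4 / T + 3 * (1 / (sg ^ 4) ^ i)) := by
  have hτ := ta_pos hG i
  have ht : (0 : ℝ) < tt G i := by exact_mod_cast tt_pos G i
  have hs := sg_gt
  have h1 : ((2 ^ (i + 1) / tt G i : ℕ) : ℝ) ≤ 16 / ta G i := by
    refine (Nat.cast_div_le).trans ?_
    rw [div_le_div_iff₀ ht hτ]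
    push_cast
    exact tt_ge hG i
  have h2 : ((2 ^ (i + 1) / tt G i : ℕ) : ℝ) *
        (6400 * p / (ta G i / 2) ^ 3 * (1 / T + 2 / (2 : ℝ) ^ i))
      ≤ 16 / ta G i * (6400 * p / (ta G i / 2) ^ 3 * (1 / T + 2 / (2 : ℝ) ^ i)) :=
    mul_le_mul_of_nonneg_right h1 (by positivity)
  refine h2.trans ?_
  have h3 : 16 / ta G i * (6400 * p / (ta G i / 2) ^ 3 * (1 / T + 2 / (2 : ℝ) ^ i))
      = 819200 * p * ((1 / ta G i) ^ 4 * (1 / T) + (1 / ta G i) ^ 4 * (2 / (2 : ℝ) ^ i)) := by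
    field_simp
    ring
  rw [h3]
  refine mul_le_mul_of_nonneg_left (add_le_add ?_ ?_) (by positivity)
  · have h4 : 1 / ta G i ≤ G := by
      rw [div_le_iff₀ hτ]
      have h5 := ta_ge_G (G := G) i
      have h6 : G * (1 / G) = 1 := by field_simp
      have h7 : G * (1 / G) ≤ G * ta G i := mul_le_mul_of_nonneg_left h5 (by linarith)
      linarith
    have h5 : (1 / ta G i) ^ 4 ≤ G ^ 4 := pow_le_pow_left₀ (by positivity) h4 4
    calc (1 / ta G i) ^ 4 * (1 / T) ≤ G ^ 4 * (1 / T) :=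
          mul_le_mul_of_nonneg_right h5 (by positivity)
      _ = G ^ 4 / T := by ring
  · have h4 : 1 / ta G i ≤ sg ^ (i + 1) := by
      rw [div_le_iff₀ hτ]
      have h5 := ta_ge_s hG i
      have h6 : sg ^ (i + 1) * (1 / sg ^ (i + 1)) = 1 := by field_simp
      have h7 : sg ^ (i + 1) * (1 / sg ^ (i + 1)) ≤ sg ^ (i + 1) * ta G i :=
        mul_le_mul_of_nonneg_left h5 (by positivity)
      linarith
    have h5 : (1 / ta G i) ^ 4 ≤ (sg ^ (i + 1)) ^ 4 := pow_le_pow_left₀ (by positivity) h4 4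
    have h6 : (2 : ℝ) ^ i = (sg ^ 4) ^ i * (sg ^ 4) ^ i := by
      rw [← mul_pow, ← pow_add]
      norm_num [sg_pow]
    have h7 : (sg ^ (i + 1)) ^ 4 = (sg ^ 4) ^ i * sg ^ 4 := by
      rw [← pow_mul, ← pow_mul, ← pow_add]
      congr 1
      ring
    have h8 : sg ^ 4 ≤ 3 / 2 := by
      have h9 : (sg ^ 4) ^ 2 = 2 := by rw [← pow_mul]; exact sg_pow
      nlinarith
    have h10 : (0 : ℝ) < (sg ^ 4) ^ i := by positivity
    calc (1 / ta G i) ^ 4 * (2 / (2 : ℝ) ^ i) ≤ (sg ^ (i + 1)) ^ 4 * (2 / (2 : ℝ) ^ i) :=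
          mul_le_mul_of_nonneg_right h5 (by positivity)
      _ = 2 * sg ^ 4 * (1 / (sg ^ 4) ^ i) := by
          rw [h6, h7]
          field_simp
      _ ≤ 3 * (1 / (sg ^ 4) ^ i) :=
          mul_le_mul_of_nonneg_right (by linarith) (by positivity)

end GD1

open GD1 in
theorem specGD1 (hBAD : SpecBAD) (hSCL : SpecSCL) : SpecGD1 := by
  classical
  refine ⟨12288000, by norm_num, ?_⟩
  intro p G T δ x hG hδ hδ1 hT hOK hpG
  obtain ⟨hp, hTp, hb⟩ := hOK
  have hp0 : (0 : ℝ) < p := by exact_mod_cast hp.pos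
  have hs := sg_gt
  set n : ℕ := ⌊2 * G⌋₊ with hn
  set I : ℕ → Finset ℕ := fun b =>
    (range n).filter (fun i : ℕ => ((b : ℝ) / δ) ^ 4 < (2 : ℝ) ^ (i + 1)) with hI
  set B : ℕ → ℕ → ℕ → Finset ℕ := fun b i q =>
    (range p).filter (fun r : ℕ => 2 ^ i ≤ 2 * (tt G i * q) ∧
      ¬ Balanced b (ta G i / 2) (tt G i * q) (x + (r : ℝ) / (p : ℝ))) with hB
  -- the inclusion
  have hsub : ((range p).filter fun r : ℕ => ¬ Good1 G δ (x + (r : ℝ) / (p : ℝ))) ⊆
      (Icc 2 ⌊G⌋₊).biUnion fun b => (I b).biUnion fun i =>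
        (Icc 1 (2 ^ (i + 1) / tt G i)).biUnion fun q => B b i q := by
    intro r hr
    rw [Finset.mem_filter] at hr
    obtain ⟨hrp, hbad⟩ := hr
    unfold Good1 at hbad
    push Not at hbad
    obtain ⟨b, hb2, hbG, N, hN1, hN2, hbal⟩ := hbad
    have hb0 : (2 : ℝ) ≤ b := by exact_mod_cast hb2
    have hbd : 2 ≤ (b : ℝ) / δ := by
      rw [le_div_iff₀ hδ]
      nlinarith
    have hN0 : (1 : ℝ) ≤ N := by
      have h1 : (1 : ℝ) ≤ ((b : ℝ) / δ) ^ 4 := one_le_pow₀ (by linarith)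
      linarith
    have hN : 1 ≤ N := by exact_mod_cast hN0
    set i := Nat.log 2 N with hi
    have h1 : 2 ^ i ≤ N := Nat.pow_log_le_self 2 (by omega)
    have h2 : N < 2 ^ (i + 1) := Nat.lt_pow_succ_log_self (by norm_num) N
    obtain ⟨h3, h4, h5, h6⟩ := step hG h1
    have hin : i < n := by
      have h7 : (2 : ℝ) ^ i ≤ Real.exp G := by
        have : (2 : ℝ) ^ i ≤ N := by exact_mod_cast h1
        linarith
      have h8 : (i : ℝ) * Real.log 2 ≤ G := by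
        have h9 := Real.log_le_log (by positivity) h7
        rwa [Real.log_exp, Real.log_pow] at h9
      have h9 := Real.log_two_gt_d9
      have h10 : (i : ℝ) * 0.69 ≤ G := by
        have h11 : (i : ℝ) * 0.69 ≤ (i : ℝ) * Real.log 2 :=
          mul_le_mul_of_nonneg_left (by linarith) (Nat.cast_nonneg i)
        linarith
      have h12 : ((i + 1 : ℕ) : ℝ) ≤ 2 * G := by
        push_cast
        linarith
      have h13 : i + 1 ≤ n := by
        rw [hn]
        exact Nat.le_floor h12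
      omega
    simp only [Finset.mem_biUnion]
    refine ⟨b, Finset.mem_Icc.2 ⟨hb2, Nat.le_floor hbG⟩, i, ?_, N / tt G i, ?_, ?_⟩
    · rw [hI]
      simp only
      rw [Finset.mem_filter, Finset.mem_range]
      refine ⟨hin, lt_of_le_of_lt hN1 ?_⟩
      exact_mod_cast h2
    · rw [Finset.mem_Icc]
      refine ⟨?_, Nat.div_le_div_right h2.le⟩
      by_contra hcon
      have h7 : N / tt G i = 0 := Nat.lt_one_iff.1 (not_le.1 hcon)
      rw [h7, mul_zero] at h3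
      omega
    · rw [hB]
      simp only
      rw [Finset.mem_filter]
      refine ⟨hrp, h5, fun hcon => hbal ?_⟩
      have h7 := hSCL b N (tt G i * (N / tt G i)) (ta G i / 2) _ h3 h4 hcon
      refine bal_mono h7 ?_
      have hτ := ta_pos hG i
      have h8 : ta G i ≤ 1 / (N : ℝ) ^ ((1 : ℝ) / 8) + 1 / G := by
        have h9 := rpow_le h2
        have h10 : 0 < (N : ℝ) ^ ((1 : ℝ) / 8) := by positivity
        have h11 := one_div_le_one_div_of_le h10 h9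
        unfold ta
        linarith
      linarith
  have hcard := Finset.card_le_card hsub
  have hcard2 : (((range p).filter fun r : ℕ => ¬ Good1 G δ (x + (r : ℝ) / (p : ℝ))).card : ℝ)
      ≤ ∑ b ∈ Icc 2 ⌊G⌋₊, ∑ i ∈ I b, ∑ q ∈ Icc 1 (2 ^ (i + 1) / tt G i), ((B b i q).card : ℝ) := by
    have h1 : ((Icc 2 ⌊G⌋₊).biUnion fun b => (I b).biUnion fun i =>
        (Icc 1 (2 ^ (i + 1) / tt G i)).biUnion fun q => B b i q).card
        ≤ ∑ b ∈ Icc 2 ⌊G⌋₊, ∑ i ∈ I b, ∑ q ∈ Icc 1 (2 ^ (i + 1) / tt G i), (B b i q).card :=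
      Finset.card_biUnion_le.trans (Finset.sum_le_sum fun b _ =>
        Finset.card_biUnion_le.trans (Finset.sum_le_sum fun i _ => Finset.card_biUnion_le))
    exact_mod_cast hcard.trans h1
  refine hcard2.trans ?_
  -- one base
  have hbase : ∀ b ∈ Icc 2 ⌊G⌋₊,
      ∑ i ∈ I b, ∑ q ∈ Icc 1 (2 ^ (i + 1) / tt G i), ((B b i q).card : ℝ)
        ≤ 819200 * (p : ℝ) * (2 * G ^ 5 / T + 15 * (δ ^ 2 * (1 / (b : ℝ) ^ 2))) := by
    intro b hbI
    rw [Finset.mem_Icc] at hbI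
    have hbG : (b : ℝ) ≤ G := (Nat.le_floor_iff (by linarith)).1 hbI.2
    have hb0 : (2 : ℝ) ≤ b := by exact_mod_cast hbI.1
    obtain ⟨hpb, hTb⟩ := hb b hbI.1 hbG
    have h1 : ∀ i ∈ I b, ∑ q ∈ Icc 1 (2 ^ (i + 1) / tt G i), ((B b i q).card : ℝ)
        ≤ 819200 * (p : ℝ) * (G ^ 4 / T + 3 * (1 / (sg ^ 4) ^ i)) := by
      intro i _
      have hτ := ta_pos hG i
      have hτ2 := ta_le hG i
      have h2 : ∀ q ∈ Icc 1 (2 ^ (i + 1) / tt G i), ((B b i q).card : ℝ)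
          ≤ 6400 * (p : ℝ) / (ta G i / 2) ^ 3 * (1 / T + 2 / (2 : ℝ) ^ i) := by
        intro q hq
        rw [Finset.mem_Icc] at hq
        by_cases hc : 2 ^ i ≤ 2 * (tt G i * q)
        · have h3 : 1 ≤ tt G i * q := Nat.mul_pos (tt_pos G i) hq.1
          have h3' : (1 : ℝ) ≤ ((tt G i * q : ℕ) : ℝ) := by exact_mod_cast h3
          have h4 : 577 / (ta G i / 2) ^ 2 ≤ (p : ℝ) := by
            have h5 := ta_ge_G (G := G) i
            have h6 : 1 / (2 * G) ≤ ta G i / 2 := by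
              have : 1 / (2 * G) = (1 / G) / 2 := by field_simp
              rw [this]
              linarith
            have h7 : (1 / (2 * G)) ^ 2 ≤ (ta G i / 2) ^ 2 :=
              pow_le_pow_left₀ (by positivity) h6 2
            have h8 : 577 / (ta G i / 2) ^ 2 ≤ 577 / (1 / (2 * G)) ^ 2 :=
              div_le_div_of_nonneg_left (by norm_num) (by positivity) h7
            have h9 : 577 / (1 / (2 * G)) ^ 2 = 2308 * G ^ 2 := by
              field_simp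
              ring
            nlinarith [sq_nonneg G]
          have h5 := hBAD p b (tt G i * q) x (ta G i / 2) hp hpb hbI.1 h3 (by positivity)
            (by linarith) h4
          have h6 : ((B b i q).card : ℝ) ≤ (((range p).filter fun r : ℕ =>
              ¬ Balanced b (ta G i / 2) (tt G i * q) (x + (r : ℝ) / (p : ℝ))).card : ℝ) := by
            have h7 : B b i q ⊆ ((range p).filter fun r : ℕ =>
              ¬ Balanced b (ta G i / 2) (tt G i * q) (x + (r : ℝ) / (p : ℝ))) := by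
              intro r hr
              rw [hB] at hr
              simp only at hr
              rw [Finset.mem_filter] at hr ⊢
              exact ⟨hr.1, hr.2.2⟩
            exact_mod_cast Finset.card_le_card h7
          refine (h6.trans h5).trans ?_
          refine mul_le_mul_of_nonneg_left (add_le_add ?_ ?_) (by positivity)
          · exact one_div_le_one_div_of_le hT hTb
          · have h8 : (2 : ℝ) ^ i ≤ 2 * ((tt G i * q : ℕ) : ℝ) := by exact_mod_cast hc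
            rw [div_le_div_iff₀ (by linarith) (by positivity)]
            linarith
        · have h3 : B b i q = ∅ := by
            rw [hB]
            simp only
            rw [Finset.filter_eq_empty_iff]
            intro r _ h4
            exact hc h4.1
          rw [h3, Finset.card_empty, Nat.cast_zero]
          positivity
      refine (Finset.sum_le_sum h2).trans ?_
      rw [Finset.sum_const, nsmul_eq_mul, Nat.card_Icc, Nat.add_sub_cancel]
      exact inner hp0 hG hT i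
    refine (Finset.sum_le_sum h1).trans ?_
    rw [← Finset.mul_sum, Finset.sum_add_distrib, Finset.sum_const, nsmul_eq_mul, ← Finset.mul_sum]
    refine mul_le_mul_of_nonneg_left (add_le_add ?_ ?_) (by positivity)
    · have h2 : ((I b).card : ℝ) ≤ 2 * G := by
        have h3 : (I b).card ≤ n := by
          have h4 : (I b).card ≤ (range n).card := Finset.card_filter_le _ _
          rwa [card_range] at h4
        have h5 : (n : ℝ) ≤ 2 * G := Nat.floor_le (by linarith)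
        have h6 : ((I b).card : ℝ) ≤ n := by exact_mod_cast h3
        linarith
      calc ((I b).card : ℝ) * (G ^ 4 / T) ≤ 2 * G * (G ^ 4 / T) :=
            mul_le_mul_of_nonneg_right h2 (by positivity)
        _ = 2 * G ^ 5 / T := by ring
    · have h9 : (sg ^ 4) ^ 2 = 2 := by rw [← pow_mul]; exact sg_pow
      have h10 : 1 < sg ^ 4 := one_lt_pow₀ hs (by norm_num)
      have h11 := geo (sg ^ 4) h10 h9 n (((b : ℝ) / δ) ^ 4) (((b : ℝ) / δ) ^ 2) (by positivity)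
        (by rw [← pow_mul])
      have h12 : 5 / ((b : ℝ) / δ) ^ 2 = 5 * (δ ^ 2 * (1 / (b : ℝ) ^ 2)) := by
        field_simp
      rw [h12] at h11
      have h13 : ∑ i ∈ I b, 1 / (sg ^ 4) ^ i ≤ 5 * (δ ^ 2 * (1 / (b : ℝ) ^ 2)) := h11
      linarith
  refine (Finset.sum_le_sum hbase).trans ?_
  rw [← Finset.mul_sum, Finset.sum_add_distrib, Finset.sum_const, nsmul_eq_mul, ← Finset.mul_sum,
    ← Finset.mul_sum]
  have h1 : ((Icc 2 ⌊G⌋₊).card : ℝ) ≤ G := by
    rw [Nat.card_Icc]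
    have h2 : ((⌊G⌋₊ + 1 - 2 : ℕ) : ℝ) ≤ (⌊G⌋₊ : ℝ) := by
      exact_mod_cast (show ⌊G⌋₊ + 1 - 2 ≤ ⌊G⌋₊ by omega)
    have h3 : ((⌊G⌋₊ : ℕ) : ℝ) ≤ G := Nat.floor_le (by linarith)
    linarith
  have h2 := sum_sq ⌊G⌋₊
  have h3 : ((Icc 2 ⌊G⌋₊).card : ℝ) * (2 * G ^ 5 / T) ≤ 2 * (G ^ 6 / T) := by
    calc ((Icc 2 ⌊G⌋₊).card : ℝ) * (2 * G ^ 5 / T) ≤ G * (2 * G ^ 5 / T) :=
          mul_le_mul_of_nonneg_right h1 (by positivity)
      _ = 2 * (G ^ 6 / T) := by ring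
  have h4 : 15 * (δ ^ 2 * ∑ b ∈ Icc 2 ⌊G⌋₊, 1 / (b : ℝ) ^ 2) ≤ 15 * δ ^ 2 := by
    have : δ ^ 2 * ∑ b ∈ Icc 2 ⌊G⌋₊, 1 / (b : ℝ) ^ 2 ≤ δ ^ 2 * 1 :=
      mul_le_mul_of_nonneg_left h2 (by positivity)
    linarith
  have h5 : 0 ≤ G ^ 6 / T := by positivity
  have h6 : 819200 * (p : ℝ) * (((Icc 2 ⌊G⌋₊).card : ℝ) * (2 * G ^ 5 / T)
      + 15 * (δ ^ 2 * ∑ b ∈ Icc 2 ⌊G⌋₊, 1 / (b : ℝ) ^ 2))
      ≤ 819200 * (p : ℝ) * (15 * (δ ^ 2 + G ^ 6 / T)) :=
    mul_le_mul_of_nonneg_left (by linarith) (by positivity)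
  refine h6.trans (le_of_eq ?_)
  ring

end Pool.Agent.Lib.MP_5b6025_nt.FE
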