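import Pool.Agent.Lib.MP_5b6025_nt.FE.Spec

/-!
# Module GD2: property (2) for most translates
-/

set_option autoImplicit false

open Finset

namespace Pool.Agent.Lib.MP_5b6025_nt.FE

namespace GD2

open scoped Classical in
theorem level (hBAD : SpecBAD) (p : ℕ) (G T x : ℝ) (hG : 2 ≤ G) (hT : 0 < T) (hp : PrimeOK G T p)
    (hp2 : 2500 * G ^ 2 ≤ (p : ℝ)) (N : ℕ) (hN : 1 ≤ N) :
    (((range p).filter fun r : ℕ => ¬ ∀ b : ℕ, 2 ≤ b → (b : ℝ) ≤ G →
      Balanced b (1 / G) N (x + (r : ℝ) / (p : ℝ))).card : ℝ) ≤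
      6400 * (p : ℝ) * G ^ 4 * (1 / T + 1 / (N : ℝ)) := by
  obtain ⟨hpp, hTp, hb⟩ := hp
  have hG0 : 0 < G := by linarith
  have hp0 : (0 : ℝ) < p := by exact_mod_cast hpp.pos
  have hN0 : (0 : ℝ) < N := by exact_mod_cast hN
  have h1 : ((range p).filter fun r : ℕ => ¬ ∀ b : ℕ, 2 ≤ b → (b : ℝ) ≤ G →
      Balanced b (1 / G) N (x + (r : ℝ) / (p : ℝ))) ⊆
      (Icc 2 ⌊G⌋₊).biUnion fun b => (range p).filter fun r : ℕ => ¬ Balanced b (1 / G) N (x + (r : ℝ) / (p : ℝ)) := by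
    intro r hr
    rw [mem_filter] at hr
    obtain ⟨hr1, hr2⟩ := hr
    push Not at hr2
    obtain ⟨b, hb2, hbG, hbB⟩ := hr2
    rw [mem_biUnion]
    exact ⟨b, mem_Icc.2 ⟨hb2, Nat.le_floor hbG⟩, mem_filter.2 ⟨hr1, hbB⟩⟩
  have h2 : ∀ b ∈ Icc 2 ⌊G⌋₊, (((range p).filter fun r : ℕ =>
      ¬ Balanced b (1 / G) N (x + (r : ℝ) / (p : ℝ))).card : ℝ) ≤ 6400 * (p : ℝ) * G ^ 3 * (1 / T + 1 / (N : ℝ)) := by
    intro b hbm
    rw [mem_Icc] at hbm
    have hbG : (b : ℝ) ≤ G := (Nat.cast_le.2 hbm.2).trans (Nat.floor_le hG0.le)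
    obtain ⟨h3, h4⟩ := hb b hbm.1 hbG
    have h5 := hBAD p b N x (1 / G) hpp h3 hbm.1 hN (by positivity) (by
      rw [div_le_one hG0]
      linarith) (by
      rw [one_div, inv_pow, div_inv_eq_mul]
      nlinarith)
    refine h5.trans ?_
    have h6 : 6400 * (p : ℝ) / (1 / G) ^ 3 = 6400 * (p : ℝ) * G ^ 3 := by
      field_simp
    rw [h6]
    apply mul_le_mul_of_nonneg_left _ (by positivity)
    have h7 : 1 / (orderOf (b : ZMod p) : ℝ) ≤ 1 / T := one_div_le_one_div_of_le hT h4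
    linarith
  have h3 : (((range p).filter fun r : ℕ => ¬ ∀ b : ℕ, 2 ≤ b → (b : ℝ) ≤ G →
      Balanced b (1 / G) N (x + (r : ℝ) / (p : ℝ))).card : ℝ) ≤
      ∑ b ∈ Icc 2 ⌊G⌋₊, (((range p).filter fun r : ℕ =>
        ¬ Balanced b (1 / G) N (x + (r : ℝ) / (p : ℝ))).card : ℝ) := by
    have h4 := (card_le_card h1).trans card_biUnion_le
    exact_mod_cast h4
  have h4 : ((Icc 2 ⌊G⌋₊).card : ℝ) ≤ G := by
    rw [Nat.card_Icc]
    have h5 : ((⌊G⌋₊ + 1 - 2 : ℕ) : ℝ) ≤ (⌊G⌋₊ : ℝ) := by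
      apply Nat.cast_le.2
      omega
    exact h5.trans (Nat.floor_le hG0.le)
  calc _ ≤ ∑ b ∈ Icc 2 ⌊G⌋₊, (((range p).filter fun r : ℕ =>
        ¬ Balanced b (1 / G) N (x + (r : ℝ) / (p : ℝ))).card : ℝ) := h3
    _ ≤ ∑ b ∈ Icc 2 ⌊G⌋₊, 6400 * (p : ℝ) * G ^ 3 * (1 / T + 1 / (N : ℝ)) := sum_le_sum h2
    _ = ((Icc 2 ⌊G⌋₊).card : ℝ) * (6400 * (p : ℝ) * G ^ 3 * (1 / T + 1 / (N : ℝ))) := by
        rw [sum_const, nsmul_eq_mul]
    _ ≤ G * (6400 * (p : ℝ) * G ^ 3 * (1 / T + 1 / (N : ℝ))) :=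
        mul_le_mul_of_nonneg_right h4 (by positivity)
    _ = _ := by ring

theorem harm (T : ℝ) (hT : 0 < T) (M : ℕ) :
    ∑ N ∈ Ico 1 M, (1 / T + 1 / (N : ℝ)) ≤ 2 * ((M : ℝ) / T) + (T + 1) := by
  classical
  have h1 : ∀ N ∈ Ico 1 M, (1 / T + 1 / (N : ℝ)) ≤ 2 / T + (if (N : ℝ) < T then (1 : ℝ) else 0) := by
    intro N hN
    rw [mem_Ico] at hN
    have hN1 : (1 : ℝ) ≤ N := by exact_mod_cast hN.1
    have hN0 : (0 : ℝ) < N := by linarith
    split_ifs with h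
    · have h2 : 1 / (N : ℝ) ≤ 1 := by
        rw [div_le_one hN0]
        exact hN1
      have h3 : 1 / T ≤ 2 / T := by
        apply div_le_div_of_nonneg_right _ hT.le
        norm_num
      linarith
    · have h2 : 1 / (N : ℝ) ≤ 1 / T := one_div_le_one_div_of_le hT (not_lt.1 h)
      have h3 : 2 / T = 1 / T + 1 / T := by ring
      linarith
  calc ∑ N ∈ Ico 1 M, (1 / T + 1 / (N : ℝ)) ≤ ∑ N ∈ Ico 1 M, (2 / T + (if (N : ℝ) < T then (1 : ℝ) else 0)) :=
        sum_le_sum h1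
    _ = ((Ico 1 M).card : ℝ) * (2 / T) + (((Ico 1 M).filter fun N : ℕ => (N : ℝ) < T).card : ℝ) := by
        rw [sum_add_distrib, sum_const, nsmul_eq_mul, ← sum_filter, sum_const, nsmul_eq_mul, mul_one]
    _ ≤ (M : ℝ) * (2 / T) + (T + 1) := by
        apply add_le_add
        · apply mul_le_mul_of_nonneg_right _ (by positivity)
          rw [Nat.card_Ico]
          apply Nat.cast_le.2
          omega
        · have h2 : ((Ico 1 M).filter fun N : ℕ => (N : ℝ) < T) ⊆ range ⌈T⌉₊ := by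
            intro N hN
            rw [mem_filter] at hN
            rw [mem_range]
            exact Nat.lt_ceil.2 hN.2
          have h3 := card_le_card h2
          rw [card_range] at h3
          exact (Nat.cast_le.2 h3).trans (Nat.ceil_lt_add_one hT.le).le
    _ = _ := by ring

end GD2

open GD2 in
open scoped Classical in
/-- **GD2**. -/
theorem specGD2 (hBAD : SpecBAD) : SpecGD2 := by
  refine ⟨25600, by norm_num, ?_⟩
  intro p G T x hG hT hp hp2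
  have hG0 : 0 < G := by linarith
  have hp0 : (0 : ℝ) < p := by exact_mod_cast hp.1.pos
  obtain ⟨bad, hbad⟩ : ∃ bad : ℕ → ℕ → Prop, bad = fun (r N : ℕ) => ¬ ∀ b : ℕ, 2 ≤ b → (b : ℝ) ≤ G →
      Balanced b (1 / G) N (x + (r : ℝ) / (p : ℝ)) := ⟨_, rfl⟩
  set Y := (range p).filter fun r : ℕ => ¬ Good2 G (x + (r : ℝ) / (p : ℝ)) with hY
  have h1 : ∀ r ∈ Y, ∃ m : ℕ, ∀ M : ℕ, m ≤ M → 0 < M → (M : ℝ) / G < (((range M).filter (bad r)).card : ℝ) := by
    intro r hr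
    have h2 := (mem_filter.1 hr).2
    unfold Good2 at h2
    push Not at h2
    obtain ⟨m, hm⟩ := h2
    refine ⟨m, fun M h3 h4 => ?_⟩
    have h5 := hm M h3 h4
    have h6 : ({N : ℕ | N < M ∧ bad r N}).ncard = ((range M).filter (bad r)).card := ncard_lt_eq M (bad r)
    rw [← h6]
    have h7 : ({N : ℕ | N < M ∧ bad r N}) = {N : ℕ | N < M ∧ ∃ b : ℕ, 2 ≤ b ∧ (b : ℝ) ≤ G ∧
        ¬ Balanced b (1 / G) N (x + (r : ℝ) / (p : ℝ))} := by
      rw [hbad]
      push Not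
      rfl
    rw [h7]
    exact h5
  choose! f hf using h1
  obtain ⟨M1, hM1⟩ := exists_nat_ge (T * (T + 1) + T + 1)
  set M := max (Y.sup f) M1 with hM
  have hMf : ∀ r ∈ Y, f r ≤ M := fun r hr => (le_sup hr).trans (le_max_left _ _)
  have hM1' : T * (T + 1) + T + 1 ≤ (M : ℝ) := hM1.trans (Nat.cast_le.2 (le_max_right _ _))
  have hMpos : 0 < M := by
    have : (0 : ℝ) < (M : ℝ) := by nlinarith
    exact_mod_cast this
  have hM0 : (0 : ℝ) < (M : ℝ) := by exact_mod_cast hMpos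
  -- double counting
  have h2 : ∑ r ∈ range p, (((range M).filter (bad r)).card : ℝ) =
      ∑ N ∈ range M, (((range p).filter fun r => bad r N).card : ℝ) := by
    have h3 : ∀ r ∈ range p, (((range M).filter (bad r)).card : ℝ) = ∑ N ∈ range M, (if bad r N then (1 : ℝ) else 0) := by
      intro r _
      rw [← sum_filter, sum_const, nsmul_eq_mul, mul_one]
    have h4 : ∀ N ∈ range M, (((range p).filter fun r => bad r N).card : ℝ) =
        ∑ r ∈ range p, (if bad r N then (1 : ℝ) else 0) := by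
      intro N _
      rw [← sum_filter, sum_const, nsmul_eq_mul, mul_one]
    rw [sum_congr rfl h3, sum_congr rfl h4, sum_comm]
  have h3 : ∑ N ∈ range M, (((range p).filter fun r => bad r N).card : ℝ) ≤
      (p : ℝ) + ∑ N ∈ Ico 1 M, 6400 * (p : ℝ) * G ^ 4 * (1 / T + 1 / (N : ℝ)) := by
    rw [range_eq_Ico, sum_eq_sum_Ico_succ_bot hMpos]
    apply add_le_add
    · have h4 := card_filter_le (range p) (fun r => bad r 0)
      rw [card_range] at h4
      exact Nat.cast_le.2 h4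
    · apply sum_le_sum
      intro N hN
      rw [mem_Ico] at hN
      have h4 := level hBAD p G T x hG hT hp hp2 N (by omega)
      refine le_of_eq_of_le ?_ h4
      congr 2
      ext r
      simp only [mem_filter, hbad]
  rw [← mul_sum] at h3
  have h4 := harm T hT M
  have h5 : (T + 1) ≤ (M : ℝ) / T := by
    rw [le_div_iff₀ hT]
    nlinarith
  have h6 : (1 : ℝ) ≤ (M : ℝ) / T := by linarith
  have hG4 : 1 ≤ G ^ 4 := by
    have : (1 : ℝ) ≤ G := by linarith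
    exact one_le_pow₀ this
  have h7 : ∑ r ∈ range p, (((range M).filter (bad r)).card : ℝ) ≤ 25600 * (p : ℝ) * G ^ 4 * ((M : ℝ) / T) := by
    rw [h2]
    refine h3.trans ?_
    have h8 : 6400 * (p : ℝ) * G ^ 4 * ∑ N ∈ Ico 1 M, (1 / T + 1 / (N : ℝ)) ≤
        6400 * (p : ℝ) * G ^ 4 * (3 * ((M : ℝ) / T)) :=
      mul_le_mul_of_nonneg_left (by linarith) (by positivity)
    have h9 : (p : ℝ) ≤ 6400 * (p : ℝ) * G ^ 4 * ((M : ℝ) / T) := by
      have h10 : (1 : ℝ) ≤ 6400 * G ^ 4 * ((M : ℝ) / T) := by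
        have : (1 : ℝ) ≤ G ^ 4 * ((M : ℝ) / T) := one_le_mul_of_one_le_of_one_le hG4 h6
        nlinarith
      nlinarith
    linarith
  have h8 : (Y.card : ℝ) * ((M : ℝ) / G) ≤ ∑ r ∈ range p, (((range M).filter (bad r)).card : ℝ) := by
    calc (Y.card : ℝ) * ((M : ℝ) / G) = ∑ r ∈ Y, (M : ℝ) / G := by
          rw [sum_const, nsmul_eq_mul]
      _ ≤ ∑ r ∈ Y, (((range M).filter (bad r)).card : ℝ) :=
          sum_le_sum fun r hr => (hf r hr M (hMf r hr) hMpos).le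
      _ ≤ _ := sum_le_sum_of_subset_of_nonneg (filter_subset _ _) (fun r _ _ => Nat.cast_nonneg _)
  have h9 : (Y.card : ℝ) * ((M : ℝ) / G) ≤ 25600 * (p : ℝ) * G ^ 4 * ((M : ℝ) / T) := h8.trans h7
  have h10 : (Y.card : ℝ) ≤ 25600 * (p : ℝ) * (G ^ 5 / T) := by
    have h11 : 0 < (M : ℝ) / G := by positivity
    have h12 : 25600 * (p : ℝ) * G ^ 4 * ((M : ℝ) / T) = (25600 * (p : ℝ) * (G ^ 5 / T)) * ((M : ℝ) / G) := by
      field_simp
    rw [h12] at h9
    exact le_of_mul_le_mul_right h9 h11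
  refine h10.trans ?_
  apply mul_le_mul_of_nonneg_left _ (by positivity)
  apply div_le_div_of_nonneg_right _ hT.le
  exact pow_le_pow_right₀ (by linarith) (by norm_num)

end Pool.Agent.Lib.MP_5b6025_nt.FE
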