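import Pool.Agent.Lib.MP_5b6025_nt.FE.Spec

/-!
# RES: from a divisor `p` to `s`
-/

set_option autoImplicit false

open Finset

namespace Pool.Agent.Lib.MP_5b6025_nt.FE

theorem specRES : SpecRES := by
  classical
  intro P ε p s hp hs hps h x
  obtain ⟨q, rfl⟩ := hps
  have hq : 0 < q := by
    rcases Nat.eq_zero_or_pos q with h0 | h0
    · subst h0
      omega
    · exact h0
  have hq' : (q : ℝ) ≠ 0 := by exact_mod_cast hq.ne'
  have hp' : (p : ℝ) ≠ 0 := by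
    have : 0 < p := hp
    exact_mod_cast this.ne'
  -- the classes modulo `q`
  have hsub : ((range (p * q)).filter fun r : ℕ => ¬ P (x + (r : ℝ) / ((p * q : ℕ) : ℝ))) ⊆
      (range q).biUnion fun r₀ => ((range p).filter fun r₁ : ℕ =>
        ¬ P (x + (r₀ : ℝ) / ((p * q : ℕ) : ℝ) + (r₁ : ℝ) / (p : ℝ))).image fun r₁ => r₀ + q * r₁ := by
    intro r hr
    rw [mem_filter, mem_range] at hr
    rw [mem_biUnion]
    refine ⟨r % q, mem_range.2 (Nat.mod_lt _ hq), ?_⟩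
    rw [mem_image]
    refine ⟨r / q, ?_, Nat.mod_add_div r q⟩
    rw [mem_filter, mem_range]
    refine ⟨Nat.div_lt_of_lt_mul (by rw [mul_comm q p]; exact hr.1), ?_⟩
    have e : x + ((r % q : ℕ) : ℝ) / ((p * q : ℕ) : ℝ) + ((r / q : ℕ) : ℝ) / (p : ℝ) =
        x + (r : ℝ) / ((p * q : ℕ) : ℝ) := by
      have h1 : (r : ℝ) = ((r % q : ℕ) : ℝ) + (q : ℝ) * ((r / q : ℕ) : ℝ) := by
        exact_mod_cast (Nat.mod_add_div r q).symm
      rw [h1]
      push_cast
      field_simp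
      ring
    rw [e]
    exact hr.2
  have h1 : (((range (p * q)).filter fun r : ℕ =>
      ¬ P (x + (r : ℝ) / ((p * q : ℕ) : ℝ))).card : ℝ) ≤ ∑ r₀ ∈ range q, ε * (p : ℝ) := by
    calc _ ≤ (((range q).biUnion fun r₀ => ((range p).filter fun r₁ : ℕ =>
          ¬ P (x + (r₀ : ℝ) / ((p * q : ℕ) : ℝ) + (r₁ : ℝ) / (p : ℝ))).image
            fun r₁ => r₀ + q * r₁).card : ℝ) := by
          exact_mod_cast card_le_card hsub
      _ ≤ ((∑ r₀ ∈ range q, (((range p).filter fun r₁ : ℕ =>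
          ¬ P (x + (r₀ : ℝ) / ((p * q : ℕ) : ℝ) + (r₁ : ℝ) / (p : ℝ))).image
            fun r₁ => r₀ + q * r₁).card : ℕ) : ℝ) := by
          exact_mod_cast card_biUnion_le
      _ = ∑ r₀ ∈ range q, ((((range p).filter fun r₁ : ℕ =>
          ¬ P (x + (r₀ : ℝ) / ((p * q : ℕ) : ℝ) + (r₁ : ℝ) / (p : ℝ))).image
            fun r₁ => r₀ + q * r₁).card : ℝ) := by
          push_cast
          rfl
      _ ≤ ∑ r₀ ∈ range q, ε * (p : ℝ) := by
          refine sum_le_sum fun r₀ _ => ?_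
          refine le_trans ?_ (h (x + (r₀ : ℝ) / ((p * q : ℕ) : ℝ)))
          exact_mod_cast card_image_le
  rw [sum_const, card_range, nsmul_eq_mul] at h1
  calc _ ≤ (q : ℝ) * (ε * (p : ℝ)) := h1
    _ = ε * ((p * q : ℕ) : ℝ) := by push_cast; ring

end Pool.Agent.Lib.MP_5b6025_nt.FE
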