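import Pool.Agent.Lib.MP_5b6025_nt.FE.Spec

/-!
From level `N'` to level `N ≥ N'` (module SCL).
-/

set_option autoImplicit false

open Finset

namespace Pool.Agent.Lib.MP_5b6025_nt.FE

namespace SCL

lemma aux (c c' N N' q τ : ℝ) (hN' : 1 ≤ N') (hNN : N' ≤ N) (hc0 : 0 ≤ c') (hcc : c' ≤ c)
    (hcN : c' ≤ N') (hcd : c ≤ c' + (N - N')) (h : |c' / N' - q| ≤ τ) :
    |c / N - q| ≤ τ + (N - N') / N := by
  have hN'0 : 0 < N' := by linarith
  have hN0 : 0 < N := by linarith
  have h1 : c / N ≤ c' / N' + (N - N') / N := by
    have h2 : c' / N ≤ c' / N' := div_le_div_of_nonneg_left hc0 hN'0 hNN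
    have h3 : c / N ≤ (c' + (N - N')) / N := div_le_div_of_nonneg_right hcd hN0.le
    rw [add_div] at h3
    linarith
  have h2 : c' / N' - (N - N') / N ≤ c / N := by
    have h4 : c' / N ≤ c / N := div_le_div_of_nonneg_right hcc hN0.le
    have h5 : c' / N' - (N - N') / N ≤ c' / N := by
      have h6 : c' / N' - c' / N = (c' / N') * ((N - N') / N) := by
        field_simp
      have h7 : c' / N' ≤ 1 := (div_le_one hN'0).mpr hcN
      have h8 : 0 ≤ (N - N') / N := div_nonneg (by linarith) hN0.le
      have h9 : (c' / N') * ((N - N') / N) ≤ 1 * ((N - N') / N) :=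
        mul_le_mul_of_nonneg_right h7 h8
      linarith
    linarith
  rw [abs_le] at h ⊢
  constructor <;> linarith [h.1, h.2]

end SCL

theorem specSCL : SpecSCL := by
  intro b N N' τ x hN' hNN hB k w hw
  have h := hB k w hw
  set P : ℕ → Prop := fun n => ∀ j : Fin k, digit b x (n + j) = w j with hP
  have hsub : range N' ⊆ range N := range_subset_range.mpr hNN
  have hcc : (((range N').filter P).card) ≤ ((range N).filter P).card :=
    card_le_card (filter_subset_filter _ hsub)
  have hcN : (((range N').filter P).card) ≤ N' := by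
    simpa using card_filter_le (range N') P
  have hcd : (((range N).filter P).card) ≤ ((range N').filter P).card + (N - N') := by
    have h1 : (range N).filter P ⊆ (range N').filter P ∪ (Ico N' N) := by
      intro n hn
      rw [mem_filter, mem_range] at hn
      rw [mem_union, mem_filter, mem_range, mem_Ico]
      by_cases hlt : n < N'
      · exact Or.inl ⟨hlt, hn.2⟩
      · exact Or.inr ⟨by omega, hn.1⟩
    calc (((range N).filter P).card) ≤ ((range N').filter P ∪ (Ico N' N)).card := card_le_card h1
      _ ≤ ((range N').filter P).card + (Ico N' N).card := card_union_le _ _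
      _ = _ := by rw [Nat.card_Ico]
  refine SCL.aux _ _ _ _ _ _ (by exact_mod_cast hN') (by exact_mod_cast hNN) (by positivity)
    (by exact_mod_cast hcc) (by exact_mod_cast hcN) ?_ h
  have h2 : ((((range N).filter P).card : ℕ) : ℝ) ≤ ((((range N').filter P).card + (N - N') : ℕ) : ℝ) := by
    exact_mod_cast hcd
  rw [Nat.cast_add, Nat.cast_sub hNN] at h2
  exact h2

end Pool.Agent.Lib.MP_5b6025_nt.FE
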