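import Pool.Agent.Lib.MP_5b6025_nt.FE.Spec

/-!
# Module SML: few numbers have a large prime factor modulo which some small base has small order
-/

set_option autoImplicit false

open Finset

namespace Pool.Agent.Lib.MP_5b6025_nt.FE

namespace SML

/-- the number of prime factors of `b ^ j - 1` -/
theorem card_pf {b j : ℕ} (hb : 2 ≤ b) (hj : 1 ≤ j) : (b ^ j - 1).primeFactors.card ≤ b * j := by
  have h1 : 1 < b ^ j := Nat.one_lt_pow (by omega) (by omega)
  have h2 : 2 ^ (b ^ j - 1).primeFactors.card ≤ ∏ p ∈ (b ^ j - 1).primeFactors, p :=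
    Finset.pow_card_le_prod _ _ _ fun p hp => (Nat.prime_of_mem_primeFactors hp).two_le
  have h3 : ∏ p ∈ (b ^ j - 1).primeFactors, p ≤ b ^ j - 1 :=
    Nat.le_of_dvd (by omega) (Nat.prod_primeFactors_dvd _)
  have h4 : b ^ j ≤ (2 ^ b) ^ j := Nat.pow_le_pow_left Nat.lt_two_pow_self.le j
  rw [← pow_mul] at h4
  have h5 : 2 ^ (b ^ j - 1).primeFactors.card ≤ 2 ^ (b * j) := by omega
  exact (Nat.pow_le_pow_iff_right (by norm_num)).1 h5

theorem card_mult (H p : ℕ) : (((Icc 1 H).filter fun s : ℕ => p ∣ s)).card = H / p := by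
  have h : Icc 1 H = Ioc 0 H := by
    ext x
    simp only [Finset.mem_Icc, Finset.mem_Ioc]
    omega
  rw [h, Nat.Ioc_filter_dvd_card_eq_div]

end SML

open scoped Classical in
theorem specSML : SpecSML := by
  intro H y G T hy hG hGy hT
  set A := (Icc 1 H).filter fun s : ℕ => ∃ p : ℕ, p.Prime ∧ p ∣ s ∧ y < (p : ℝ) ∧
      ∃ b : ℕ, 2 ≤ b ∧ (b : ℝ) ≤ G ∧ (orderOf (b : ZMod p) : ℝ) < T with hA
  set B : Finset ℕ := Icc 2 ⌊G⌋₊ with hB
  set J : Finset ℕ := Ico 1 ⌈T⌉₊ with hJ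
  set P : ℕ → ℕ → Finset ℕ := fun b j => (b ^ j - 1).primeFactors.filter fun p => y < (p : ℝ)
    with hP
  have hsub : A ⊆ B.biUnion fun b => J.biUnion fun j => (P b j).biUnion fun p =>
      (Icc 1 H).filter fun s : ℕ => p ∣ s := by
    intro s hs
    rw [hA, Finset.mem_filter] at hs
    obtain ⟨hs1, p, hp, hps, hyp, b, hb2, hbG, hord⟩ := hs
    have hFp : Fact p.Prime := ⟨hp⟩
    have hbp : b < p := by
      have : (b : ℝ) < (p : ℝ) := lt_of_le_of_lt (hbG.trans hGy) hyp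
      exact_mod_cast this
    have hcop : Nat.Coprime b p := by
      rw [Nat.coprime_comm, Nat.Prime.coprime_iff_not_dvd hp]
      intro hd
      have := Nat.le_of_dvd (by omega) hd
      omega
    have hunit : IsUnit (b : ZMod p) := (ZMod.isUnit_iff_coprime b p).2 hcop
    have hpos : 0 < orderOf (b : ZMod p) := by
      obtain ⟨u, hu⟩ := hunit
      rw [← hu, orderOf_units]
      exact orderOf_pos u
    have hpow : (b : ZMod p) ^ orderOf (b : ZMod p) = 1 := pow_orderOf_eq_one _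
    have hge : 1 ≤ b ^ orderOf (b : ZMod p) := Nat.one_le_pow _ _ (by omega)
    have hdvd : p ∣ b ^ orderOf (b : ZMod p) - 1 := by
      rw [← ZMod.natCast_eq_zero_iff, Nat.cast_sub hge, Nat.cast_pow, hpow, Nat.cast_one, sub_self]
    rw [Finset.mem_biUnion]
    refine ⟨b, ?_, ?_⟩
    · rw [hB, Finset.mem_Icc]
      exact ⟨hb2, Nat.le_floor hbG⟩
    · rw [Finset.mem_biUnion]
      refine ⟨orderOf (b : ZMod p), ?_, ?_⟩
      · rw [hJ, Finset.mem_Ico]
        exact ⟨hpos, Nat.lt_ceil.2 hord⟩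
      · rw [Finset.mem_biUnion]
        refine ⟨p, ?_, ?_⟩
        · rw [hP]
          simp only [Finset.mem_filter, Nat.mem_primeFactors]
          refine ⟨⟨hp, hdvd, ?_⟩, hyp⟩
          have : 1 < b ^ orderOf (b : ZMod p) := Nat.one_lt_pow (by omega) (by omega)
          omega
        · rw [Finset.mem_filter]
          exact ⟨hs1, hps⟩
  have hy0 : (0 : ℝ) < y := by linarith
  have h1 : (A.card : ℝ) ≤ ∑ b ∈ B, ∑ j ∈ J, ∑ p ∈ P b j, ((H / p : ℕ) : ℝ) := by
    have e1 := Finset.card_le_card hsub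
    have e2 : (B.biUnion fun b => J.biUnion fun j => (P b j).biUnion fun p =>
        (Icc 1 H).filter fun s : ℕ => p ∣ s).card ≤ ∑ b ∈ B, ∑ j ∈ J, ∑ p ∈ P b j, H / p := by
      refine Finset.card_biUnion_le.trans (Finset.sum_le_sum fun b _ => ?_)
      refine Finset.card_biUnion_le.trans (Finset.sum_le_sum fun j _ => ?_)
      refine Finset.card_biUnion_le.trans (Finset.sum_le_sum fun p _ => ?_)
      exact (SML.card_mult H p).le
    have e3 := e1.trans e2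
    exact_mod_cast e3
  have h2 : ∀ b ∈ B, ∀ j ∈ J, ∑ p ∈ P b j, ((H / p : ℕ) : ℝ) ≤ G * T * (H : ℝ) / y := by
    intro b hb j hj
    rw [hB, Finset.mem_Icc] at hb
    rw [hJ, Finset.mem_Ico] at hj
    have hbG : (b : ℝ) ≤ G := (Nat.le_floor_iff hG).1 hb.2
    have hjT : (j : ℝ) ≤ T := (Nat.lt_ceil.1 hj.2).le
    have e1 : ∑ p ∈ P b j, ((H / p : ℕ) : ℝ) ≤ ∑ p ∈ P b j, (H : ℝ) / y := by
      refine Finset.sum_le_sum fun p hp => ?_
      rw [hP] at hp
      simp only [Finset.mem_filter] at hp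
      refine Nat.cast_div_le.trans ?_
      exact div_le_div_of_nonneg_left (Nat.cast_nonneg H) hy0 hp.2.le
    rw [Finset.sum_const, nsmul_eq_mul] at e1
    have e2 : ((P b j).card : ℝ) ≤ (b : ℝ) * j := by
      have e3 : (P b j).card ≤ b * j := (Finset.card_filter_le _ _).trans (SML.card_pf hb.1 hj.1)
      exact_mod_cast e3
    have e3 : ((P b j).card : ℝ) ≤ G * T :=
      e2.trans (mul_le_mul hbG hjT (Nat.cast_nonneg j) hG)
    have e4 : (0 : ℝ) ≤ (H : ℝ) / y := by positivity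
    calc ∑ p ∈ P b j, ((H / p : ℕ) : ℝ) ≤ ((P b j).card : ℝ) * ((H : ℝ) / y) := e1
      _ ≤ G * T * ((H : ℝ) / y) := mul_le_mul_of_nonneg_right e3 e4
      _ = G * T * (H : ℝ) / y := by ring
  have h3 : (B.card : ℝ) ≤ G := by
    rw [hB, Nat.card_Icc]
    have e1 : ⌊G⌋₊ + 1 - 2 ≤ ⌊G⌋₊ := by omega
    have e2 : ((⌊G⌋₊ + 1 - 2 : ℕ) : ℝ) ≤ (⌊G⌋₊ : ℝ) := by exact_mod_cast e1
    exact e2.trans (Nat.floor_le hG)
  have h4 : (J.card : ℝ) ≤ T := by
    rw [hJ, Nat.card_Ico]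
    rcases Nat.eq_zero_or_pos ⌈T⌉₊ with h0 | h0
    · rw [h0]
      simpa using hT
    · have e1 : ((⌈T⌉₊ - 1 : ℕ) : ℝ) = (⌈T⌉₊ : ℝ) - 1 := by
        rw [Nat.cast_sub h0, Nat.cast_one]
      rw [e1]
      have := Nat.ceil_lt_add_one hT
      linarith
  have hK : (0 : ℝ) ≤ G * T * (H : ℝ) / y := by positivity
  calc (A.card : ℝ) ≤ ∑ b ∈ B, ∑ j ∈ J, ∑ p ∈ P b j, ((H / p : ℕ) : ℝ) := h1
    _ ≤ ∑ b ∈ B, ∑ j ∈ J, G * T * (H : ℝ) / y :=
        Finset.sum_le_sum fun b hb => Finset.sum_le_sum fun j hj => h2 b hb j hj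
    _ = (B.card : ℝ) * ((J.card : ℝ) * (G * T * (H : ℝ) / y)) := by
        rw [Finset.sum_const, Finset.sum_const, nsmul_eq_mul, nsmul_eq_mul]
    _ ≤ G * (T * (G * T * (H : ℝ) / y)) :=
        mul_le_mul h3 (mul_le_mul_of_nonneg_right h4 hK) (by positivity) hG
    _ = G ^ 2 * T ^ 2 * (H : ℝ) / y := by ring

end Pool.Agent.Lib.MP_5b6025_nt.FE
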