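import Pool.Agent.Lib.MP_5b6025_nt.FE.Spec
import Pool.Agent.Lib.MP_5b6025_nt.RP.Mertens

/-!
# Module SMO: few smooth numbers
-/

set_option autoImplicit false

open Finset

namespace Pool.Agent.Lib.MP_5b6025_nt.FE

namespace SMO

theorem log_fact (H : ℕ) : (H : ℝ) * Real.log H - H ≤ ∑ s ∈ Ioc 0 H, Real.log (s : ℝ) := by
  induction H with
  | zero => simp
  | succ H ih =>
    rw [sum_Ioc_succ_top (Nat.zero_le H)]
    rcases Nat.eq_zero_or_pos H with rfl | hH
    · simp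
    · have hH' : (0 : ℝ) < H := by exact_mod_cast hH
      have h1 : Real.log ((H + 1 : ℕ) : ℝ) - Real.log H ≤ 1 / H := by
        rw [← Real.log_div (by positivity) hH'.ne']
        have h4 : ((H + 1 : ℕ) : ℝ) / H = 1 + 1 / H := by
          push_cast
          field_simp
        rw [h4]
        have := Real.log_le_sub_one_of_pos (x := 1 + 1 / (H : ℝ)) (by positivity)
        linarith
      have h2 : (H : ℝ) * (Real.log ((H + 1 : ℕ) : ℝ) - Real.log H) ≤ 1 := by
        have := mul_le_mul_of_nonneg_left h1 hH'.le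
        rwa [mul_one_div_cancel hH'.ne'] at this
      push_cast at *
      nlinarith

theorem mult_le (H d : ℕ) : ((((Ioc 0 H).filter fun s => d ∣ s).card : ℕ) : ℝ) ≤ (H : ℝ) / (d : ℝ) := by
  rw [Nat.Ioc_filter_dvd_card_eq_div]
  exact Nat.cast_div_le

theorem sum_div_le (H : ℕ) (P : ℕ → Prop) [DecidablePred P] :
    ∑ s ∈ Ioc 0 H, ∑ d ∈ s.divisors.filter P, ArithmeticFunction.vonMangoldt d ≤ (H : ℝ) * ∑ d ∈ (Ioc 0 H).filter P, ArithmeticFunction.vonMangoldt d / (d : ℝ) := by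
  have h1 : ∑ s ∈ Ioc 0 H, ∑ d ∈ s.divisors.filter P, ArithmeticFunction.vonMangoldt d =
      ∑ d ∈ (Ioc 0 H).filter P, ∑ s ∈ (Ioc 0 H).filter (fun s => d ∣ s), ArithmeticFunction.vonMangoldt d := by
    apply sum_comm'
    intro s d
    simp only [mem_Ioc, mem_filter, Nat.mem_divisors]
    constructor
    · rintro ⟨⟨h1, h2⟩, ⟨h3, h4⟩, h5⟩
      have h6 := Nat.le_of_dvd h1 h3
      have h7 := Nat.pos_of_dvd_of_pos h3 h1
      exact ⟨⟨⟨h1, h2⟩, h3⟩, ⟨h7, h6.trans h2⟩, h5⟩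
    · rintro ⟨⟨⟨h1, h2⟩, h3⟩, ⟨h4, h5⟩, h6⟩
      exact ⟨⟨h1, h2⟩, ⟨h3, by omega⟩, h6⟩
  rw [h1, mul_sum]
  apply sum_le_sum
  intro d _
  rw [sum_const, nsmul_eq_mul]
  have h2 := mult_le H d
  have h3 : 0 ≤ ArithmeticFunction.vonMangoldt d := ArithmeticFunction.vonMangoldt_nonneg
  calc _ ≤ (H : ℝ) / (d : ℝ) * ArithmeticFunction.vonMangoldt d := mul_le_mul_of_nonneg_right h2 h3
    _ = _ := by ring

end SMO

open SMO in
/-- **SMO**. -/
theorem specSMO : SpecSMO := by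
  classical
  obtain ⟨C1, hC1, hm⟩ := Pool.Agent.Lib.MP5b6025.RP.MertensM.mertens_upper
  obtain ⟨C2, hC2, hn⟩ := Pool.Agent.Lib.MP5b6025.RP.MertensM.nonprime_bd
  refine ⟨C1 + C2 + 1, by positivity, ?_⟩
  intro H y hH hy
  have hH0 : (0 : ℝ) < H := by exact_mod_cast hH
  have hIcc : Icc 1 H = Ioc 0 H := by
    ext s
    simp only [mem_Icc, mem_Ioc]
    omega
  rw [hIcc]
  set A := (Ioc 0 H).filter fun s : ℕ => ∀ p : ℕ, p.Prime → p ∣ s → (p : ℝ) ≤ y with hA
  set P : ℕ → Prop := fun d => ¬ (d.Prime ∧ y < (d : ℝ)) with hP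
  -- the sum of the logarithms
  have e1 : ∑ s ∈ Ioc 0 H, Real.log (s : ℝ) =
      ∑ s ∈ Ioc 0 H, ∑ d ∈ s.divisors.filter P, ArithmeticFunction.vonMangoldt d +
      ∑ s ∈ Ioc 0 H, ∑ d ∈ s.divisors.filter (fun d => ¬ P d), ArithmeticFunction.vonMangoldt d := by
    rw [← sum_add_distrib]
    apply sum_congr rfl
    intro s _
    rw [sum_filter_add_sum_filter_not, ArithmeticFunction.vonMangoldt_sum]
  -- the first part
  have e2 : ∑ d ∈ (Ioc 0 H).filter P, ArithmeticFunction.vonMangoldt d / (d : ℝ) ≤ Real.log y + C1 + C2 := by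
    have h1 : (Ioc 0 H).filter P ⊆ Ioc 0 ⌊y⌋₊ ∪ (Ioc 0 H).filter (fun d => ¬ d.Prime) := by
      intro d hd
      rw [mem_filter] at hd
      rw [mem_union, mem_filter]
      by_cases hp : d.Prime
      · left
        have h2 : ¬ y < (d : ℝ) := fun h => hd.2 ⟨hp, h⟩
        rw [mem_Ioc]
        exact ⟨(mem_Ioc.1 hd.1).1, Nat.le_floor (not_lt.1 h2)⟩
      · right
        exact ⟨hd.1, hp⟩
    have hnn : ∀ d : ℕ, 0 ≤ ArithmeticFunction.vonMangoldt d / (d : ℝ) := fun d =>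
      div_nonneg ArithmeticFunction.vonMangoldt_nonneg (Nat.cast_nonneg _)
    have hfl : 1 ≤ ⌊y⌋₊ := Nat.le_floor (by exact_mod_cast hy)
    calc ∑ d ∈ (Ioc 0 H).filter P, ArithmeticFunction.vonMangoldt d / (d : ℝ)
        ≤ ∑ d ∈ Ioc 0 ⌊y⌋₊ ∪ (Ioc 0 H).filter (fun d => ¬ d.Prime), ArithmeticFunction.vonMangoldt d / (d : ℝ) :=
          sum_le_sum_of_subset_of_nonneg h1 (fun d _ _ => hnn d)
      _ ≤ ∑ d ∈ Ioc 0 ⌊y⌋₊, ArithmeticFunction.vonMangoldt d / (d : ℝ) +
          ∑ d ∈ (Ioc 0 H).filter (fun d => ¬ d.Prime), ArithmeticFunction.vonMangoldt d / (d : ℝ) := by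
          rw [← sum_union_inter]
          have : 0 ≤ ∑ d ∈ Ioc 0 ⌊y⌋₊ ∩ (Ioc 0 H).filter (fun d => ¬ d.Prime),
              ArithmeticFunction.vonMangoldt d / (d : ℝ) := sum_nonneg fun d _ => hnn d
          linarith
      _ ≤ (Real.log (⌊y⌋₊ : ℝ) + C1) + C2 := add_le_add (hm _ hfl) (hn H)
      _ ≤ _ := by
          have h3 : Real.log (⌊y⌋₊ : ℝ) ≤ Real.log y :=
            Real.log_le_log (by exact_mod_cast hfl) (Nat.floor_le (by linarith))
          linarith
  have e3 : ∑ s ∈ Ioc 0 H, ∑ d ∈ s.divisors.filter P, ArithmeticFunction.vonMangoldt d ≤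
      (H : ℝ) * (Real.log y + C1 + C2) :=
    (sum_div_le H P).trans (mul_le_mul_of_nonneg_left e2 hH0.le)
  -- the second part
  have e4 : ∑ s ∈ Ioc 0 H, ∑ d ∈ s.divisors.filter (fun d => ¬ P d), ArithmeticFunction.vonMangoldt d ≤
      ∑ s ∈ Ioc 0 H, (if s ∈ A then 0 else Real.log H) := by
    apply sum_le_sum
    intro s hs
    rw [mem_Ioc] at hs
    split_ifs with h
    · apply le_of_eq
      apply sum_eq_zero
      intro d hd
      exfalso
      rw [mem_filter, Nat.mem_divisors] at hd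
      obtain ⟨⟨h1, h2⟩, h3⟩ := hd
      simp only [hP, not_not] at h3
      have := (mem_filter.1 h).2 d h3.1 h1
      linarith [h3.2]
    · calc ∑ d ∈ s.divisors.filter (fun d => ¬ P d), ArithmeticFunction.vonMangoldt d
          ≤ ∑ d ∈ s.divisors, ArithmeticFunction.vonMangoldt d :=
            sum_le_sum_of_subset_of_nonneg (filter_subset _ _)
              (fun d _ _ => ArithmeticFunction.vonMangoldt_nonneg)
        _ = Real.log s := ArithmeticFunction.vonMangoldt_sum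
        _ ≤ Real.log H := Real.log_le_log (by exact_mod_cast hs.1) (by exact_mod_cast hs.2)
  have e5 : ∑ s ∈ Ioc 0 H, (if s ∈ A then 0 else Real.log H) = ((H : ℝ) - (A.card : ℝ)) * Real.log H := by
    have h1 : ∀ s ∈ Ioc 0 H, (if s ∈ A then 0 else Real.log H) = Real.log H - (if s ∈ A then Real.log H else 0) := by
      intro s _
      split_ifs <;> simp
    rw [sum_congr rfl h1, sum_sub_distrib, ← sum_filter]
    have h2 : (Ioc 0 H).filter (fun s => s ∈ A) = A := by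
      ext s
      simp only [mem_filter]
      constructor
      · exact fun h => h.2
      · exact fun h => ⟨(mem_filter.1 h).1, h⟩
    rw [h2, sum_const, sum_const, Nat.card_Ioc]
    simp only [nsmul_eq_mul, Nat.sub_zero]
    ring
  have e6 := log_fact H
  rw [e5] at e4
  have : (A.card : ℝ) * Real.log H ≤ (H : ℝ) * (Real.log y + (C1 + C2 + 1)) := by
    nlinarith
  exact this

end Pool.Agent.Lib.MP_5b6025_nt.FE
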