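import Pool.Agent.Lib.MP_5b6025_nt.FE.Spec

/-!
# Module TUP: counting tuples
-/

set_option autoImplicit false

open Finset

namespace Pool.Agent.Lib.MP_5b6025_nt.FE

namespace TUP

theorem card_Icc_int (H : ℕ) : ((Icc (-(H : ℤ)) (H : ℤ)).card : ℝ) = 2 * (H : ℝ) + 1 := by
  rw [Int.card_Icc]
  have h : ((H : ℤ) + 1 - -(H : ℤ)).toNat = 2 * H + 1 := by omega
  rw [h]
  push_cast
  ring

theorem card_box (m H : ℕ) :
    ((Fintype.piFinset fun _ : Fin m => Icc (-(H : ℤ)) (H : ℤ)).card : ℝ)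
      = (2 * (H : ℝ) + 1) ^ m := by
  rw [Fintype.card_piFinset, Finset.prod_const, Finset.card_univ, Fintype.card_fin, Nat.cast_pow,
    card_Icc_int]

end TUP

open scoped Classical in
theorem specTUP : SpecTUP := by
  intro m θ P Q ε H hε hQ hP
  set I : Finset ℤ := Icc (-(H : ℤ)) (H : ℤ) with hI
  set X : Finset (Fin m → ℤ) := Fintype.piFinset fun _ : Fin m => I with hX
  set f : (Fin m → ℤ) × ℕ → ℤ → ℝ := fun q a₀ =>
    ((a₀ : ℝ) + ∑ i, (q.1 i : ℝ) * θ i) / (q.2 : ℝ) with hf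
  set W : Finset ((Fin m → ℤ) × ℕ) := X ×ˢ Icc 1 H with hW
  set F : Finset ℝ := W.biUnion fun q => (I.filter fun a₀ => ¬ P (f q a₀)).image (f q) with hF
  have hsub : {x ∈ Elements θ H | ¬ P x} ⊆ (F : Set ℝ) := by
    rintro x ⟨⟨a₀, a, s, h1, h2, h3, h4, rfl⟩, hx⟩
    rw [Finset.mem_coe, hF, Finset.mem_biUnion]
    refine ⟨(a, s), ?_, ?_⟩
    · rw [hW, Finset.mem_product]
      refine ⟨?_, Finset.mem_Icc.2 ⟨h3, h4⟩⟩
      rw [hX, Fintype.mem_piFinset]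
      intro i
      rw [hI, Finset.mem_Icc]
      exact abs_le.1 (h2 i)
    · rw [Finset.mem_image]
      refine ⟨a₀, ?_, rfl⟩
      rw [Finset.mem_filter, hI, Finset.mem_Icc]
      exact ⟨abs_le.1 h1, hx⟩
  have h1 : (({x ∈ Elements θ H | ¬ P x}).ncard : ℝ) ≤ (F.card : ℝ) := by
    have e1 := Set.ncard_le_ncard hsub F.finite_toSet
    rw [Set.ncard_coe_finset] at e1
    exact_mod_cast e1
  have h2 : (F.card : ℝ) ≤ ∑ q ∈ W, ((I.filter fun a₀ => ¬ P (f q a₀)).card : ℝ) := by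
    have e1 : F.card ≤ ∑ q ∈ W, (I.filter fun a₀ => ¬ P (f q a₀)).card :=
      Finset.card_biUnion_le.trans (Finset.sum_le_sum fun q _ => Finset.card_image_le)
    exact_mod_cast e1
  have hIc : (I.card : ℝ) = 2 * (H : ℝ) + 1 := TUP.card_Icc_int H
  have hXc : (X.card : ℝ) = (2 * (H : ℝ) + 1) ^ m := TUP.card_box m H
  have h3 : ∑ q ∈ W, ((I.filter fun a₀ => ¬ P (f q a₀)).card : ℝ)
      = ∑ s ∈ Icc 1 H, ∑ a ∈ X, ((I.filter fun a₀ => ¬ P (f (a, s) a₀)).card : ℝ) := by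
    rw [hW, Finset.sum_product_right]
  have h4 : ∀ s ∈ Icc 1 H, ∑ a ∈ X, ((I.filter fun a₀ => ¬ P (f (a, s) a₀)).card : ℝ)
      ≤ (2 * (H : ℝ) + 1) ^ (m + 1) * ((if ¬ Q s then 1 else 0) + 2 * ε) := by
    intro s hs
    rw [Finset.mem_Icc] at hs
    have e0 : (0 : ℝ) ≤ 2 * (H : ℝ) + 1 := by positivity
    by_cases hq : Q s
    · have e1 : ∑ a ∈ X, ((I.filter fun a₀ => ¬ P (f (a, s) a₀)).card : ℝ)
          ≤ ∑ a ∈ X, 2 * ε * (2 * (H : ℝ) + 1) := by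
        refine Finset.sum_le_sum fun a _ => ?_
        have e2 := hP s hs.1 hs.2 hq (∑ i, (a i : ℝ) * θ i)
        refine le_trans (le_of_eq ?_) e2
        congr 2
        ext a₀
        simp only [Finset.mem_filter, hf]
        rw [add_comm (a₀ : ℝ)]
      refine e1.trans (le_of_eq ?_)
      rw [Finset.sum_const, nsmul_eq_mul, hXc, if_neg (not_not.2 hq)]
      ring
    · have e1 : ∑ a ∈ X, ((I.filter fun a₀ => ¬ P (f (a, s) a₀)).card : ℝ)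
          ≤ ∑ a ∈ X, (2 * (H : ℝ) + 1) := by
        refine Finset.sum_le_sum fun a _ => ?_
        rw [← hIc]
        exact_mod_cast Finset.card_filter_le _ _
      refine e1.trans ?_
      rw [Finset.sum_const, nsmul_eq_mul, hXc, if_pos hq]
      have e2 : (2 * (H : ℝ) + 1) ^ m * (2 * (H : ℝ) + 1) = (2 * (H : ℝ) + 1) ^ (m + 1) := by ring
      rw [e2]
      have e3 : (0 : ℝ) ≤ (2 * (H : ℝ) + 1) ^ (m + 1) := by positivity
      nlinarith [mul_nonneg e3 hε]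
  have h5 : ∑ s ∈ Icc 1 H, (2 * (H : ℝ) + 1) ^ (m + 1) * ((if ¬ Q s then (1 : ℝ) else 0) + 2 * ε)
      = (2 * (H : ℝ) + 1) ^ (m + 1) *
        ((((Icc 1 H).filter fun s : ℕ => ¬ Q s).card : ℝ) + (H : ℝ) * (2 * ε)) := by
    rw [← Finset.mul_sum, Finset.sum_add_distrib, Finset.sum_boole, Finset.sum_const,
      nsmul_eq_mul, Nat.card_Icc, Nat.add_sub_cancel]
  have e3 : (0 : ℝ) ≤ (2 * (H : ℝ) + 1) ^ (m + 1) := by positivity
  calc (({x ∈ Elements θ H | ¬ P x}).ncard : ℝ) ≤ (F.card : ℝ) := h1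
    _ ≤ ∑ q ∈ W, ((I.filter fun a₀ => ¬ P (f q a₀)).card : ℝ) := h2
    _ = ∑ s ∈ Icc 1 H, ∑ a ∈ X, ((I.filter fun a₀ => ¬ P (f (a, s) a₀)).card : ℝ) := h3
    _ ≤ ∑ s ∈ Icc 1 H, (2 * (H : ℝ) + 1) ^ (m + 1) * ((if ¬ Q s then (1 : ℝ) else 0) + 2 * ε) :=
        Finset.sum_le_sum h4
    _ = (2 * (H : ℝ) + 1) ^ (m + 1) *
        ((((Icc 1 H).filter fun s : ℕ => ¬ Q s).card : ℝ) + (H : ℝ) * (2 * ε)) := h5
    _ ≤ (2 * (H : ℝ) + 1) ^ (m + 1) * (ε * (H : ℝ) + (H : ℝ) * (2 * ε)) :=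
        mul_le_mul_of_nonneg_left (by linarith) e3
    _ = 3 * ε * ((2 * (H : ℝ) + 1) ^ (m + 1) * (H : ℝ)) := by ring

end Pool.Agent.Lib.MP_5b6025_nt.FE
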