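import Pool.Agent.Lib.MP_5b6025_nt.FE.Spec

/-!
# WRD: from arcs to words
-/

set_option autoImplicit false

open Finset

namespace Pool.Agent.Lib.MP_5b6025_nt.FE

namespace WRD

/-- the integer with the digits `w` -/
def V (b : ℕ) : (k : ℕ) → (Fin k → ℤ) → ℤ
  | 0, _ => 0
  | k + 1, w => (b : ℤ) * V b k (fun j => w j.castSucc) + w (Fin.last k)

theorem V_bounds (b : ℕ) (hb : 2 ≤ b) : ∀ (k : ℕ) (w : Fin k → ℤ),
    (∀ j, 0 ≤ w j ∧ w j < (b : ℤ)) → 0 ≤ V b k w ∧ V b k w < (b : ℤ) ^ k := by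
  intro k
  induction k with
  | zero =>
    intro w _
    exact ⟨le_rfl, by simp [V]⟩
  | succ k ih =>
    intro w hw
    obtain ⟨h1, h2⟩ := ih (fun j => w j.castSucc) fun j => hw _
    obtain ⟨h3, h4⟩ := hw (Fin.last k)
    have hb' : (2 : ℤ) ≤ (b : ℤ) := by exact_mod_cast hb
    constructor
    · change 0 ≤ (b : ℤ) * V b k (fun j => w j.castSucc) + w (Fin.last k)
      have := mul_nonneg (by omega : (0 : ℤ) ≤ (b : ℤ)) h1
      omega
    · change (b : ℤ) * V b k (fun j => w j.castSucc) + w (Fin.last k) < (b : ℤ) ^ (k + 1)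
      have h5 : V b k (fun j => w j.castSucc) + 1 ≤ (b : ℤ) ^ k := h2
      have h6 := mul_le_mul_of_nonneg_left h5 (by omega : (0 : ℤ) ≤ (b : ℤ))
      rw [pow_succ, mul_comm ((b : ℤ) ^ k)]
      rw [mul_add, mul_one] at h6
      omega

theorem V_inj (b : ℕ) (hb : 2 ≤ b) : ∀ (k : ℕ) (w w' : Fin k → ℤ),
    (∀ j, 0 ≤ w j ∧ w j < (b : ℤ)) → (∀ j, 0 ≤ w' j ∧ w' j < (b : ℤ)) → V b k w = V b k w' →
    ∀ j, w j = w' j := by
  intro k
  induction k with
  | zero =>
    intro w w' _ _ _ j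
    exact j.elim0
  | succ k ih =>
    intro w w' hw hw' h
    have h1 : (b : ℤ) * V b k (fun j => w j.castSucc) + w (Fin.last k) =
      (b : ℤ) * V b k (fun j => w' j.castSucc) + w' (Fin.last k) := h
    obtain ⟨a1, a2⟩ := hw (Fin.last k)
    obtain ⟨b1, b2⟩ := hw' (Fin.last k)
    have h2 : w (Fin.last k) = w' (Fin.last k) := by
      have e1 := Int.emod_eq_of_lt a1 a2
      have e2 := Int.emod_eq_of_lt b1 b2
      have e3 := congrArg (fun z : ℤ => z % (b : ℤ)) h1
      simp only [Int.mul_add_emod_self_left] at e3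
      rw [e1, e2] at e3
      exact e3
    have h3 : V b k (fun j => w j.castSucc) = V b k (fun j => w' j.castSucc) := by
      rw [h2] at h1
      have h4 := add_right_cancel h1
      exact mul_left_cancel₀ (by exact_mod_cast (by omega : b ≠ 0)) h4
    have h5 := ih _ _ (fun j => hw _) (fun j => hw' _) h3
    intro j
    refine Fin.lastCases h2 (fun i => h5 i) j

theorem tau_eq (b : ℕ) (hb : 2 ≤ b) : ∀ (k : ℕ) (w : Fin k → ℤ),
    tau b (fun j => (w j : ℝ)) = (V b k w : ℝ) / (b : ℝ) ^ k := by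
  intro k
  induction k with
  | zero =>
    intro w
    simp [tau, V]
  | succ k ih =>
    intro w
    have hb0 : (b : ℝ) ≠ 0 := by positivity
    have h1 := ih fun j => w j.castSucc
    unfold tau at h1 ⊢
    rw [Fin.sum_univ_castSucc]
    simp only [Fin.val_castSucc, Fin.val_last]
    rw [h1]
    change _ = (((b : ℤ) * V b k (fun j => w j.castSucc) + w (Fin.last k) : ℤ) : ℝ) / _
    push_cast
    rw [pow_succ]
    field_simp

end WRD

open WRD in
theorem specWRD (hARC : SpecARC) : SpecWRD := by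
  classical
  intro b M N x hb hM hN k w hw
  have hbk : (0 : ℝ) < (b : ℝ) ^ k := by positivity
  have hbk1 : (1 : ℝ) ≤ (b : ℝ) ^ k := one_le_pow₀ (by exact_mod_cast (by omega : 1 ≤ b))
  have hN0 : (0 : ℝ) < (N : ℝ) := by exact_mod_cast hN
  set v : ℤ := V b k w with hv
  -- the orbit point
  have horb : ∀ n, x * (b : ℝ) ^ n = (⌊x * (b : ℝ) ^ n⌋ : ℝ) +
      ((V b k (fun j : Fin k => digit b x (n + j)) : ℝ) + orb b x (n + k)) / (b : ℝ) ^ k := by
    intro n
    have h1 := orb_eq (x := x) hb k n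
    rw [tau_eq b hb k (fun j : Fin k => digit b x (n + j)), ← add_div] at h1
    rw [← h1]
    unfold orb
    rw [Int.floor_add_fract]
  have hor : ∀ n, 0 ≤ orb b x (n + k) ∧ orb b x (n + k) < 1 := fun n =>
    ⟨Int.fract_nonneg _, Int.fract_lt_one _⟩
  have hfract : ∀ (z : ℝ) (m : ℤ) (y : ℝ), z = (m : ℝ) + y → 0 ≤ y → y < 1 → Int.fract z = y := by
    intro z m y h1 h2 h3
    rw [h1, Int.fract_intCast_add, Int.fract_eq_self.2 ⟨h2, h3⟩]
  set W := (range N).filter fun n => ∀ j : Fin k, digit b x (n + j) = w j with hW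
  have hdef : ∑ h ∈ Ico 1 M, ‖∑ n ∈ range N, ee ((h : ℝ) * (x * (b : ℝ) ^ n))‖ / ((h : ℝ) * (N : ℝ)) =
      defect b M N x := rfl
  -- upper bound
  have hup : (W.card : ℝ) / (N : ℝ) ≤ 1 / (b : ℝ) ^ k + 12 / √(M : ℝ) + 2 * defect b M N x := by
    have h1 := hARC (fun n => x * (b : ℝ) ^ n) N M ((v : ℝ) / (b : ℝ) ^ k) (1 / (b : ℝ) ^ k) hN hM
      (by positivity) (by rw [div_le_one hbk]; exact hbk1)
    rw [hdef] at h1
    refine le_trans ?_ h1
    refine div_le_div_of_nonneg_right ?_ hN0.le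
    refine Nat.cast_le.2 (card_le_card fun n hn => ?_)
    rw [hW, mem_filter] at hn
    rw [mem_filter]
    refine ⟨hn.1, ?_⟩
    have h2 : V b k (fun j : Fin k => digit b x (n + j)) = v := by
      rw [hv]
      congr 1
      funext j
      exact hn.2 j
    have h3 := horb n
    rw [h2] at h3
    obtain ⟨o1, o2⟩ := hor n
    have h4 : Int.fract (x * (b : ℝ) ^ n - (v : ℝ) / (b : ℝ) ^ k) = orb b x (n + k) / (b : ℝ) ^ k := by
      refine hfract _ ⌊x * (b : ℝ) ^ n⌋ _ ?_ (by positivity) ?_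
      · conv_lhs => rw [h3]
        ring
      · rw [div_lt_one hbk]
        linarith
    rw [h4]
    exact div_lt_div_of_pos_right o2 hbk
  -- lower bound
  have hlow : ((N : ℝ) - (W.card : ℝ)) / (N : ℝ) ≤
      1 - 1 / (b : ℝ) ^ k + 12 / √(M : ℝ) + 2 * defect b M N x := by
    have h1 := hARC (fun n => x * (b : ℝ) ^ n) N M (((v : ℝ) + 1) / (b : ℝ) ^ k)
      (1 - 1 / (b : ℝ) ^ k) hN hM
      (by rw [sub_nonneg, div_le_one hbk]; exact hbk1) (by
        have : 0 < 1 / (b : ℝ) ^ k := by positivity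
        linarith)
    rw [hdef] at h1
    refine le_trans ?_ h1
    refine div_le_div_of_nonneg_right ?_ hN0.le
    have h2 : (N : ℝ) - (W.card : ℝ) =
        (((range N).filter fun n => ¬ ∀ j : Fin k, digit b x (n + j) = w j).card : ℝ) := by
      have h3 := Finset.card_filter_add_card_filter_not (s := range N)
        (fun n => ∀ j : Fin k, digit b x (n + j) = w j)
      rw [card_range] at h3
      rw [← hW] at h3
      have h4 : ((W.card : ℕ) : ℝ) + (((range N).filter fun n =>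
        ¬ ∀ j : Fin k, digit b x (n + j) = w j).card : ℝ) = (N : ℝ) := by exact_mod_cast h3
      linarith
    rw [h2]
    refine Nat.cast_le.2 (card_le_card fun n hn => ?_)
    rw [mem_filter] at hn ⊢
    refine ⟨hn.1, ?_⟩
    set v' : ℤ := V b k (fun j : Fin k => digit b x (n + j)) with hv'
    have hne : v' ≠ v := by
      intro he
      exact hn.2 (V_inj b hb k _ _ (fun j => ⟨digit_nonneg hb _, digit_lt hb _⟩) hw he)
    obtain ⟨c1, c2⟩ := V_bounds b hb k w hw
    obtain ⟨d1, d2⟩ := V_bounds b hb k (fun j : Fin k => digit b x (n + j))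
      (fun j => ⟨digit_nonneg hb _, digit_lt hb _⟩)
    rw [← hv] at c1 c2
    rw [← hv'] at d1 d2
    have h3 := horb n
    rw [← hv'] at h3
    obtain ⟨o1, o2⟩ := hor n
    have hmain : ∀ u : ℤ, 0 ≤ u → u + 2 ≤ (b : ℤ) ^ k →
        0 ≤ ((u : ℝ) + orb b x (n + k)) / (b : ℝ) ^ k ∧
        ((u : ℝ) + orb b x (n + k)) / (b : ℝ) ^ k < 1 - 1 / (b : ℝ) ^ k := by
      intro u hu1 hu2
      have hu1' : (0 : ℝ) ≤ (u : ℝ) := by exact_mod_cast hu1
      have hu2' : (u : ℝ) + 2 ≤ (b : ℝ) ^ k := by exact_mod_cast hu2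
      refine ⟨by positivity, ?_⟩
      rw [eq_sub_of_add_eq (sub_add_cancel (1 : ℝ) (1 / (b : ℝ) ^ k)), one_sub_div hbk.ne',
        div_lt_div_iff_of_pos_right hbk]
      linarith
    rcases lt_or_gt_of_ne hne with hlt | hgt
    · obtain ⟨m1, m2⟩ := hmain (v' - v - 1 + (b : ℤ) ^ k) (by omega) (by omega)
      have h4 : Int.fract (x * (b : ℝ) ^ n - ((v : ℝ) + 1) / (b : ℝ) ^ k) =
          (((v' - v - 1 + (b : ℤ) ^ k : ℤ) : ℝ) + orb b x (n + k)) / (b : ℝ) ^ k := by
        refine hfract _ (⌊x * (b : ℝ) ^ n⌋ - 1) _ ?_ m1 ?_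
        · conv_lhs => rw [h3]
          push_cast
          field_simp
          ring
        · have : 0 < 1 / (b : ℝ) ^ k := by positivity
          linarith
      rw [h4]
      exact m2
    · obtain ⟨m1, m2⟩ := hmain (v' - v - 1) (by omega) (by omega)
      have h4 : Int.fract (x * (b : ℝ) ^ n - ((v : ℝ) + 1) / (b : ℝ) ^ k) =
          (((v' - v - 1 : ℤ) : ℝ) + orb b x (n + k)) / (b : ℝ) ^ k := by
        refine hfract _ ⌊x * (b : ℝ) ^ n⌋ _ ?_ m1 ?_
        · conv_lhs => rw [h3]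
          push_cast
          field_simp
          ring
        · have : 0 < 1 / (b : ℝ) ^ k := by positivity
          linarith
      rw [h4]
      exact m2
  have hsplit : ((N : ℝ) - (W.card : ℝ)) / (N : ℝ) = 1 - (W.card : ℝ) / (N : ℝ) := by
    field_simp
  rw [hsplit] at hlow
  rw [abs_le]
  constructor <;> linarith

end Pool.Agent.Lib.MP_5b6025_nt.FE
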