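import Pool.Agent.Lib.MP_5b6025_nt.FE.ARC
import Pool.Agent.Lib.MP_5b6025_nt.FE.BAD
import Pool.Agent.Lib.MP_5b6025_nt.FE.BLK
import Pool.Agent.Lib.MP_5b6025_nt.FE.COP
import Pool.Agent.Lib.MP_5b6025_nt.FE.DEF
import Pool.Agent.Lib.MP_5b6025_nt.FE.DEN
import Pool.Agent.Lib.MP_5b6025_nt.FE.DIS
import Pool.Agent.Lib.MP_5b6025_nt.FE.FIN
import Pool.Agent.Lib.MP_5b6025_nt.FE.GD1
import Pool.Agent.Lib.MP_5b6025_nt.FE.GD2
import Pool.Agent.Lib.MP_5b6025_nt.FE.MOM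
import Pool.Agent.Lib.MP_5b6025_nt.FE.RES
import Pool.Agent.Lib.MP_5b6025_nt.FE.SCL
import Pool.Agent.Lib.MP_5b6025_nt.FE.SML
import Pool.Agent.Lib.MP_5b6025_nt.FE.SMO
import Pool.Agent.Lib.MP_5b6025_nt.FE.TUP
import Pool.Agent.Lib.MP_5b6025_nt.FE.WRD

/-!
Assembly of the modules of `Spec.lean`.
-/

set_option autoImplicit false

namespace Pool.Agent.Lib.MP_5b6025_nt.FE

theorem dWRD : SpecWRD := specWRD specARC

theorem dDEF : SpecDEF := specDEF specMOM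

theorem dBAD : SpecBAD := specBAD dWRD dDEF

theorem dGD1 : SpecGD1 := specGD1 dBAD specSCL

theorem dGD2 : SpecGD2 := specGD2 dBAD

theorem dDEN : SpecDEN := specDEN specSMO specSML

theorem dDIS : SpecDIS := specDIS specCOP

theorem dFIN : SpecFIN := specFIN dGD1 dGD2 specRES specBLK dDEN dDIS specTUP

end Pool.Agent.Lib.MP_5b6025_nt.FE
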