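import Pool.Agent.Lib.MP_5b6025_nt.Defs

/-!
Definitions for the theorem on the digits of the elements of real number fields.
-/

set_option autoImplicit false

open Finset

namespace Pool.Agent.Lib.MP_5b6025_nt.FE

/-- Among the first `N` base-`b` digits of `x` (after the point) every word has a frequency within
`τ` of the expected one. -/
def Balanced (b : ℕ) (τ : ℝ) (N : ℕ) (x : ℝ) : Prop :=
  ∀ (k : ℕ) (w : Fin k → ℤ), (∀ j, 0 ≤ w j ∧ w j < (b : ℤ)) →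
    |(((range N).filter fun n => ∀ j : Fin k, digit b x (n + j) = w j).card : ℝ) / (N : ℝ)
      - 1 / (b : ℝ) ^ k| ≤ τ

/-- The real numbers `(a₀ + a₁ θ₁ + ... + a_m θ_m) / s` with integers `|a_i| ≤ H`, `1 ≤ s ≤ H`. -/
def Elements {m : ℕ} (θ : Fin m → ℝ) (H : ℕ) : Set ℝ :=
  {x | ∃ (a₀ : ℤ) (a : Fin m → ℤ) (s : ℕ), |a₀| ≤ (H : ℤ) ∧ (∀ i, |a i| ≤ (H : ℤ)) ∧ 1 ≤ s ∧ s ≤ H ∧
    x = ((a₀ : ℝ) + ∑ i, (a i : ℝ) * θ i) / (s : ℝ)}

end Pool.Agent.Lib.MP_5b6025_nt.FE
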