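import Pool.Agent.Lib.MP_5b6025_nt.FE.Spec
import Pool.Agent.Lib.MP_5b6025_nt.Residues

/-!
# MOM: second moment over the translates by multiples of `1 / p`
-/

set_option autoImplicit false

open Finset

namespace Pool.Agent.Lib.MP_5b6025_nt.FE

namespace MOM

/-- the square of the norm of an exponential sum -/
theorem normSq_sum (N : ℕ) (f : ℕ → ℝ) :
    (((‖∑ n ∈ range N, ee (f n)‖ ^ 2 : ℝ)) : ℂ) =
      ∑ n ∈ range N, ∑ n' ∈ range N, ee (f n - f n') := by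
  have h1 : (((‖∑ n ∈ range N, ee (f n)‖ ^ 2 : ℝ)) : ℂ) =
      (∑ n ∈ range N, ee (f n)) * (starRingEnd ℂ) (∑ n ∈ range N, ee (f n)) := by
    rw [Complex.mul_conj, Complex.normSq_eq_norm_sq]
  rw [h1, map_sum, Finset.sum_mul_sum]
  refine sum_congr rfl fun n _ => sum_congr rfl fun n' _ => ?_
  rw [← ee_neg, ← ee_add, sub_eq_add_neg]

/-- orthogonality -/
theorem geom (p : ℕ) (hp : p ≠ 0) (c : ℤ) :
    ‖∑ r ∈ range p, ee ((r : ℝ) * (c : ℝ) / (p : ℝ))‖ ≤ if (p : ℤ) ∣ c then (p : ℝ) else 0 := by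
  have hp0 : (p : ℝ) ≠ 0 := by exact_mod_cast hp
  have hpow : ∀ r : ℕ, ee ((r : ℝ) * (c : ℝ) / (p : ℝ)) = ee ((c : ℝ) / (p : ℝ)) ^ r := by
    intro r
    induction r with
    | zero => simp
    | succ r ih =>
      rw [pow_succ, ← ih, ← ee_add]
      congr 1
      push_cast
      ring
  by_cases h : (p : ℤ) ∣ c
  · rw [if_pos h]
    obtain ⟨d, rfl⟩ := h
    have h1 : ∀ r ∈ range p, ee ((r : ℝ) * (((p : ℤ) * d : ℤ) : ℝ) / (p : ℝ)) = 1 := by
      intro r _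
      have h2 : (r : ℝ) * (((p : ℤ) * d : ℤ) : ℝ) / (p : ℝ) = ((r * d : ℤ) : ℝ) := by
        push_cast
        field_simp
      rw [h2, ee_intCast]
    rw [sum_congr rfl h1]
    simp
  · rw [if_neg h]
    have hne : ee ((c : ℝ) / (p : ℝ)) ≠ 1 := by
      rw [Ne, ee_eq_one_iff]
      rintro ⟨n, hn⟩
      apply h
      rw [div_eq_iff hp0] at hn
      refine ⟨n, ?_⟩
      have : (c : ℝ) = (((p : ℤ) * n : ℤ) : ℝ) := by
        rw [hn]
        push_cast
        ring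
      exact_mod_cast this
    have h1 : ee ((c : ℝ) / (p : ℝ)) ^ p = 1 := by
      rw [← hpow]
      have : (p : ℝ) * (c : ℝ) / (p : ℝ) = ((c : ℤ) : ℝ) := by field_simp
      rw [this, ee_intCast]
    simp only [hpow]
    rw [geom_sum_eq hne, h1, sub_self, zero_div, norm_zero]

/-- number of the elements of a residue class -/
theorem count_le (N T n : ℕ) (hT : 0 < T) :
    (((range N).filter fun n' => n' ≡ n [MOD T]).card : ℝ) ≤ (N : ℝ) / (T : ℝ) + 1 := by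
  rw [← Nat.count_eq_card_filter_range, Nat.count_modEq_card _ hT]
  have h1 : ((N / T : ℕ) : ℝ) ≤ (N : ℝ) / (T : ℝ) := Nat.cast_div_le
  push_cast
  split_ifs
  · linarith
  · linarith

end MOM

open MOM in
theorem specMOM : SpecMOM := by
  intro p b h N x hp hb hh
  have : Fact p.Prime := ⟨hp⟩
  have hp0 : (p : ℝ) ≠ 0 := by exact_mod_cast hp.ne_zero
  set T := orderOf (b : ZMod p) with hT
  have hbz : (b : ZMod p) ≠ 0 := by
    rw [Ne, ZMod.natCast_eq_zero_iff]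
    exact hb
  have hTpos : 0 < T := by
    rw [hT, orderOf_pos_iff]
    exact isOfFinOrder_iff_pow_eq_one.2 ⟨p - 1, by have := hp.one_lt; omega,
      ZMod.pow_card_sub_one_eq_one hbz⟩
  -- the integer `h (b^n - b^n')`
  set c : ℕ → ℕ → ℤ := fun n n' => (h : ℤ) * ((b : ℤ) ^ n - (b : ℤ) ^ n') with hc
  have hdvd : ∀ n n', (p : ℤ) ∣ c n n' ↔ n' ≡ n [MOD T] := by
    intro n n'
    have h1 : (p : ℤ) ∣ c n n' ↔ (p : ℤ) ∣ ((b : ℤ) ^ n - (b : ℤ) ^ n') := by
      constructor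
      · intro hd
        rcases (Nat.prime_iff_prime_int.1 hp).dvd_or_dvd hd with h2 | h2
        · exact absurd (by exact_mod_cast h2) hh
        · exact h2
      · intro hd
        exact hd.mul_left _
    rw [h1, ← ZMod.intCast_zmod_eq_zero_iff_dvd]
    push_cast
    rw [sub_eq_zero]
    have hu : IsUnit (b : ZMod p) := isUnit_iff_ne_zero.2 hbz
    obtain ⟨u, hu⟩ := hu
    rw [hT, ← hu, ← Units.val_pow_eq_pow_val, ← Units.val_pow_eq_pow_val, Units.val_inj,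
      orderOf_units, pow_eq_pow_iff_modEq]
    exact ⟨fun h => h.symm, fun h => h.symm⟩
  have hsum : ((∑ r ∈ range p,
      ‖∑ n ∈ range N, ee ((h : ℝ) * ((x + (r : ℝ) / (p : ℝ)) * (b : ℝ) ^ n))‖ ^ 2 : ℝ) : ℂ) =
      ∑ n ∈ range N, ∑ n' ∈ range N, ee ((h : ℝ) * x * (b : ℝ) ^ n - (h : ℝ) * x * (b : ℝ) ^ n') *
        ∑ r ∈ range p, ee ((r : ℝ) * (c n n' : ℝ) / (p : ℝ)) := by
    rw [Complex.ofReal_sum]
    have h1 : ∀ r ∈ range p,
        (((‖∑ n ∈ range N, ee ((h : ℝ) * ((x + (r : ℝ) / (p : ℝ)) * (b : ℝ) ^ n))‖ ^ 2 : ℝ)) : ℂ) =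
        ∑ n ∈ range N, ∑ n' ∈ range N,
          ee ((h : ℝ) * x * (b : ℝ) ^ n - (h : ℝ) * x * (b : ℝ) ^ n') *
          ee ((r : ℝ) * (c n n' : ℝ) / (p : ℝ)) := by
      intro r _
      rw [normSq_sum]
      refine sum_congr rfl fun n _ => sum_congr rfl fun n' _ => ?_
      rw [← ee_add]
      congr 1
      simp only [hc]
      push_cast
      field_simp
    rw [sum_congr rfl h1, sum_comm]
    refine sum_congr rfl fun n _ => ?_
    rw [sum_comm]
    refine sum_congr rfl fun n' _ => ?_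
    rw [mul_sum]
  have hnn : (0 : ℝ) ≤ ∑ r ∈ range p,
      ‖∑ n ∈ range N, ee ((h : ℝ) * ((x + (r : ℝ) / (p : ℝ)) * (b : ℝ) ^ n))‖ ^ 2 :=
    sum_nonneg fun _ _ => by positivity
  calc ∑ r ∈ range p,
        ‖∑ n ∈ range N, ee ((h : ℝ) * ((x + (r : ℝ) / (p : ℝ)) * (b : ℝ) ^ n))‖ ^ 2
      = ‖((∑ r ∈ range p,
          ‖∑ n ∈ range N, ee ((h : ℝ) * ((x + (r : ℝ) / (p : ℝ)) * (b : ℝ) ^ n))‖ ^ 2 : ℝ) : ℂ)‖ := by
        rw [Complex.norm_real, Real.norm_of_nonneg hnn]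
    _ ≤ ∑ n ∈ range N, ∑ n' ∈ range N, if n' ≡ n [MOD T] then (p : ℝ) else 0 := by
        rw [hsum]
        refine (norm_sum_le _ _).trans (sum_le_sum fun n _ => (norm_sum_le _ _).trans
          (sum_le_sum fun n' _ => ?_))
        rw [norm_mul, norm_ee, one_mul]
        refine (geom p hp.ne_zero (c n n')).trans (le_of_eq ?_)
        by_cases h2 : n' ≡ n [MOD T]
        · rw [if_pos h2, if_pos ((hdvd n n').2 h2)]
        · rw [if_neg h2, if_neg fun h3 => h2 ((hdvd n n').1 h3)]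
    _ ≤ ∑ n ∈ range N, (p : ℝ) * ((N : ℝ) / (T : ℝ) + 1) := by
        refine sum_le_sum fun n _ => ?_
        rw [← sum_filter, sum_const, nsmul_eq_mul, mul_comm]
        exact mul_le_mul_of_nonneg_left (count_le N T n hTpos) (Nat.cast_nonneg p)
    _ = (p : ℝ) * (N : ℝ) * ((N : ℝ) / (T : ℝ) + 1) := by
        rw [sum_const, card_range, nsmul_eq_mul]
        ring

end Pool.Agent.Lib.MP_5b6025_nt.FE
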