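import Pool.Agent.Lib.MP_5b6025_nt.Blocks
import Pool.Agent.Lib.MP_5b6025_nt.FE.Defs

/-!
# Digits of almost all elements of a real number field, up to `N = exp (H ^ δ)`: definitions and specifications

Paper proof, in one paragraph. Let `x` be any real number, `p` a prime, `b` a base which has large order `T` modulo `p`.
For the `p` translates `x + r / p` the mean square of `(1/N) ∑_{n < N} e(h x bⁿ)` is at most `1/T + 1/N` when
`p` does not divide `h` (MOM), for every `N`, however large. Fejér kernels turn this into: for all but a proportion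
`C τ^(-3) (1/T + 1/N)` of the residues `r` all words have frequency within `τ` of the expected one (BAD). A union bound
over `N` in suitable progressions inside dyadic blocks up to `exp G` costs only a power of `G` (GD1); `G` is a
small power of `T`. Averaging over `N ≤ M` gives the statement on upper density (GD2). For `100` percent of the
`s ≤ H` there is such a prime `p ∣ s` with `T ≥ H ^ γ` (DEN), and the numbers `(a₀ + a₁ θ₁ + .. + a_m θ_m) / s`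
with fixed `a₁, .., a_m, s` are translates by multiples of `1 / s`.

Everything is elementary; all modules are independent of each other (use a Spec as a hypothesis
`(hARC : SpecARC)` etc.).  File `FE/XXX.lean`, namespace `Pool.Agent.Lib.MP_5b6025_nt.FE`, own lemmas in the
sub-namespace `XXX`, theorem `specXXX (hYYY : SpecYYY) ... : SpecXXX`.
-/

set_option autoImplicit false

open Finset

namespace Pool.Agent.Lib.MP_5b6025_nt.FE

/-- Weighted sum of the exponential sums of the orbit `x bⁿ`, `n < N`. -/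
noncomputable def defect (b M N : ℕ) (x : ℝ) : ℝ :=
  ∑ h ∈ Ico 1 M, ‖∑ n ∈ range N, ee ((h : ℝ) * (x * (b : ℝ) ^ n))‖ / ((h : ℝ) * (N : ℝ))

/-- Property (1) of the theorem: all bases `2 ≤ b ≤ G`, all `N` with `(b / δ) ^ 4 ≤ N ≤ exp G`. -/
def Good1 (G δ x : ℝ) : Prop :=
  ∀ b : ℕ, 2 ≤ b → (b : ℝ) ≤ G → ∀ N : ℕ, ((b : ℝ) / δ) ^ 4 ≤ (N : ℝ) → (N : ℝ) ≤ Real.exp G →
    Balanced b (1 / (N : ℝ) ^ ((1 : ℝ) / 8) + 1 / G) N x

/-- Property (2): the `N` which are bad in some base `2 ≤ b ≤ G` have lower density at most `1 / G`. -/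
def Good2 (G x : ℝ) : Prop :=
  ∀ M₀ : ℕ, ∃ M : ℕ, M₀ ≤ M ∧ 0 < M ∧
    (({N : ℕ | N < M ∧ ¬ ∀ b : ℕ, 2 ≤ b → (b : ℝ) ≤ G → Balanced b (1 / G) N x}).ncard : ℝ)
      ≤ (M : ℝ) / G

/-- Counting below `n` with `ncard` and with `filter`. -/
lemma ncard_lt_eq (n : ℕ) (P : ℕ → Prop) [DecidablePred P] :
    ({r : ℕ | r < n ∧ P r}).ncard = ((range n).filter P).card := by
  have h : ({r : ℕ | r < n ∧ P r}) = (((range n).filter P : Finset ℕ) : Set ℕ) := by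
    ext r; simp
  rw [h, Set.ncard_coe_finset]

/-- `p` is a prime, at least `T`, modulo which every base `2 ≤ b ≤ G` is a unit of order at least `T`. -/
def PrimeOK (G T : ℝ) (p : ℕ) : Prop :=
  p.Prime ∧ T ≤ (p : ℝ) ∧ ∀ b : ℕ, 2 ≤ b → (b : ℝ) ≤ G → ¬ p ∣ b ∧ T ≤ (orderOf (b : ZMod p) : ℝ)

/-- **ARC** (250 lines, no hypotheses). Upper bound for the number of points in an arc of the circle.
Proof. If `M < 144` then `12 / √M ≥ 1` and the left side is at most `1`. Let `M ≥ 144`, `κ = 1 / √M`; if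
`ℓ + 2 κ + 1 / M ≥ 1` again the right side is `≥ 1`. Otherwise put
`F(u) = (1/M) ‖∑_{j<M} ee(j u)‖² = (1/M) ∑_{j,j'<M} ee((j-j') u) ≥ 0`. From the geometric sum and
`le_norm_ee_sub_one` (4|t| ≤ ‖ee t - 1‖ for |t| ≤ 1/2): `F(u) ≤ 1/(4 M v²)` if `u` is within an integer of `±v`,
`0 < v ≤ 1/2`; so for `0 < u < 1`: `F(u) ≤ (1/(4M)) (1/u² + 1/(1-u)²)`.
Let `j₀ = ⌈M (α - κ)⌉`, `j₁ = ⌊M (α + ℓ + κ)⌋ + 1` (integers), `J = Ico j₀ j₁`; `|J| ≤ M (ℓ + 2 κ) + 1 ≤ M`. Let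
`f(t) = (1/M) ∑_{l ∈ J} F(t - l/M)`. (a) `f ≥ 0`. (b) if `fract (t - α) < ℓ` then `f(t) ≥ 1 - κ`: the sum over
`l ∈ Ico j₀ (j₀ + M)` instead of `J` is exactly `1` (orthogonality: `∑_{l} ee(-h l / M) = 0` over `M` consecutive `l` for
`0 < |h| < M`); shift `t` by an integer (F is 1-periodic) so that `α ≤ t < α + ℓ`; for `j₁ ≤ l < j₀ + M`,
`u = l/M - t` satisfies `u > κ + (l - j₁)/M` and `1 - u > κ + (j₀ + M - 1 - l)/M`, hence the missing part is at most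
`(1/M) (1/(4M)) 2 ∑_{i≥0} 1/(κ + i/M)² ≤ (1/(2M²)) (1/κ² + M/κ) = 1/(2M) + κ/2 ≤ κ` (compare
`1/(κ+i/M)² ≤ M (1/(κ+(i-1)/M) - 1/(κ+i/M))` for `i ≥ 1`, telescoping). (c)
`∑_{n<N} f(t_n) = (1/M²) ∑_{j,j'<M} (∑_n ee((j-j') t_n)) (∑_{l∈J} ee(-(j-j') l/M))`; the terms `j = j'` give `N |J| / M`;
for `h = |j - j'| ≥ 1` the inner sum over the `≤ M` consecutive integers `l` is at most `M / (2 min(h, M-h))`, there are
`2 (M - h)` such pairs, and `(1/M²) 2 (M-h) M / (2 min(h,M-h)) ≤ 1/h`. So with `S h = ‖∑_n ee(h t_n)‖`: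
`(1 - κ) card ≤ N |J| / M + ∑_{1≤h<M} S h / h`, and `|J|/M ≤ ℓ + 2 κ + κ²`, `1/(1-κ) ≤ 1 + 12 κ / 11`. -/
def SpecARC : Prop :=
  ∀ (t : ℕ → ℝ) (N M : ℕ) (α ℓ : ℝ), 1 ≤ N → 1 ≤ M → 0 ≤ ℓ → ℓ ≤ 1 →
    (((range N).filter fun n => Int.fract (t n - α) < ℓ).card : ℝ) / (N : ℝ)
      ≤ ℓ + 12 / √(M : ℝ)
        + 2 * ∑ h ∈ Ico 1 M, ‖∑ n ∈ range N, ee ((h : ℝ) * t n)‖ / ((h : ℝ) * (N : ℝ))

/-- **WRD** (150 lines, hyp ARC). From arcs to words.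
Proof. `k = 0`: the frequency is `1`. For `k ≥ 1` let `v = ∑ w_j b^(k-1-j)`, so that `tau b w = v / b^k`
(`Blocks.lean`: `tau`, `orb_eq`, `word_eq_iff`, `digit_nonneg`, `digit_lt`). With `t n = x bⁿ`, `orb b x n = fract (t n)`:
the digits `n, .., n+k-1` are `w` iff `v/b^k ≤ orb b x n < (v+1)/b^k`. Upper bound: ARC with `α = v/b^k`, `ℓ = 1/b^k`.
Lower bound: the complement is contained in `{fract (t n - (v+1)/b^k) < 1 - 1/b^k}`: ARC with `ℓ = 1 - 1/b^k`. (For (not the word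
`w`) implies (orb outside the interval) use `orb_eq`: if `orb` is in the interval, compare the word `w'` at `n`:
`|tau w - tau w'| < 1/b^k` and both are integers divided by `b^k`, so `tau w = tau w'`, and `tau` is injective on
digit words; or prove directly by induction on `k` that the word at `n` is determined by `⌊b^k orb⌋`.) -/
def SpecWRD : Prop :=
  ∀ (b M N : ℕ) (x : ℝ), 2 ≤ b → 1 ≤ M → 1 ≤ N →
    Balanced b (12 / √(M : ℝ) + 2 * defect b M N x) N x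

/-- **MOM** (150 lines, no hypotheses). Second moment over the translates by multiples of `1 / p`.
Proof. Expand the square: `∑_{n,n'<N} ee(h x (bⁿ - b^n')) ∑_{r<p} ee(r h (bⁿ - b^n') / p)`. The inner sum is `p` if
`p ∣ h (bⁿ - b^n')`, that is (as `p` is prime, `p ∤ h`) if `bⁿ ≡ b^n' mod p`, and `0` otherwise. With
`T = orderOf (b : ZMod p)` (b is a unit mod p, so `T > 0`) this means `n ≡ n' mod T` (`pow_eq_pow_iff_modEq`), and for each `n`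
there are at most `N / T + 1` such `n' < N` (`Nat.count_modEq_card` or directly). -/
def SpecMOM : Prop :=
  ∀ (p b h N : ℕ) (x : ℝ), p.Prime → ¬ p ∣ b → ¬ p ∣ h →
    ∑ r ∈ range p, ‖∑ n ∈ range N, ee ((h : ℝ) * ((x + (r : ℝ) / (p : ℝ)) * (b : ℝ) ^ n))‖ ^ 2
      ≤ (p : ℝ) * (N : ℝ) * ((N : ℝ) / (orderOf (b : ZMod p) : ℝ) + 1)

/-- **DEF** (100 lines, hyp MOM). Second moment of the defect.
Proof. Cauchy-Schwarz: `defect² ≤ (∑_{1≤h<M} 1/h) ∑_{1≤h<M} (1/h) ‖S_h‖² / N²`; sum over `r` and use MOM (`1 ≤ h < M ≤ p`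
implies `p ∤ h`): at most `(∑ 1/h)² p (N/T + 1)/N`. And `∑_{1≤h<M} 1/h ≤ 1 + log M`
(`harmonic_le_one_add_log` for `M ≥ 2`, trivial for `M ≤ 1`). -/
def SpecDEF : Prop :=
  ∀ (p b M N : ℕ) (x : ℝ), p.Prime → ¬ p ∣ b → M ≤ p → 1 ≤ N →
    ∑ r ∈ range p, defect b M N (x + (r : ℝ) / (p : ℝ)) ^ 2
      ≤ (p : ℝ) * (1 + Real.log M) ^ 2 * (1 / (orderOf (b : ZMod p) : ℝ) + 1 / (N : ℝ))

open scoped Classical in
/-- **BAD** (100 lines, hyps WRD, DEF). Proportion of bad translates at one level `N`.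
Proof. `M = ⌈576 / τ²⌉ ≤ 577 / τ² ≤ p`, `12 / √M ≤ τ / 2`. If `x' = x + r/p` is not balanced then by WRD
(and monotonicity of `Balanced` in `τ`) `τ < 12/√M + 2 defect`, so `defect > τ/4`. By DEF the number of such `r` is at most
`(16/τ²) p (1 + log M)² (1/T + 1/N)`, and `1 + log M ≤ 4 M^(1/4)` (`Real.add_one_le_exp` or `log y ≤ 4 (y^(1/4) - 1)`), so
`(1 + log M)² ≤ 16 √M ≤ 16 √577 / τ ≤ 400 / τ`. -/
def SpecBAD : Prop :=
  ∀ (p b N : ℕ) (x τ : ℝ), p.Prime → ¬ p ∣ b → 2 ≤ b → 1 ≤ N → 0 < τ → τ ≤ 1 → 577 / τ ^ 2 ≤ (p : ℝ) →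
    (((range p).filter fun r : ℕ => ¬ Balanced b τ N (x + (r : ℝ) / (p : ℝ))).card : ℝ)
      ≤ 6400 * (p : ℝ) / τ ^ 3 * (1 / (orderOf (b : ZMod p) : ℝ) + 1 / (N : ℝ))

/-- **SCL** (60 lines, no hypotheses). From level `N'` to level `N ≥ N'`.
Proof. For a word with counts `c' ≤ c ≤ c' + (N - N')` (and `c' ≤ N'`): `c/N ≤ c'/N' + (N - N')/N` and
`c/N ≥ c'/N ≥ c'/N' - (N - N')/N`. -/
def SpecSCL : Prop :=
  ∀ (b N N' : ℕ) (τ x : ℝ), 1 ≤ N' → N' ≤ N → Balanced b τ N' x →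
    Balanced b (τ + ((N : ℝ) - (N' : ℝ)) / (N : ℝ)) N x

open scoped Classical in
/-- **GD1** (250 lines, hyps BAD, SCL). Property (1) for most translates by multiples of `1 / p`.
Proof. Fix `b`. For `i ≥ 0` let `τ_i = 2^(-(i+1)/8) + 1/G` (between `1/G` and `3/2`, and `≤ N^(-1/8) + 1/G` for
`N < 2^(i+1)`), `t = max 1 ⌊2^i τ_i / 4⌋` (so `t < 2^i` or `t = 1`). For `2^i ≤ N < 2^(i+1)` let `N' = t ⌊N/t⌋`, so `N - N' < t`, `N' ≥ 1`,
`N' ≥ 2^i/2`, and `(N - N')/N ≤ τ_i/4` (if `t = 1` then `N' = N`). By SCL: if `N'` is balanced with `τ_i/2` then `N` is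
balanced with `τ_i`. The number of possible `N'` (multiples of `t` below `2^(i+1)`, or at most `2^i < 4/τ_i` numbers when
`2^i τ_i / 4 < 1`) is at most `18/τ_i`. By BAD with `τ_i/2` (`577 / (τ_i/2)² ≤ 2308 G² ≤ p`) the number of `r` which fail for some such `N'` is
at most `(18/τ_i) 6400 p (8/τ_i³) (1/T + 2/2^i)`; and `τ_i^(-4) ≤ G⁴`, `τ_i^(-4) ≤ 2^((i+1)/2)`. Sum over the `i` with
`2^(i+1) > (b/δ)^4` and `2^i ≤ exp G` (at most `2 G` values): at most `C p ((δ/b)² + G⁵/T)` (geometric series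
`∑ 2^(-i/2)`). Sum over `2 ≤ b ≤ G`. Any constant `C` will do. -/
def SpecGD1 : Prop :=
  ∃ C : ℝ, 0 < C ∧ ∀ (p : ℕ) (G T δ x : ℝ), 2 ≤ G → 0 < δ → δ ≤ 1 → 0 < T → PrimeOK G T p →
    2500 * G ^ 2 ≤ (p : ℝ) →
    (((range p).filter fun r : ℕ => ¬ Good1 G δ (x + (r : ℝ) / (p : ℝ))).card : ℝ)
      ≤ C * (p : ℝ) * (δ ^ 2 + G ^ 6 / T)

open scoped Classical in
/-- **GD2** (200 lines, hyp BAD). Property (2) for most translates by multiples of `1 / p`.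
Proof. Let `bad r N` mean: some base `2 ≤ b ≤ G` is not balanced (with `1/G`) at level `N` for `x + r/p`. By BAD
(`τ = 1/G`, `577 G² ≤ p`) `#{r : bad r N} ≤ G 6400 p G³ (1/T + 1/N)` for `N ≥ 1`, and `≤ p` for `N = 0`. So
`∑_{r<p} #{N < M : bad r N} ≤ p + 6400 p G⁴ (M/T + 1 + log M) ≤ 12801 p G⁴ M / T` for all large `M` (dependent on
`G, T`). Let `Y` be the set of the `r < p` which violate Good2: for `r ∈ Y` there is `M_r` with `#{N < M : bad r N} > M/G` for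
all `M ≥ M_r`, `M > 0`. Take one `M` above all `M_r` (finitely many): `|Y| M / G ≤ 12801 p G⁴ M / T`. -/
def SpecGD2 : Prop :=
  ∃ C : ℝ, 0 < C ∧ ∀ (p : ℕ) (G T x : ℝ), 2 ≤ G → 0 < T → PrimeOK G T p → 2500 * G ^ 2 ≤ (p : ℝ) →
    (((range p).filter fun r : ℕ => ¬ Good2 G (x + (r : ℝ) / (p : ℝ))).card : ℝ)
      ≤ C * (p : ℝ) * (G ^ 6 / T)

open scoped Classical in
/-- **RES** (100 lines, no hypotheses). From a prime (any divisor `p`) to `s`.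
Proof. `r ↦ (r mod (s/p), r / (s/p))` is a bijection of `range s` with `range (s/p) × range p`
(`r = r₀ + (s/p) r₁`), and `r/s = r₀/s + r₁/p`. -/
def SpecRES : Prop :=
  ∀ (P : ℝ → Prop) (ε : ℝ) (p s : ℕ), 1 ≤ p → 1 ≤ s → p ∣ s →
    (∀ x : ℝ, (((range p).filter fun r : ℕ => ¬ P (x + (r : ℝ) / (p : ℝ))).card : ℝ) ≤ ε * (p : ℝ)) →
    ∀ x : ℝ, (((range s).filter fun r : ℕ => ¬ P (x + (r : ℝ) / (s : ℝ))).card : ℝ) ≤ ε * (s : ℝ)

open scoped Classical in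
/-- **BLK** (100 lines, no hypotheses). The integers `-H ≤ a ≤ H` are covered by at most `(2H+1)/s + 1` blocks of `s`
consecutive integers `a = a' + r`, `r < s`, and `(y + a)/s = (y + a')/s + r/s`; so the count is at most
`((2H+1)/s + 1) ε s ≤ 2 ε (2H+1)`. -/
def SpecBLK : Prop :=
  ∀ (P : ℝ → Prop) (ε : ℝ) (s H : ℕ), 0 ≤ ε → 1 ≤ s → s ≤ H →
    (∀ x : ℝ, (((range s).filter fun r : ℕ => ¬ P (x + (r : ℝ) / (s : ℝ))).card : ℝ) ≤ ε * (s : ℝ)) →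
    ∀ y : ℝ, (((Icc (-(H : ℤ)) (H : ℤ)).filter fun a : ℤ => ¬ P ((y + (a : ℝ)) / (s : ℝ))).card : ℝ)
      ≤ 2 * ε * (2 * (H : ℝ) + 1)

open scoped Classical in
/-- **SMO** (200 lines, no hypotheses; import `RP/Mertens.lean`, which has `mertens_upper`
`∑_{d ≤ N} Λ d / d ≤ log N + C` and `nonprime_bd`). Few `y`-smooth numbers.
Proof. Let `A` be the set on the left. `∑_{s≤H} log s = ∑_{s≤H} ∑_{d∣s} Λ(d) = ∑_{d≤H} Λ(d) ⌊H/d⌋` and
`log H! ≥ H log H - H`. Let `D₁` be the prime powers whose prime is `≤ y`, `D₂` the others. `∑_{d∈D₁, d≤H} Λ(d) ⌊H/d⌋ ≤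
H (∑_{primes d ≤ y} Λ(d)/d + ∑_{d nonprime} Λ(d)/d) ≤ H (log y + C)`. So `∑_{s≤H} ∑_{d∣s, d∈D₂} Λ(d) ≥ H log H - H (log y + C + 1)`; the inner
sum is `0` for `s ∈ A` and `≤ log s ≤ log H` otherwise: the left side is `≤ (H - |A|) log H`. -/
def SpecSMO : Prop :=
  ∃ C : ℝ, 0 < C ∧ ∀ (H : ℕ) (y : ℝ), 1 ≤ H → 1 ≤ y →
    (((Icc 1 H).filter fun s : ℕ => ∀ p : ℕ, p.Prime → p ∣ s → (p : ℝ) ≤ y).card : ℝ) * Real.log H
      ≤ (H : ℝ) * (Real.log y + C)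

open scoped Classical in
/-- **SML** (150 lines, no hypotheses). Few numbers have a prime factor `p > y` modulo which some small base has small order.
Proof. If `p > y ≥ G ≥ b` then `p ∤ b`, so `j = orderOf (b : ZMod p) ≥ 1` and `p ∣ b^j - 1`, `1 ≤ j < T`. For fixed `b, j` the
distinct primes `p > y ≥ 2` dividing `b^j - 1 ≥ 1` number at most `j log₂ b ≤ j G` (their product is `≤ b^j - 1`, each is `≥ 2`:
`2^#  ≤ b^j`). Over `1 ≤ j < T` and `b ≤ G`: at most `G² T²` primes (`∑_{1≤j<T} j ≤ T²`). Each has at most `H/p ≤ H/y` multiples. -/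
def SpecSML : Prop :=
  ∀ (H : ℕ) (y G T : ℝ), 2 ≤ y → 0 ≤ G → G ≤ y → 0 ≤ T →
    (((Icc 1 H).filter fun s : ℕ => ∃ p : ℕ, p.Prime ∧ p ∣ s ∧ y < (p : ℝ) ∧
      ∃ b : ℕ, 2 ≤ b ∧ (b : ℝ) ≤ G ∧ (orderOf (b : ZMod p) : ℝ) < T).card : ℝ)
      ≤ G ^ 2 * T ^ 2 * (H : ℝ) / y

open scoped Classical in
/-- **DEN** (120 lines, hyps SMO, SML). Almost all denominators are good.
Proof. We may assume `ε ≤ 1`. Take `γ = ε/32`, `y = H^(ε/4)`, `T = H^γ = y^(1/8)`, `G = H^(γ/8)`. By SMO at most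
`H (ε/4 + C/log H) ≤ (ε/2) H` of the `s` have no prime factor `> y`; by SML at most `G² T² H / y ≤ H y^(-1/2) ≤ (ε/2) H` have a prime factor `p > y`
with a base `b ≤ G` of order `< T`. For the others any prime factor `p > y` is as required (`p > y ≥ T`, and
`p > y ≥ G ≥ b` gives `p ∤ b`). -/
def SpecDEN : Prop :=
  ∀ ε : ℝ, 0 < ε → ∃ γ : ℝ, 0 < γ ∧ ∃ H₀ : ℕ, ∀ H : ℕ, H₀ ≤ H →
    (((Icc 1 H).filter fun s : ℕ =>
      ¬ ∃ p : ℕ, p ∣ s ∧ PrimeOK ((H : ℝ) ^ (γ / 8)) ((H : ℝ) ^ γ) p).card : ℝ) ≤ ε * (H : ℝ)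

/-- **COP** (120 lines, no hypotheses). At least half of the pairs are coprime.
Proof. The pairs in `[1,H]²` with a common prime factor number at most `∑_{p prime} ⌊H/p⌋² ≤ H² (1/4 + ∑_{odd n≥3} 1/n²)` and
`∑_{odd n ≥ 3} 1/n² ≤ 1/9 + ∑_{k≥2} 1/((2k)(2k+2)) = 1/9 + 1/8 < 1/4`. -/
def SpecCOP : Prop :=
  ∀ H : ℕ, (H : ℝ) ^ 2 ≤ 2 * ((((Icc 1 H) ×ˢ (Icc 1 H)).filter fun q : ℕ × ℕ => Nat.Coprime q.1 q.2).card : ℝ)

/-- **DIS** (200 lines, hyp COP). The set `Elements θ H` is finite and large.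
Proof. Finite: image of a finite set of tuples. Lower bound: the tuples `(a₀, a, s)` with `a 0` coprime to `s`,
`a 0 ≠ 0` (here `0 : Fin m`, `m ≥ 1`) give different numbers: equality of two numbers means, by linear independence, `a_i s' = a'_i s`
for all `i` (also `a₀`), then `s ∣ s'`, `s' ∣ s` from coprimality, so `s = s'` and `a = a'`. Their number is
`(2H+1)^m · 2 · #{coprime pairs in [1,H]²} ≥ (2H+1)^m H²`, and `(2H+1) ≤ 3H`. -/
def SpecDIS : Prop :=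
  ∀ (m : ℕ) (θ : Fin m → ℝ), 1 ≤ m → LinearIndependent ℚ (Fin.cons (1 : ℝ) θ : Fin (m + 1) → ℝ) →
    ∀ H : ℕ, 1 ≤ H → (Elements θ H).Finite ∧
      (2 * (H : ℝ) + 1) ^ (m + 1) * (H : ℝ) ≤ 3 * ((Elements θ H).ncard : ℝ)

open scoped Classical in
/-- **TUP** (150 lines, no hypotheses). Counting tuples.
Proof. The set on the left is contained in the image of the set of the tuples `(a₀, a, s)` with `s` bad, or `s` good and
`P` false at `(a₀ + ∑ a_i θ_i)/s`. The first kind: at most `ε H (2H+1)^(m+1)`; the second: for each good `s` and each `a` (at most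
`H (2H+1)^m` choices) at most `2 ε (2H+1)` values `a₀`. -/
def SpecTUP : Prop :=
  ∀ (m : ℕ) (θ : Fin m → ℝ) (P : ℝ → Prop) (Q : ℕ → Prop) (ε : ℝ) (H : ℕ), 0 ≤ ε →
    (((Icc 1 H).filter fun s : ℕ => ¬ Q s).card : ℝ) ≤ ε * (H : ℝ) →
    (∀ s : ℕ, 1 ≤ s → s ≤ H → Q s → ∀ y : ℝ,
      (((Icc (-(H : ℤ)) (H : ℤ)).filter fun a : ℤ => ¬ P ((y + (a : ℝ)) / (s : ℝ))).card : ℝ)
        ≤ 2 * ε * (2 * (H : ℝ) + 1)) →
    (({x ∈ Elements θ H | ¬ P x}).ncard : ℝ) ≤ 3 * ε * ((2 * (H : ℝ) + 1) ^ (m + 1) * (H : ℝ))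

/-- **FIN** (120 lines, hyps GD1, GD2, RES, BLK, DEN, DIS, TUP). The theorem, uniform over all fields.
Proof. `ε₁ = ε/9`; `C₁, C₂` from GD1, GD2; `γ, H₀` from DEN for `ε₁`; `δ ≤ min 1 (γ/8)` with `C₁ δ² ≤ ε₁/3`; `G = H^δ`,
`T = H^γ`. PrimeOK (H^(γ/8)) T p implies PrimeOK G T p; `2500 G² ≤ T ≤ p` and `(C₁ + C₂) G⁶/T ≤ H^(-γ/4) (C₁+C₂) ≤ ε₁/3`
for large `H`. So for such `p` and all `x` at most `ε₁ p` of the translates violate `P x := Good1 G δ x ∧ Good2 G x`. RES, BLK, TUP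
(with `Q s := ∃ p ∣ s, PrimeOK ..`), DIS: at most `3 ε₁ · 3 ncard`. (RES and BLK need no periodicity of `P`.) -/
def SpecFIN : Prop :=
  ∀ ε : ℝ, 0 < ε → ∃ δ : ℝ, 0 < δ ∧ ∃ H₀ : ℕ, ∀ (m : ℕ) (θ : Fin m → ℝ), 1 ≤ m →
    LinearIndependent ℚ (Fin.cons (1 : ℝ) θ : Fin (m + 1) → ℝ) → ∀ H : ℕ, H₀ ≤ H →
      (Elements θ H).Finite ∧ 0 < (Elements θ H).ncard ∧
      (({x ∈ Elements θ H | ¬ (Good1 ((H : ℝ) ^ δ) δ x ∧ Good2 ((H : ℝ) ^ δ) x)}).ncard : ℝ)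
        ≤ ε * ((Elements θ H).ncard : ℝ)

end Pool.Agent.Lib.MP_5b6025_nt.FE
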